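import Mathlib

set_option autoImplicit false

namespace Pool.Agent.H545R3.Fan

open Set Topology Filter

/-- `A` is an arc with endpoints `x` and `y`: the image of an embedding (continuous injection) of
`[0,1]` taking `0` to `x` and `1` to `y`. -/
def IsArc {X : Type*} [TopologicalSpace X] (A : Set X) (x y : X) : Prop :=
  ∃ f : unitInterval → X, Continuous f ∧ Function.Injective f ∧ f 0 = x ∧ f 1 = y ∧ Set.range f = A

/-- A subcontinuum: a nonempty compact connected subset. -/
def IsSubcontinuum {X : Type*} [TopologicalSpace X] (A : Set X) : Prop :=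
  IsCompact A ∧ IsConnected A

/-- Every subcontinuum `K` is unicoherent: whenever `K = A ∪ B` with `A`, `B` subcontinua, the
intersection `A ∩ B` is connected. -/
def HereditarilyUnicoherent (X : Type*) [TopologicalSpace X] : Prop :=
  ∀ K A B : Set X, IsSubcontinuum K → IsSubcontinuum A → IsSubcontinuum B → K = A ∪ B →
    IsConnected (A ∩ B)

/-- `p` is a ramification point: the vertex of a simple triod (three arcs with common endpoint `p`
that pairwise meet only in `p`). -/
def IsRamification {X : Type*} [TopologicalSpace X] (p : X) : Prop :=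
  ∃ (A₁ A₂ A₃ : Set X) (x₁ x₂ x₃ : X), IsArc A₁ p x₁ ∧ IsArc A₂ p x₂ ∧ IsArc A₃ p x₃ ∧
    A₁ ∩ A₂ = {p} ∧ A₁ ∩ A₃ = {p} ∧ A₂ ∩ A₃ = {p}

/-- A fan with top `t`: a dendroid (an arcwise connected hereditarily unicoherent continuum) whose
only ramification point is `t`. -/
structure IsFan (X : Type*) [MetricSpace X] (t : X) : Prop where
  compact : CompactSpace X
  connected : ConnectedSpace X
  arcwise : ∀ x y : X, x ≠ y → ∃ A, IsArc A x y
  unicoherent : HereditarilyUnicoherent X
  ramification : ∀ p : X, IsRamification p ↔ p = t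

/-- `e` is an endpoint: it is an endpoint of every arc containing it. -/
def IsEndpoint {X : Type*} [TopologicalSpace X] (e : X) : Prop :=
  ∀ (A : Set X) (x y : X), IsArc A x y → e ∈ A → e = x ∨ e = y

/-- The (possibly degenerate) arc from `x` to `y`. -/
def IsSeg {X : Type*} [TopologicalSpace X] (A : Set X) (x y : X) : Prop :=
  (x = y ∧ A = {x}) ∨ IsArc A x y

/-- Smoothness of a fan with top `t`: `xₙ → x` implies `[t,xₙ] → [t,x]` in the Hausdorff metric. -/
def IsSmooth {X : Type*} [MetricSpace X] (t : X) : Prop :=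
  ∀ (u : ℕ → X) (x : X), Tendsto u atTop (𝓝 x) → ∀ (A : ℕ → Set X) (B : Set X),
    (∀ n, IsSeg (A n) t (u n)) → IsSeg B t x →
      Tendsto (fun n => Metric.hausdorffDist (A n) B) atTop (𝓝 0)

/-- For any two endpoints there is a homeomorphism of the space moving one to the other. -/
def EndpointHomogeneous (X : Type*) [TopologicalSpace X] : Prop :=
  ∀ e e' : X, IsEndpoint e → IsEndpoint e' → ∃ h : X ≃ₜ X, h e = e'

/-- The fan with top `t` is `Z`-EPG: for every blade `B = [t,e]` there is a homeomorphism
`φ : [0,1] → B` with `φ(0) = t`, `φ(1) = e` and `φ[Z] = B ∩ closure (E \ B)`. -/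
def IsEPG {X : Type*} [TopologicalSpace X] (t : X) (Z : Set unitInterval) : Prop :=
  ∀ (B : Set X) (e : X), IsEndpoint e → IsArc B t e →
    ∃ φ : unitInterval ≃ₜ B, (φ 0 : X) = t ∧ (φ 1 : X) = e ∧
      (fun z => (φ z : X)) '' Z = B ∩ closure ({e' : X | IsEndpoint e'} \ B)

end Pool.Agent.H545R3.Fan
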