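import Pool.Agent.H545R3.FanHom

set_option autoImplicit false
set_option linter.unusedVariables false
set_option linter.unusedSectionVars false
set_option linter.dupNamespace false
set_option linter.unusedSimpArgs false

namespace Pool.Agent.H545R3.Fan

open Set Topology Filter

lemma exists_cyl {c : Cs} {V : Set Cs} (hV : V ∈ 𝓝 c) : ∃ M, ∀ d : Cs, (∀ k < M, d k = c k) → d ∈ V := by
  obtain ⟨U, ⟨x, n, rfl⟩, hcU, hUV⟩ :=
    (PiNat.isTopologicalBasis_cylinders (fun _ : ℕ => Bool)).mem_nhds_iff.1 hV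
  refine ⟨n, fun d hd => hUV ?_⟩
  rw [PiNat.mem_cylinder_iff] at hcU ⊢
  intro i hi
  rw [hd i hi, hcU i hi]

lemma cyl_open (c : Cs) (M : ℕ) : IsOpen {d : Cs | ∀ k < M, d k = c k} := by
  have : {d : Cs | ∀ k < M, d k = c k} = PiNat.cylinder c M := by
    ext d
    rw [PiNat.mem_cylinder_iff]; rfl
  rw [this]
  exact PiNat.isOpen_cylinder _ _ _

variable {K : Set (Cs × ℝ)}

lemma approx {c : Cs} {s : ℝ} {h : (c, s) ∈ K} {U : Set (Fan K)} (hU : U ∈ 𝓝 (pt c s h)) :
    ∃ M : ℕ, ∃ ε > 0, ∀ (d : Cs) (u : ℝ) (h' : (d, u) ∈ K), (∀ k < M, d k = c k) → |u - s| < ε →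
      pt d u h' ∈ U := by
  rw [nhds_subtype_eq_comap, mem_comap] at hU
  obtain ⟨U', hU', hsub⟩ := hU
  have h1 : pr ⁻¹' U' ∈ 𝓝 (c, s) := pr_cont.continuousAt.preimage_mem_nhds hU'
  rw [nhds_prod_eq, mem_prod_iff] at h1
  obtain ⟨V, hV, B, hB, hVB⟩ := h1
  obtain ⟨M, hM⟩ := exists_cyl hV
  obtain ⟨ε, hε, hεB⟩ := Metric.mem_nhds_iff.1 hB
  refine ⟨M, ε, hε, fun d u h' hd hu => ?_⟩
  apply hsub
  show pr (d, u) ∈ U'
  apply hVB (a := (d, u))
  exact ⟨hM d hd, hεB (by rw [Metric.mem_ball, Real.dist_eq]; exact hu)⟩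

lemma nbhd (hK : Good K) {c : Cs} {s : ℝ} {h : (c, s) ∈ K} (hs : 0 < s) (M : ℕ) {ε : ℝ}
    (hε : 0 < ε) : ∃ U ∈ 𝓝 (pt c s h), ∀ (d : Cs) (u : ℝ) (h' : (d, u) ∈ K), pt d u h' ∈ U →
      (∀ k < M, d k = c k) ∧ |u - s| < ε := by
  set W : Set (Cs × ℝ) := K ∩ ({q | ∀ k < M, q.1 k = c k}ᶜ ∪ {q | ε ≤ |q.2 - s|}) with hW
  have hWc : IsCompact W := by
    apply hK.comp.inter_right
    apply IsClosed.union
    · rw [isClosed_compl_iff]
      exact (cyl_open c M).preimage continuous_fst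
    · exact isClosed_le continuous_const (by fun_prop)
  have hWi : IsClosed (pr '' W) := (hWc.image pr_cont).isClosed
  refine ⟨Subtype.val ⁻¹' (pr '' W)ᶜ, ?_, ?_⟩
  · apply (hWi.isOpen_compl.preimage continuous_subtype_val).mem_nhds
    rintro ⟨q, hq, hqe⟩
    have hqe' : pr q = pr (c, s) := hqe
    have := pr_inj hqe'.symm (ne_of_gt hs)
    subst this
    rcases hq.2 with h1 | h1
    · exact h1 (fun k _ => rfl)
    · have h1' : ε ≤ |s - s| := h1
      simp at h1'
      linarith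
  · intro d u h' hU
    by_contra hcon
    apply hU
    refine ⟨(d, u), ⟨h', ?_⟩, rfl⟩
    rw [not_and_or] at hcon
    rcases hcon with h1 | h1
    · exact Or.inl h1
    · exact Or.inr (not_lt.1 h1)

variable {ψ ma mb : St → ℝ}

lemma sup_ext {c d : Cs} {m M n : ℕ} (hc : Sup c m) (hmM : m ≤ M) (hd : ∀ k < M, d k = c k)
    (h : ∀ k, M ≤ k → k < n → d k = false) (hdn : Sup d n) : d = c := by
  funext k
  by_cases h1 : k < M
  · exact hd k h1
  · push Not at h1
    rw [hc k (hmM.trans h1)]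
    by_cases h2 : k < n
    · exact h k h1 h2
    · exact hdn k (not_lt.1 h2)

lemma exists_small {s : ℝ} (hs : 0 < s) : ∃ N : ℕ, ∀ q, N ≤ q → 2 * ((1:ℝ)/4) ^ q < s := by
  obtain ⟨N, hN⟩ := exists_pow_lt_of_lt_one (show (0:ℝ) < s / 2 by linarith)
    (show ((1:ℝ)/4) < 1 by norm_num)
  refine ⟨N, fun q hq => ?_⟩
  have : ((1:ℝ)/4) ^ q ≤ (1/4) ^ N := pow_le_pow_of_le_one (by norm_num) (by norm_num) hq
  linarith

lemma acc_of (W : Wt ψ ma mb) {c : Cs} {m : ℕ} (hc : Sup c m) {s : ℝ} (hs : 0 < s)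
    (h : (c, s) ∈ KK ψ) (ha : s ≠ ma (st c m)) (hb : s ≠ mb (st c m)) :
    ∃ U ∈ 𝓝 (pt c s h), ∀ d n (hd : Sup d n), pt d (ψ (st d n)) (tip_mem W hd) ∈ U → d = c := by
  obtain ⟨N, hN⟩ := exists_small (show (0:ℝ) < s / 2 by linarith)
  set M := max m N with hM
  set ε := min (min |s - ma (st c m)| |s - mb (st c m)|) (s / 2) with hε
  have hεa : 0 < |s - ma (st c m)| := abs_pos.2 (sub_ne_zero.2 ha)
  have hεb : 0 < |s - mb (st c m)| := abs_pos.2 (sub_ne_zero.2 hb)
  have hε0 : 0 < ε := lt_min (lt_min hεa hεb) (by linarith)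
  obtain ⟨U, hU, hUe⟩ := nbhd (good W) (h := h) hs M hε0
  refine ⟨U, hU, fun d n hd hdU => ?_⟩
  obtain ⟨h1, h2⟩ := hUe _ _ _ hdU
  by_contra hne
  have ea : ψ (st d n) ≠ ma (st c m) := by
    intro h3
    rw [h3, abs_sub_comm] at h2
    exact absurd (h2.trans_le ((min_le_left _ _).trans (min_le_left _ _))) (lt_irrefl _)
  have eb : ψ (st d n) ≠ mb (st c m) := by
    intro h3
    rw [h3, abs_sub_comm] at h2
    exact absurd (h2.trans_le ((min_le_left _ _).trans (min_le_right _ _))) (lt_irrefl _)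
  have esm : ∀ q, M ≤ q → ¬ ψ (st d n) ≤ 2 * (1/4) ^ q := by
    intro q hq h3
    have h4 := hN q ((le_max_right _ _).trans hq)
    have h5 := h2.trans_le (min_le_right _ _)
    rw [abs_lt] at h5
    linarith [h5.1]
  set n' := max n M with hn'
  have hdn' : st d n = st d n' := (st_const hd (le_max_left _ _)).symm
  rw [hdn'] at ea eb esm
  have hdM : st d M = st c m := by rw [st_congr h1, st_const hc (le_max_left _ _)]
  obtain ⟨v1, v2, v3⟩ := st_valid c m
  have hmM : m ≤ M := le_max_left _ _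
  rcases inv d d M (fun _ _ => rfl) n' (le_max_right _ _) with ⟨h3, _, _⟩ | ⟨q, h3, h4, h5, _⟩ |
    ⟨q, r, h3, h4, h5, h6, _⟩ | ⟨p, q, r, h3, h4, h5, h6, h7, _⟩
  · exact hne (sup_ext hc hmM h1 h3 (sup_mono hd (le_max_left _ _)))
  · rw [hdM] at h5
    rw [h5] at ea eb
    rcases W.acc1 (st c m).1 (st c m).2.1 (st c m).2.2 q v1 v2 (by omega) with h8 | h8
    · exact ea h8
    · exact eb h8
  · rw [hdM] at h6
    rw [h6] at ea eb esm
    rcases W.acc2 (st c m).1 (st c m).2.1 (st c m).2.2 q r v1 v2 (by omega) h4 with h8 | h8 | h8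
    · exact ea h8
    · exact eb h8
    · exact esm q (by omega) h8
  · rw [h7] at esm
    exact esm p (by omega) (W.bound p q r h4 h5)

lemma one_more {c : Cs} {m : ℕ} (hc : Sup c m) {k : ℕ} (hk : m ≤ k) :
    ∃ d : Cs, Sup d (k+1) ∧ st d (k+1) = ((st c m).2.1, (st c m).2.2, k+3) ∧
      (∀ j < k, d j = c j) ∧ d k = true := by
  refine ⟨Function.update c k true, ?_, ?_, ?_, ?_⟩
  · intro n hn
    rw [Function.update_of_ne (by omega)]
    exact hc n (by omega)
  · rw [st_succ_true (by simp)]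
    have : st (Function.update c k true) k = st c k := by
      apply st_congr
      intro j hj
      rw [Function.update_of_ne (by omega)]
    rw [this, st_const hc hk]
  · intro j hj
    rw [Function.update_of_ne (by omega)]
  · simp

lemma real_aux {c : Cs} {m : ℕ} (hc : Sup c m) (v : ℝ)
    (h : ∀ N, (∃ q, N ≤ q ∧ ψ ((st c m).2.1, (st c m).2.2, q) = v) ∨
      (∃ q r, N ≤ q ∧ q < r ∧ ψ ((st c m).2.2, q, r) = v)) (M : ℕ) :
    ∃ d n, Sup d n ∧ (∀ k < M, d k = c k) ∧ d ≠ c ∧ ψ (st d n) = v := by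
  rcases h (max m M + 3) with ⟨q, hq, hv⟩ | ⟨q, r, hq, hr, hv⟩
  · obtain ⟨k, rfl⟩ : ∃ k, q = k + 3 := ⟨q - 3, by omega⟩
    have hmk : m ≤ k := by have := le_max_left m M; omega
    have hMk : M ≤ k := by have := le_max_right m M; omega
    obtain ⟨d, h1, h2, h3, h4⟩ := one_more hc hmk
    refine ⟨d, k+1, h1, fun j hj => h3 j (by omega), ?_, ?_⟩
    · intro he
      rw [he, hc k hmk] at h4
      exact Bool.noConfusion h4
    · rw [h2]; exact hv
  · obtain ⟨k, rfl⟩ : ∃ k, q = k + 3 := ⟨q - 3, by omega⟩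
    obtain ⟨l, rfl⟩ : ∃ l, r = l + 3 := ⟨r - 3, by omega⟩
    have hmk : m ≤ k := by have := le_max_left m M; omega
    have hMk : M ≤ k := by have := le_max_right m M; omega
    obtain ⟨d, h1, h2, h3, h4⟩ := one_more hc hmk
    obtain ⟨d', h1', h2', h3', h4'⟩ := one_more h1 (k := l) (by omega)
    refine ⟨d', l+1, h1', fun j hj => ?_, ?_, ?_⟩
    · rw [h3' j (by omega), h3 j (by omega)]
    · intro he
      rw [he, hc l (by omega)] at h4'
      exact Bool.noConfusion h4'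
    · rw [h2', h2]; exact hv

lemma realA' (W : Wt ψ ma mb) {c : Cs} {m : ℕ} (hc : Sup c m) (M : ℕ) :
    ∃ d n, Sup d n ∧ (∀ k < M, d k = c k) ∧ d ≠ c ∧ ψ (st d n) = ma (st c m) := by
  obtain ⟨v1, v2, v3⟩ := st_valid c m
  exact real_aux hc _ (fun N => W.realA _ _ _ N v1 v2) M

lemma realB' (W : Wt ψ ma mb) {c : Cs} {m : ℕ} (hc : Sup c m) (M : ℕ) :
    ∃ d n, Sup d n ∧ (∀ k < M, d k = c k) ∧ d ≠ c ∧ ψ (st d n) = mb (st c m) := by
  obtain ⟨v1, v2, v3⟩ := st_valid c m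
  exact real_aux hc _ (fun N => W.realB _ _ _ N v1 v2) M

lemma real0 (W : Wt ψ ma mb) {c : Cs} {m : ℕ} (hc : Sup c m) (M : ℕ) {ε : ℝ} (hε : 0 < ε) :
    ∃ d n, Sup d n ∧ (∀ k < M, d k = c k) ∧ d ≠ c ∧ ψ (st d n) < ε := by
  obtain ⟨N, hN⟩ := exists_small hε
  set k := max (max m M) N with hk
  have h1 : m ≤ k := (le_max_left _ _).trans (le_max_left _ _)
  have h2 : M ≤ k := (le_max_right _ _).trans (le_max_left _ _)
  have h3 : N ≤ k := le_max_right _ _
  obtain ⟨d, a1, a2, a3, a4⟩ := one_more hc h1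
  obtain ⟨d', b1, b2, b3, b4⟩ := one_more a1 (k := k+1) le_rfl
  obtain ⟨d'', c1, c2, c3, c4⟩ := one_more b1 (k := k+2) le_rfl
  refine ⟨d'', k+2+1, c1, ?_, ?_, ?_⟩
  · intro j hj
    rw [c3 j (by omega), b3 j (by omega), a3 j (by omega)]
  · intro he
    rw [he, hc (k+2) (by omega)] at c4
    exact Bool.noConfusion c4
  · rw [c2, b2, a2]
    simp only
    exact lt_of_le_of_lt (W.bound (k+3) (k+1+3) (k+2+3) (by omega) (by omega)) (hN _ (by omega))

/-- piecewise linear order isomorphisms of the line -/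
lemma bump {δ x y : ℝ} (hx : δ < x) (hy : δ < y) : ∃ G : ℝ ≃o ℝ, (∀ s, s ≤ δ → G s = s) ∧ G x = y := by
  set k := (y - δ) / (x - δ) with hk
  have hk0 : 0 < k := div_pos (by linarith) (by linarith)
  set f : ℝ → ℝ := fun s => min s δ + max (s - δ) 0 * k with hf
  have hmono : StrictMono f := by
    intro a b hab
    simp only [hf]
    rcases le_total a δ with h1 | h1 <;> rcases le_total b δ with h2 | h2
    · rw [min_eq_left h1, min_eq_left h2, max_eq_right (by linarith), max_eq_right (by linarith)]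
      linarith
    · rw [min_eq_left h1, min_eq_right h2, max_eq_right (by linarith), max_eq_left (by linarith)]
      rcases eq_or_lt_of_le h2 with h3 | h3
      · nlinarith
      · nlinarith [mul_pos (sub_pos.2 h3) hk0]
    · linarith
    · rw [min_eq_right h1, min_eq_right h2, max_eq_left (by linarith), max_eq_left (by linarith)]
      nlinarith
  have hsurj : Function.Surjective f := by
    intro t
    rcases le_total t δ with h | h
    · refine ⟨t, ?_⟩
      simp only [hf]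
      rw [min_eq_left h, max_eq_right (by linarith)]; ring
    · refine ⟨δ + (t - δ) / k, ?_⟩
      have h1 : 0 ≤ (t - δ) / k := div_nonneg (by linarith) hk0.le
      simp only [hf]
      rw [min_eq_right (by linarith), max_eq_left (by linarith)]
      field_simp
      ring
  refine ⟨hmono.orderIsoOfSurjective f hsurj, ?_, ?_⟩
  · intro s hs
    show f s = s
    simp only [hf]
    rw [min_eq_left hs, max_eq_right (by linarith)]; ring
  · show f x = y
    simp only [hf]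
    rw [min_eq_right hx.le, max_eq_left (by linarith), hk]
    have : x - δ ≠ 0 := by linarith
    field_simp
    ring

lemma bump3 {δ x₁ x₂ x₃ y₁ y₂ y₃ : ℝ} (hx₁ : δ < x₁) (hx₂ : x₁ < x₂) (hx₃ : x₂ < x₃)
    (hy₁ : δ < y₁) (hy₂ : y₁ < y₂) (hy₃ : y₂ < y₃) :
    ∃ G : ℝ ≃o ℝ, (∀ s, s ≤ δ → G s = s) ∧ G x₁ = y₁ ∧ G x₂ = y₂ ∧ G x₃ = y₃ := by
  obtain ⟨G₁, a1, a2⟩ := bump hx₁ hy₁
  have h1 : y₁ < G₁ x₂ := by rw [← a2]; exact G₁.strictMono hx₂
  obtain ⟨G₂, b1, b2⟩ := bump h1 hy₂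
  have h2 : y₂ < G₂ (G₁ x₃) := by rw [← b2]; exact G₂.strictMono (G₁.strictMono hx₃)
  obtain ⟨G₃, c1, c2⟩ := bump h2 hy₃
  refine ⟨(G₁.trans G₂).trans G₃, ?_, ?_, ?_, ?_⟩
  · intro s hs
    simp only [OrderIso.trans_apply]
    rw [a1 s hs, b1 s (by linarith), c1 s (by linarith)]
  · simp only [OrderIso.trans_apply]
    rw [a2, b1 _ le_rfl, c1 _ hy₂.le]
  · simp only [OrderIso.trans_apply]
    rw [b2, c1 _ le_rfl]
  · simp only [OrderIso.trans_apply]
    rw [c2]

/-- The set `{0, 1/3, 2/3}`. -/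
noncomputable def Z3 : Set unitInterval :=
  {⟨0, by norm_num, by norm_num⟩, ⟨1/3, by norm_num, by norm_num⟩, ⟨2/3, by norm_num, by norm_num⟩}

theorem isEPG (W : Wt ψ ma mb) : IsEPG (top (good W)) Z3 := by
  intro B e he hB
  rw [endpoint_iff' W] at he
  obtain ⟨c, m, hc, rfl⟩ := he
  obtain ⟨v1, v2, v3⟩ := st_valid c m
  set ℓ := ψ (st c m) with hℓ
  have hℓ0 : 0 < ℓ := W.pos _
  have hma : 0 < ma (st c m) := W.ma_pos _ _ _ v1 v2
  have hmab : ma (st c m) < mb (st c m) := W.ma_lt _ _ _ v1 v2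
  have hmbl : mb (st c m) < ℓ := W.mb_lt _ _ _ v1 v2
  obtain ⟨G, g0, g1, g2, g3⟩ := bump3 (δ := 0) (x₁ := 1/3) (x₂ := 2/3) (x₃ := 1)
    (by norm_num) (by norm_num) (by norm_num) hma hmab hmbl
  have hG0 : G 0 = 0 := g0 0 le_rfl
  have hBe := arc_unique (good W) hℓ0 (tip_mem W hc) hB
  have hmem : ∀ t : unitInterval, (c, G t) ∈ KK ψ := by
    intro t
    rw [mem_iff_sup W hc]
    constructor
    · rw [← hG0]; exact G.monotone t.2.1
    · rw [← hℓ, ← g3]; exact G.monotone t.2.2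
  set f : unitInterval → Fan (KK ψ) := fun t => pt c (G t) (hmem t) with hf
  have hfc : Continuous f := by
    apply Continuous.subtype_mk
    apply pr_cont.comp
    exact continuous_const.prodMk (G.continuous.comp continuous_subtype_val)
  have hfi : Function.Injective f := by
    intro t t' h
    have h1 : pr (c, G t) = pr (c, G t') := congrArg Subtype.val h
    exact Subtype.ext (G.injective (pr_snd_eq h1))
  have hfr : Set.range f = B := by
    rw [hBe]
    ext p
    constructor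
    · rintro ⟨t, rfl⟩
      have := (mem_iff_sup W hc).1 (hmem t)
      exact ⟨G t, ⟨this.1, this.2⟩, rfl⟩
    · rintro ⟨u, ⟨hu0, hu1⟩, hup⟩
      have h1 : (0:ℝ) ≤ G.symm u := by
        rw [← G.le_iff_le, hG0, G.apply_symm_apply]; exact hu0
      have h2 : G.symm u ≤ 1 := by
        rw [← G.le_iff_le, g3, G.apply_symm_apply]; exact hu1
      refine ⟨⟨G.symm u, h1, h2⟩, ?_⟩
      apply Subtype.ext
      rw [← hup]
      show pr (c, G (G.symm u)) = pr (c, u)
      rw [G.apply_symm_apply]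
  have hemb : IsEmbedding f := (hfc.isClosedEmbedding hfi).isEmbedding
  refine ⟨hemb.toHomeomorph.trans (Homeomorph.setCongr hfr), ?_, ?_, ?_⟩
  · show f 0 = top (good W)
    rw [← pt_zero (good W) c]
    apply Subtype.ext
    show pr (c, G 0) = pr (c, 0)
    rw [hG0]
  · apply Subtype.ext
    show pr (c, G 1) = pr (c, ℓ)
    rw [g3]
  · have hcoe : (fun z => (((hemb.toHomeomorph.trans (Homeomorph.setCongr hfr)) z : B) : Fan (KK ψ))) = f :=
      rfl
    rw [hcoe]
    have ma_mem : (c, ma (st c m)) ∈ KK ψ := (mem_iff_sup W hc).2 ⟨hma.le, (hmab.trans hmbl).le⟩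
    have mb_mem : (c, mb (st c m)) ∈ KK ψ := (mem_iff_sup W hc).2 ⟨(hma.trans hmab).le, hmbl.le⟩
    -- closure membership helper
    have hcl : ∀ (s : ℝ) (h : (c, s) ∈ KK ψ),
        (∀ M ε, 0 < ε → ∃ d n, Sup d n ∧ (∀ k < M, d k = c k) ∧ d ≠ c ∧ |ψ (st d n) - s| < ε) →
        pt c s h ∈ closure ({e' : Fan (KK ψ) | IsEndpoint e'} \ B) := by
      intro s h hreal
      rw [mem_closure_iff_nhds]
      intro U hU
      obtain ⟨M, ε, hε, hMU⟩ := approx hU
      obtain ⟨d, n, hd, h1, h2, h3⟩ := hreal M ε hε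
      refine ⟨pt d (ψ (st d n)) (tip_mem W hd), hMU _ _ _ h1 h3, ?_, ?_⟩
      · exact (endpoint_iff' W _).2 ⟨d, n, hd, rfl⟩
      · rw [hBe]
        rintro ⟨u, _, hu⟩
        have h4 : pr (c, u) = pr (d, ψ (st d n)) := hu
        have := pr_inj h4.symm (ne_of_gt (W.pos _))
        exact h2 (congrArg Prod.fst this)
    have hinB : ∀ (s : ℝ) (h : (c, s) ∈ KK ψ), pt c s h ∈ B := by
      intro s h
      rw [hBe]
      exact ⟨s, (mem_iff_sup W hc).1 h, rfl⟩
    apply subset_antisymm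
    · rintro _ ⟨z, hz, rfl⟩
      rcases hz with rfl | rfl | rfl
      · refine ⟨hinB _ _, hcl _ _ ?_⟩
        intro M ε hε
        obtain ⟨d, n, h1, h2, h3, h4⟩ := real0 W hc M hε
        refine ⟨d, n, h1, h2, h3, ?_⟩
        simp only
        rw [hG0, sub_zero, abs_of_pos (W.pos _)]
        exact h4
      · refine ⟨hinB _ _, hcl _ _ ?_⟩
        intro M ε hε
        obtain ⟨d, n, h1, h2, h3, h4⟩ := realA' W hc M
        refine ⟨d, n, h1, h2, h3, ?_⟩
        simp only
        rw [g1, h4]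
        simpa using hε
      · refine ⟨hinB _ _, hcl _ _ ?_⟩
        intro M ε hε
        obtain ⟨d, n, h1, h2, h3, h4⟩ := realB' W hc M
        refine ⟨d, n, h1, h2, h3, ?_⟩
        simp only
        rw [g2, h4]
        simpa using hε
    · rintro p ⟨hpB, hpc⟩
      rw [hBe] at hpB
      obtain ⟨s, ⟨hs0, hs1⟩, hp⟩ := hpB
      have hsK : (c, s) ∈ KK ψ := (mem_iff_sup W hc).2 ⟨hs0, hs1⟩
      have hpe : p = pt c s hsK := Subtype.ext hp.symm
      subst hpe
      rcases hs0.eq_or_lt with h0 | h0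
      · refine ⟨⟨0, by norm_num, by norm_num⟩, Or.inl rfl, ?_⟩
        apply Subtype.ext
        show pr (c, G 0) = pr (c, s)
        rw [hG0, h0]
      · by_cases h1 : s = ma (st c m)
        · refine ⟨⟨1/3, by norm_num, by norm_num⟩, Or.inr (Or.inl rfl), ?_⟩
          apply Subtype.ext
          show pr (c, G (1/3)) = pr (c, s)
          rw [g1, h1]
        · by_cases h2 : s = mb (st c m)
          · refine ⟨⟨2/3, by norm_num, by norm_num⟩, Or.inr (Or.inr rfl), ?_⟩
            apply Subtype.ext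
            show pr (c, G (2/3)) = pr (c, s)
            rw [g2, h2]
          · exfalso
            obtain ⟨U, hU, hUe⟩ := acc_of W hc h0 hsK h1 h2
            rw [mem_closure_iff_nhds] at hpc
            obtain ⟨x, hxU, hxE, hxB⟩ := hpc U hU
            obtain ⟨d, n, hd, rfl⟩ := (endpoint_iff' W x).1 hxE
            have := hUe d n hd hxU
            subst this
            exact hxB (hinB _ _)

end Pool.Agent.H545R3.Fan
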