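import Pool.Agent.H545R3.FanEPG

set_option autoImplicit false
set_option linter.unusedVariables false
set_option linter.unusedSectionVars false
set_option linter.dupNamespace false
set_option linter.unusedSimpArgs false

namespace Pool.Agent.H545R3.Fan

open Set Topology Filter

lemma qpow_lt {a b : ℕ} (h : a < b) : ((1:ℝ)/4) ^ b < (1/4) ^ a :=
  pow_lt_pow_right_of_lt_one₀ (by norm_num) (by norm_num) h

lemma qpow_le {a b : ℕ} (h : a ≤ b) : ((1:ℝ)/4) ^ b ≤ (1/4) ^ a :=
  pow_le_pow_of_le_one (by norm_num) (by norm_num) h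

lemma qpow_pos (a : ℕ) : 0 < ((1:ℝ)/4) ^ a := by positivity

lemma qpow_lt' {a b : ℕ} (h : a < b) : 4 * ((1:ℝ)/4) ^ b ≤ (1/4) ^ a := by
  have h1 := qpow_le (show a + 1 ≤ b from h)
  rw [pow_succ] at h1
  linarith

/-- weight of the second fan -/
noncomputable def psi2 (p : St) : ℝ := (1/4) ^ p.1
noncomputable def mA (p : St) : ℝ := (1/4) ^ p.2.2
noncomputable def mB2 (p : St) : ℝ := (1/4) ^ p.2.1

noncomputable def cf (n : ℕ) : ℝ := if Even n then 1 else 2

lemma cf_or (n : ℕ) : cf n = 1 ∨ cf n = 2 := by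
  unfold cf; split_ifs <;> simp

lemma cf_ge (n : ℕ) : 1 ≤ cf n := by
  rcases cf_or n with h | h <;> rw [h] <;> norm_num

lemma cf_le (n : ℕ) : cf n ≤ 2 := by
  rcases cf_or n with h | h <;> rw [h] <;> norm_num

/-- weight of the first fan -/
noncomputable def psi1 (p : St) : ℝ := cf p.2.2 * (1/4) ^ p.2.1
noncomputable def mB1 (p : St) : ℝ := 2 * (1/4) ^ p.2.2

lemma wt2 : Wt psi2 mA mB2 where
  pos := fun p => qpow_pos _
  anti := fun x y z w h1 h2 h3 => qpow_le h1.le
  bound := fun x y z h1 h2 => by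
    have := qpow_pos x
    simp only [psi2]; linarith
  ma_pos := fun x y z h1 h2 => qpow_pos _
  ma_lt := fun x y z h1 h2 => qpow_lt h2
  mb_lt := fun x y z h1 h2 => qpow_lt h1
  acc1 := fun x y z q h1 h2 h3 => Or.inr rfl
  acc2 := fun x y z q r h1 h2 h3 h4 => Or.inl rfl
  realA := fun x y z N h1 h2 => Or.inr ⟨N, N+1, le_rfl, by omega, rfl⟩
  realB := fun x y z N h1 h2 => Or.inl ⟨N, le_rfl, rfl⟩
  homog := by
    intro m x y z x' y' z' h1 h2 h3 h1' h2' h3'
    obtain ⟨G, g0, g1, g2, g3⟩ := bump3 (qpow_lt h3) (qpow_lt h2) (qpow_lt h1)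
      (qpow_lt h3') (qpow_lt h2') (qpow_lt h1')
    refine ⟨G, g0 0 (qpow_pos _).le, g3, fun q hq => g2, fun q r hq hr => g1, ?_⟩
    intro p q r hp hq hr
    exact g0 _ (qpow_le hp)

lemma wt1 : Wt psi1 mA mB1 where
  pos := fun p => by
    have := cf_ge p.2.2
    have := qpow_pos p.2.1
    simp only [psi1]; positivity
  anti := fun x y z w h1 h2 h3 => by
    simp only [psi1]
    have a1 := cf_le w
    have a2 := cf_ge z
    have a3 := qpow_pos z
    have a4 := qpow_pos y
    have a5 := qpow_lt' h2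
    nlinarith
  bound := fun x y z h1 h2 => by
    simp only [psi1]
    have a1 := cf_le z
    have a3 := qpow_pos y
    have a5 := qpow_le h1.le
    nlinarith
  ma_pos := fun x y z h1 h2 => qpow_pos _
  ma_lt := fun x y z h1 h2 => by
    simp only [mA, mB1]
    have := qpow_pos z
    linarith
  mb_lt := fun x y z h1 h2 => by
    simp only [psi1, mB1]
    have a2 := cf_ge z
    have a3 := qpow_pos z
    have a4 := qpow_pos y
    have a5 := qpow_lt' h2
    nlinarith
  acc1 := fun x y z q h1 h2 h3 => by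
    simp only [psi1, mA, mB1]
    rcases cf_or q with h | h
    · left; rw [h, one_mul]
    · right; rw [h]
  acc2 := fun x y z q r h1 h2 h3 h4 => by
    right; right
    simp only [psi1]
    have a1 := cf_le r
    have a3 := qpow_pos q
    nlinarith
  realA := fun x y z N h1 h2 => Or.inl ⟨2 * N, by omega, by
    simp only [psi1, mA]
    have : cf (2 * N) = 1 := by unfold cf; rw [if_pos (even_two_mul N)]
    rw [this, one_mul]⟩
  realB := fun x y z N h1 h2 => Or.inl ⟨2 * N + 1, by omega, by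
    simp only [psi1, mB1]
    have : cf (2 * N + 1) = 2 := by
      unfold cf
      rw [if_neg]
      rw [Nat.not_even_iff_odd]
      exact odd_two_mul_add_one N
    rw [this]⟩
  homog := by
    intro m x y z x' y' z' h1 h2 h3 h1' h2' h3'
    have key : ∀ x y z, x < y → y < z → z < m + 3 → 2 * ((1:ℝ)/4) ^ (m+3) < (1/4)^z ∧
        ((1:ℝ)/4)^z < 2 * (1/4)^z ∧ 2 * ((1:ℝ)/4)^z < cf z * (1/4)^y := by
      intro x y z h1 h2 h3
      have a1 := cf_ge z
      have a2 := qpow_pos z
      have a3 := qpow_pos y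
      have a4 := qpow_pos (m+3)
      have a5 := qpow_lt' h2
      have a6 := qpow_lt' h3
      refine ⟨by linarith, by linarith, by nlinarith⟩
    obtain ⟨b1, b2, b3⟩ := key x y z h1 h2 h3
    obtain ⟨c1, c2, c3⟩ := key x' y' z' h1' h2' h3'
    obtain ⟨G, g0, g1, g2, g3⟩ := bump3 b1 b2 b3 c1 c2 c3
    have small : ∀ q r, m + 3 ≤ q → cf r * ((1:ℝ)/4)^q ≤ 2 * (1/4)^(m+3) := by
      intro q r hq
      have d1 := cf_le r
      have d2 := qpow_le hq
      have d3 := qpow_pos q
      nlinarith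
    refine ⟨G, g0 0 (by positivity), g3, ?_, ?_, ?_⟩
    · intro q hq
      simp only [psi1]
      rcases cf_or q with h | h
      · rw [h, one_mul, one_mul]; exact g1
      · rw [h]; exact g2
    · intro q r hq hr
      simp only [psi1]
      exact g0 _ (small q r hq)
    · intro p q r hp hq hr
      simp only [psi1]
      exact g0 _ (small q r (by omega))

/-- derived set -/
def Dv {X : Type*} [TopologicalSpace X] (A : Set X) : Set X :=
  {x | ∀ U ∈ 𝓝 x, ∃ y ∈ U, y ∈ A ∧ y ≠ x}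

lemma Dv_homeo {X Y : Type*} [TopologicalSpace X] [TopologicalSpace Y] (h : X ≃ₜ Y) {A : Set X}
    {B : Set Y} (hAB : ∀ x, h x ∈ B ↔ x ∈ A) (x : X) : h x ∈ Dv B ↔ x ∈ Dv A := by
  constructor
  · intro hx U hU
    obtain ⟨y, hy, hyB, hyx⟩ := hx (h '' U) (h.isOpenMap.image_mem_nhds hU)
    obtain ⟨u, hu, rfl⟩ := hy
    exact ⟨u, hu, (hAB u).1 hyB, fun he => hyx (by rw [he])⟩
  · intro hx U hU
    obtain ⟨y, hy, hyA, hyx⟩ := hx (h ⁻¹' U) (h.continuous.continuousAt.preimage_mem_nhds hU)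
    exact ⟨h y, hy, (hAB y).2 hyA, fun he => hyx (h.injective he)⟩

lemma isArc_image {X Y : Type*} [TopologicalSpace X] [TopologicalSpace Y] (h : X ≃ₜ Y) {A : Set X}
    {x y : X} (hA : IsArc A x y) : IsArc (h '' A) (h x) (h y) := by
  obtain ⟨f, hf, hfi, hf0, hf1, hfr⟩ := hA
  exact ⟨h ∘ f, h.continuous.comp hf, h.injective.comp hfi, by simp [hf0], by simp [hf1],
    by rw [range_comp, hfr]⟩

lemma endpoint_image {X Y : Type*} [TopologicalSpace X] [TopologicalSpace Y] (h : X ≃ₜ Y) {x : X}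
    (hx : IsEndpoint x) : IsEndpoint (h x) := by
  intro A a b hA hxA
  have h1 := isArc_image h.symm hA
  rcases hx _ _ _ h1 ⟨h x, hxA, by simp⟩ with h2 | h2
  · left; rw [h2]; simp
  · right; rw [h2]; simp

lemma endpoint_homeo {X Y : Type*} [TopologicalSpace X] [TopologicalSpace Y] (h : X ≃ₜ Y) (x : X) :
    IsEndpoint (h x) ↔ IsEndpoint x := by
  constructor
  · intro hx
    have := endpoint_image h.symm hx
    simpa using this
  · exact endpoint_image h

variable {ψ ma mb : St → ℝ}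

/-- The set of endpoints. -/
def EE (ψ : St → ℝ) : Set (Fan (KK ψ)) := {e | IsEndpoint e}

lemma ma_mem (W : Wt ψ ma mb) {c : Cs} {m : ℕ} (hc : Sup c m) : (c, ma (st c m)) ∈ KK ψ := by
  obtain ⟨v1, v2, v3⟩ := st_valid c m
  exact (mem_iff_sup W hc).2 ⟨(W.ma_pos _ _ _ v1 v2).le,
    ((W.ma_lt _ _ _ v1 v2).trans (W.mb_lt _ _ _ v1 v2)).le⟩

lemma mb_mem (W : Wt ψ ma mb) {c : Cs} {m : ℕ} (hc : Sup c m) : (c, mb (st c m)) ∈ KK ψ := by
  obtain ⟨v1, v2, v3⟩ := st_valid c m
  exact (mem_iff_sup W hc).2 ⟨((W.ma_pos _ _ _ v1 v2).trans (W.ma_lt _ _ _ v1 v2)).le,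
    (W.mb_lt _ _ _ v1 v2).le⟩

lemma Dv_ma (W : Wt ψ ma mb) {c : Cs} {m : ℕ} (hc : Sup c m) :
    pt c (ma (st c m)) (ma_mem W hc) ∈ Dv (EE ψ) := by
  intro U hU
  obtain ⟨M, ε, hε, hM⟩ := approx hU
  obtain ⟨d, n, h1, h2, h3, h4⟩ := realA' W hc M
  refine ⟨pt d (ψ (st d n)) (tip_mem W h1), hM _ _ _ h2 (by rw [h4]; simpa using hε),
    (endpoint_iff' W _).2 ⟨d, n, h1, rfl⟩, ?_⟩
  intro he
  exact h3 (pt_inj (W.pos _).ne' he).1

lemma Dv_mb (W : Wt ψ ma mb) {c : Cs} {m : ℕ} (hc : Sup c m) :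
    pt c (mb (st c m)) (mb_mem W hc) ∈ Dv (EE ψ) := by
  intro U hU
  obtain ⟨M, ε, hε, hM⟩ := approx hU
  obtain ⟨d, n, h1, h2, h3, h4⟩ := realB' W hc M
  refine ⟨pt d (ψ (st d n)) (tip_mem W h1), hM _ _ _ h2 (by rw [h4]; simpa using hε),
    (endpoint_iff' W _).2 ⟨d, n, h1, rfl⟩, ?_⟩
  intro he
  exact h3 (pt_inj (W.pos _).ne' he).1

lemma Dv_sub (W : Wt ψ ma mb) {c : Cs} {s : ℝ} (hs : 0 < s) {h : (c, s) ∈ KK ψ}
    (hx : pt c s h ∈ Dv (EE ψ)) : ∃ m, Sup c m ∧ (s = ma (st c m) ∨ s = mb (st c m)) := by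
  obtain ⟨m, hc⟩ := sup_of_mem W h hs
  refine ⟨m, hc, ?_⟩
  by_contra hcon
  rw [not_or] at hcon
  obtain ⟨U, hU, hUe⟩ := acc_of W hc hs h hcon.1 hcon.2
  by_cases hst : s = ψ (st c m)
  · obtain ⟨y, hy, hyE, hyx⟩ := hx U hU
    obtain ⟨d, n, hd, rfl⟩ := (endpoint_iff' W y).1 hyE
    have := hUe d n hd hy
    subst this
    apply hyx
    have h1 : ψ (st d n) = s := by
      rw [hst]
      rcases le_total m n with h2 | h2
      · rw [st_const hc h2]
      · rw [← st_const hd h2]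
    apply Subtype.ext
    show pr (d, ψ (st d n)) = pr (d, s)
    rw [h1]
  · -- shrink so that the tip of `c` itself is excluded
    obtain ⟨V, hV, hVe⟩ := nbhd (good W) (h := h) hs 0 (abs_pos.2 (sub_ne_zero.2 (Ne.symm hst)))
    obtain ⟨y, hy, hyE, hyx⟩ := hx (U ∩ V) (inter_mem hU hV)
    obtain ⟨d, n, hd, rfl⟩ := (endpoint_iff' W y).1 hyE
    have := hUe d n hd hy.1
    subst this
    have h1 : ψ (st d n) = ψ (st d m) := by
      rcases le_total m n with h2 | h2
      · rw [st_const hc h2]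
      · rw [← st_const hd h2]
    have h2 := (hVe _ _ _ hy.2).2
    rw [h1] at h2
    exact lt_irrefl _ h2

/-- In the first fan the second derived set of the set of endpoints is contained in `{top}`. -/
lemma DD1 {x : Fan (KK psi1)} (hx : x ∈ Dv (Dv (EE psi1))) : x = top (good wt1) := by
  obtain ⟨c, s, h, hs, rfl⟩ := repr (good wt1) x
  rcases hs.eq_or_lt with h0 | h0
  · subst h0; exact pt_zero _ _
  · exfalso
    obtain ⟨m, hc⟩ := sup_of_mem wt1 h h0
    obtain ⟨N, hN⟩ := exists_small (show (0:ℝ) < s / 2 by linarith)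
    set M := max m N with hM
    -- the two marks of `c`
    set a := mA (st c m) with ha
    set b := mB1 (st c m) with hb
    set ε₁ := if s = a then s / 2 else |a - s| with hε₁
    set ε₂ := if s = b then s / 2 else |b - s| with hε₂
    have e1 : 0 < ε₁ := by
      rw [hε₁]; split_ifs with h1
      · linarith
      · exact abs_pos.2 (sub_ne_zero.2 (Ne.symm h1))
    have e2 : 0 < ε₂ := by
      rw [hε₂]; split_ifs with h1
      · linarith
      · exact abs_pos.2 (sub_ne_zero.2 (Ne.symm h1))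
    set ε := min (min ε₁ ε₂) (s / 2) with hε
    have e0 : 0 < ε := lt_min (lt_min e1 e2) (by linarith)
    obtain ⟨U, hU, hUe⟩ := nbhd (good wt1) (h := h) h0 M e0
    obtain ⟨y, hy, hyD, hyx⟩ := hx U hU
    obtain ⟨d, u, h', hu, rfl⟩ := repr (good wt1) y
    obtain ⟨h1, h2⟩ := hUe _ _ _ hy
    have hu2 : s / 2 < u := by
      have := h2.trans_le (min_le_right _ _)
      rw [abs_lt] at this
      linarith [this.1]
    obtain ⟨n, hd, hmk⟩ := Dv_sub wt1 (by linarith) hyD
    -- `d = c`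
    have hdc : d = c := by
      by_contra hne
      set n' := max n M with hn'
      have hst : st d n = st d n' := (st_const hd (le_max_left _ _)).symm
      have hz : M + 3 ≤ (st d n).2.2 := by
        rw [hst]
        rcases inv d d M (fun _ _ => rfl) n' (le_max_right _ _) with ⟨h3, _, _⟩ |
          ⟨q, h3, h4, h5, _⟩ | ⟨q, r, h3, h4, h5, h6, _⟩ | ⟨p, q, r, h3, h4, h5, h6, h7, _⟩
        · exact absurd (sup_ext hc (le_max_left _ _) h1 h3 (sup_mono hd (le_max_left _ _))) hne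
        · rw [h5]; exact h3
        · rw [h6]; simp only; omega
        · rw [h7]; simp only; omega
      have h3 : u ≤ 2 * (1/4) ^ (st d n).2.2 := by
        have := qpow_pos (st d n).2.2
        rcases hmk with h4 | h4
        · rw [h4]; simp only [mA]; linarith
        · rw [h4]; simp only [mB1]; exact le_rfl
      have h4 := hN (st d n).2.2 (by have := le_max_right m N; omega)
      linarith
    subst hdc
    have hsteq : st d n = st d m := by
      rcases le_total m n with h3 | h3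
      · rw [st_const hc h3]
      · rw [← st_const hd h3]
    rw [hsteq] at hmk
    have hus : u ≠ s := by
      rintro rfl
      exact hyx rfl
    rcases hmk with h3 | h3
    · have h4 : s ≠ a := by
        intro h5
        apply hus
        rw [h3, h5]
      have h5 := h2.trans_le ((min_le_left _ _).trans (min_le_left _ _))
      rw [hε₁, if_neg h4, h3] at h5
      exact lt_irrefl _ h5
    · have h4 : s ≠ b := by
        intro h5
        apply hus
        rw [h3, h5]
      have h5 := h2.trans_le ((min_le_left _ _).trans (min_le_right _ _))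
      rw [hε₂, if_neg h4, h3] at h5
      exact lt_irrefl _ h5

/-- In the second fan the lower marks belong to the second derived set of the endpoint set. -/
lemma DD2 {c : Cs} {m : ℕ} (hc : Sup c m) :
    pt c (mA (st c m)) (ma_mem wt2 hc) ∈ Dv (Dv (EE psi2)) := by
  intro U hU
  obtain ⟨M, ε, hε, hM⟩ := approx hU
  obtain ⟨d, h1, h2, h3, h4⟩ := one_more hc (k := max m M) (le_max_left _ _)
  have h5 : mB2 (st d (max m M + 1)) = mA (st c m) := by
    rw [h2]; rfl
  refine ⟨pt d (mB2 (st d (max m M + 1))) (mb_mem wt2 h1), hM _ _ _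
    (fun k hk => h3 k (hk.trans_le (le_max_right _ _))) (by rw [h5]; simpa using hε),
    Dv_mb wt2 h1, ?_⟩
  intro he
  obtain ⟨v1, v2, v3⟩ := st_valid d (max m M + 1)
  have h6 := (pt_inj ((wt2.ma_pos _ _ _ v1 v2).trans (wt2.ma_lt _ _ _ v1 v2)).ne' he).1
  rw [h6, hc _ (le_max_left _ _)] at h4
  exact Bool.noConfusion h4

theorem not_homeo : ¬ Nonempty (Fan (KK psi1) ≃ₜ Fan (KK psi2)) := by
  rintro ⟨h⟩
  have hE : ∀ x, h x ∈ EE psi2 ↔ x ∈ EE psi1 := fun x => endpoint_homeo h x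
  have hD := Dv_homeo h hE
  have hDD := Dv_homeo h hD
  have key : ∀ y ∈ Dv (Dv (EE psi2)), y = h (top (good wt1)) := by
    intro y hy
    have h1 : h.symm y ∈ Dv (Dv (EE psi1)) := by
      rw [← hDD]
      simpa using hy
    have := DD1 h1
    rw [← this]; simp
  have s1 : Sup z0 0 := fun n _ => rfl
  have s2 : Sup (Function.update z0 0 true) 1 := by
    intro n hn
    rw [Function.update_of_ne (by omega)]; rfl
  have e1 := key _ (DD2 s1)
  have e2 := key _ (DD2 s2)
  have e3 := e1.trans e2.symm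
  obtain ⟨v1, v2, v3⟩ := st_valid z0 0
  have := (pt_inj (wt2.ma_pos _ _ _ v1 v2).ne' e3).1
  have h2 := congrFun this 0
  simp [z0] at h2

/-- The disproof. -/
theorem main : ∃ (Z : Set unitInterval), Z.Nonempty ∧ ∃ (F G : Set (ℝ × ℝ)) (tF : F) (tG : G),
    IsFan F tF ∧ IsFan G tG ∧ IsSmooth tF ∧ IsSmooth tG ∧
    EndpointHomogeneous F ∧ EndpointHomogeneous G ∧ IsEPG tF Z ∧ IsEPG tG Z ∧
    ¬ Nonempty (F ≃ₜ G) :=
  ⟨Z3, ⟨_, Or.inl rfl⟩, Fan (KK psi1), Fan (KK psi2), top (good wt1), top (good wt2),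
    isFan _, isFan _, isSmooth _, isSmooth _, endpointHomogeneous wt1, endpointHomogeneous wt2,
    isEPG wt1, isEPG wt2, not_homeo⟩

end Pool.Agent.H545R3.Fan
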