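import Pool.Agent.H545R3.FanDefs

set_option autoImplicit false
set_option linter.unusedVariables false
set_option linter.unusedSectionVars false

namespace Pool.Agent.H545R3.Fan

open Set Topology Filter

/-- Cantor space. -/
abbrev Cs := ℕ → Bool

/-- An embedding of Cantor space in the line. -/
noncomputable def xc (c : Cs) : ℝ := Cardinal.cantorFunction (1/3) c

lemma xc_inj : Function.Injective xc :=
  Cardinal.cantorFunction_injective (by norm_num) (by norm_num)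

lemma xc_cont : Continuous xc := by
  unfold xc Cardinal.cantorFunction
  apply continuous_tsum (u := fun n => (1/3:ℝ)^n)
  · intro n
    have : Continuous (fun c : Cs => c n) := continuous_apply n
    exact (continuous_of_discreteTopology (f := fun b : Bool => cond b ((1/3:ℝ)^n) 0)).comp this
  · exact summable_geometric_of_lt_one (by norm_num) (by norm_num)
  · intro n c
    unfold Cardinal.cantorFunctionAux
    cases c n <;> simp

/-- The point at level `s` over `c` in the cone over Cantor space. -/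
noncomputable def pr (q : Cs × ℝ) : ℝ × ℝ := (q.2 * xc q.1, q.2)

lemma pr_cont : Continuous pr := by
  unfold pr
  exact (continuous_snd.mul (xc_cont.comp continuous_fst)).prodMk continuous_snd

lemma pr_zero (c : Cs) : pr (c, 0) = (0, 0) := by simp [pr]

lemma pr_inj {q q' : Cs × ℝ} (h : pr q = pr q') (h0 : q.2 ≠ 0) : q = q' := by
  unfold pr at h
  rw [Prod.mk.injEq] at h
  obtain ⟨h1, h2⟩ := h
  rw [← h2] at h1
  have h3 := mul_left_cancel₀ h0 h1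
  exact Prod.ext (xc_inj h3) h2

lemma pr_snd_eq {q q' : Cs × ℝ} (h : pr q = pr q') : q.2 = q'.2 := (Prod.ext_iff.1 h).2

/-- Admissible subsets of the cylinder over Cantor space. -/
structure Good (K : Set (Cs × ℝ)) : Prop where
  comp : IsCompact K
  nonneg : ∀ q ∈ K, 0 ≤ q.2
  down : ∀ c s s', (c, s) ∈ K → 0 ≤ s' → s' ≤ s → (c, s') ∈ K
  zero : ∀ c, (c, (0:ℝ)) ∈ K
  three : ∃ c₁ c₂ c₃ s₁ s₂ s₃, c₁ ≠ c₂ ∧ c₁ ≠ c₃ ∧ c₂ ≠ c₃ ∧ 0 < s₁ ∧ 0 < s₂ ∧ 0 < s₃ ∧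
    (c₁, s₁) ∈ K ∧ (c₂, s₂) ∈ K ∧ (c₃, s₃) ∈ K

variable {K : Set (Cs × ℝ)}

lemma sep (hK : Good K) {A : Set (ℝ × ℝ)} (hAK : A ⊆ pr '' K) (hA : IsCompact A)
    (hAc : IsPreconnected A) {V : Set Cs} (hV : IsClopen V) {u₀ : ℝ} (hu₀ : 0 ≤ u₀)
    (hVA : ∀ c ∈ V, pr (c, u₀) ∉ A) {q₁ q₂ : Cs × ℝ} (h₁ : q₁ ∈ K) (h₂ : q₂ ∈ K)
    (h₁A : pr q₁ ∈ A) (h₂A : pr q₂ ∈ A) (h₁V : q₁.1 ∈ V) (h₁u : u₀ ≤ q₁.2) :
    q₂.1 ∈ V ∧ u₀ ≤ q₂.2 := by
  by_contra hcon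
  set K' : Set (Cs × ℝ) := K ∩ pr ⁻¹' A with hK'
  have hK'c : IsCompact K' := hK.comp.inter_right (hA.isClosed.preimage pr_cont)
  set W₁ : Set (Cs × ℝ) := K' ∩ (Prod.fst ⁻¹' V ∩ {q | u₀ ≤ q.2}) with hW₁
  set W₂ : Set (Cs × ℝ) := K' ∩ (Prod.fst ⁻¹' Vᶜ ∪ {q | q.2 ≤ u₀}) with hW₂
  have hW₁c : IsCompact W₁ := hK'c.inter_right
    ((hV.isClosed.preimage continuous_fst).inter (isClosed_le continuous_const continuous_snd))
  have hW₂c : IsCompact W₂ := hK'c.inter_right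
    ((hV.compl.isClosed.preimage continuous_fst).union (isClosed_le continuous_snd continuous_const))
  have hcov : A ⊆ pr '' W₁ ∪ pr '' W₂ := by
    intro p hp
    obtain ⟨q, hq, rfl⟩ := hAK hp
    by_cases h : q.1 ∈ V ∧ u₀ ≤ q.2
    · exact Or.inl ⟨q, ⟨⟨hq, hp⟩, h⟩, rfl⟩
    · refine Or.inr ⟨q, ⟨⟨hq, hp⟩, ?_⟩, rfl⟩
      rw [not_and_or] at h
      rcases h with h | h
      · exact Or.inl h
      · exact Or.inr (le_of_lt (not_le.1 h))
  have hq₂ : q₂ ∈ W₂ := by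
    refine ⟨⟨h₂, h₂A⟩, ?_⟩
    rw [not_and_or] at hcon
    rcases hcon with h | h
    · exact Or.inl h
    · exact Or.inr (le_of_lt (not_le.1 h))
  obtain ⟨p, hpA, ⟨q, hq, hqp⟩, ⟨q', hq', hq'p⟩⟩ := (isPreconnected_closed_iff.1 hAc) _ _
    (hW₁c.image pr_cont).isClosed (hW₂c.image pr_cont).isClosed hcov
    ⟨_, h₁A, _, ⟨⟨h₁, h₁A⟩, h₁V, h₁u⟩, rfl⟩ ⟨_, h₂A, _, hq₂, rfl⟩
  have heq : pr q = pr q' := hqp.trans hq'p.symm
  have hs := pr_snd_eq heq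
  have hqA : pr q ∈ A := hq.1.2
  by_cases h0 : q.2 = 0
  · have h1 : u₀ = 0 := le_antisymm (h0 ▸ hq.2.2) hu₀
    apply hVA q.1 hq.2.1
    have : (q.1, u₀) = q := Prod.ext rfl (by rw [h1, h0])
    rw [this]; exact hqA
  · have h1 := pr_inj heq h0
    subst h1
    have h2 : q.2 ≤ u₀ := by
      rcases hq'.2 with h | h
      · exact absurd hq.2.1 h
      · exact h
    have h3 : q.2 = u₀ := le_antisymm h2 hq.2.2
    apply hVA q.1 hq.2.1
    rw [← h3]; exact hqA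

lemma exists_clopen_nhds {U : Set Cs} (hU : IsOpen U) {c : Cs} (hc : c ∈ U) :
    ∃ V, IsClopen V ∧ c ∈ V ∧ V ⊆ U := by
  obtain ⟨V, h1, h2, h3⟩ := compact_exists_isClopen_in_isOpen hU hc
  exact ⟨V, h1, h2, h3⟩

/-- A subcontinuum missing the top lies in one blade. -/
lemma one_blade (hK : Good K) {A : Set (ℝ × ℝ)} (hAK : A ⊆ pr '' K) (hA : IsCompact A)
    (hAc : IsPreconnected A) (h0 : ((0:ℝ), (0:ℝ)) ∉ A) {q₁ q₂ : Cs × ℝ} (h₁ : q₁ ∈ K) (h₂ : q₂ ∈ K)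
    (h₁A : pr q₁ ∈ A) (h₂A : pr q₂ ∈ A) : q₁.1 = q₂.1 := by
  by_contra hne
  obtain ⟨V, hV, h1V, h2V⟩ := exists_clopen_nhds (isOpen_compl_singleton (x := q₂.1))
    (c := q₁.1) hne
  have := sep hK hAK hA hAc hV le_rfl (fun c _ => by rw [pr_zero]; exact h0) h₁ h₂ h₁A h₂A h1V
    (hK.nonneg _ h₁)
  exact h2V this.1 rfl

/-- A subcontinuum containing the top is star-shaped. -/
lemma star (hK : Good K) {A : Set (ℝ × ℝ)} (hAK : A ⊆ pr '' K) (hA : IsCompact A)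
    (hAc : IsPreconnected A) (h0 : ((0:ℝ), (0:ℝ)) ∈ A) {c : Cs} {s s' : ℝ} (h : (c, s) ∈ K)
    (hcA : pr (c, s) ∈ A) (hs' : 0 ≤ s') (hss : s' ≤ s) : pr (c, s') ∈ A := by
  by_contra hcon
  have hs'0 : s' ≠ 0 := by
    rintro rfl
    rw [pr_zero] at hcon
    exact hcon h0
  have hopen : IsOpen {c' : Cs | pr (c', s') ∉ A} :=
    hA.isClosed.isOpen_compl.preimage (pr_cont.comp (Continuous.prodMk_left s'))
  obtain ⟨V, hV, h1V, h2V⟩ := exists_clopen_nhds hopen (c := c) hcon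
  have := sep hK hAK hA hAc hV hs' (fun c hc => h2V hc) (q₁ := (c, s)) (q₂ := (c, 0)) h (hK.zero c)
    hcA (by rw [pr_zero]; exact h0) h1V hss
  exact hs'0 (le_antisymm this.2 hs')

/-- slices of a subcontinuum are order-connected -/
lemma slice (hK : Good K) {A : Set (ℝ × ℝ)} (hAK : A ⊆ pr '' K) (hA : IsCompact A)
    (hAc : IsPreconnected A) {c : Cs} {s₁ s₂ u : ℝ} (h0 : 0 < s₁)
    (h₁A : pr (c, s₁) ∈ A) (h₂A : pr (c, s₂) ∈ A) (hu₁ : s₁ ≤ u) (hu₂ : u ≤ s₂) :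
    pr (c, u) ∈ A := by
  have mem : ∀ s : ℝ, 0 < s → pr (c, s) ∈ A → (c, s) ∈ K := by
    intro s hs h
    obtain ⟨q, hq, hqe⟩ := hAK h
    have := pr_inj hqe.symm (ne_of_gt hs)
    rw [this]; exact hq
  by_cases h : ((0:ℝ), (0:ℝ)) ∈ A
  · exact star hK hAK hA hAc h (mem s₂ (h0.trans_le (hu₁.trans hu₂)) h₂A) h₂A
      (h0.le.trans hu₁) hu₂
  · have hI : IsPreconnected (Prod.snd '' A) := hAc.image _ continuous_snd.continuousOn
    have := hI.ordConnected.out ⟨_, h₁A, rfl⟩ ⟨_, h₂A, rfl⟩ ⟨hu₁, hu₂⟩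
    obtain ⟨p, hp, hpu⟩ := this
    obtain ⟨q, hq, rfl⟩ := hAK hp
    have h3 := one_blade hK hAK hA hAc h hq (mem s₁ h0 h₁A) hp h₁A
    have : q = (c, u) := Prod.ext h3 hpu
    rw [← this]; exact hp

/-- direction lemma -/
lemma direction (hK : Good K) {A : Set (ℝ × ℝ)} (hAK : A ⊆ pr '' K) (hA : IsCompact A)
    (hAc : IsPreconnected A) {c : Cs} {s : ℝ} (h0 : 0 < s) (hc : pr (c, s) ∈ A)
    {p : ℝ × ℝ} (hp : p ∈ A) (hne : p ≠ pr (c, s)) :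
    (∃ s₁, 0 ≤ s₁ ∧ s₁ < s ∧ ∀ u, s₁ ≤ u → u ≤ s → pr (c, u) ∈ A) ∨
    (∃ s₁, s < s₁ ∧ ∀ u, s ≤ u → u ≤ s₁ → pr (c, u) ∈ A) := by
  have mem : (c, s) ∈ K := by
    obtain ⟨q, hq, hqe⟩ := hAK hc
    have := pr_inj hqe.symm (ne_of_gt h0)
    rw [this]; exact hq
  by_cases h : ((0:ℝ), (0:ℝ)) ∈ A
  · left
    exact ⟨0, le_rfl, h0, fun u hu1 hu2 => star hK hAK hA hAc h mem hc hu1 hu2⟩
  · obtain ⟨q, hq, rfl⟩ := hAK hp
    have h1 : q.1 = c := one_blade hK hAK hA hAc h hq mem hp hc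
    have hq0 : 0 < q.2 := by
      refine lt_of_le_of_ne (hK.nonneg _ hq) ?_
      intro h2
      apply h
      have : q = (q.1, 0) := Prod.ext rfl h2.symm
      rw [this, pr_zero] at hp
      exact hp
    have hq' : q = (c, q.2) := Prod.ext h1 rfl
    have hqs : q.2 ≠ s := by
      intro h2
      apply hne
      rw [hq', h2]
    rw [hq'] at hp
    rcases lt_or_gt_of_ne hqs with h2 | h2
    · left
      exact ⟨q.2, hq0.le, h2, fun u hu1 hu2 => slice hK hAK hA hAc hq0 hp hc hu1 hu2⟩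
    · right
      exact ⟨q.2, h2, fun u hu1 hu2 => slice hK hAK hA hAc h0 hc hp hu1 hu2⟩

end Pool.Agent.H545R3.Fan
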