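import Pool.Agent.H545R3.FanTree

set_option autoImplicit false
set_option linter.unusedVariables false
set_option linter.unusedSectionVars false
set_option linter.dupNamespace false
set_option linter.unusedSimpArgs false

namespace Pool.Agent.H545R3.Fan

open Set Topology Filter

variable {K : Set (Cs × ℝ)}

/-- the quotient map onto the fan -/
noncomputable def toFan (K : Set (Cs × ℝ)) : K → Fan K := fun q => ⟨pr q, q, q.2, rfl⟩

lemma toFan_quot (hK : Good K) : IsQuotientMap (toFan K) := by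
  have : CompactSpace K := isCompact_iff_compactSpace.1 hK.comp
  have hc : Continuous (toFan K) := (pr_cont.comp continuous_subtype_val).subtype_mk _
  apply hc.isClosedMap.isQuotientMap hc
  rintro ⟨_, q, hq, rfl⟩
  exact ⟨⟨q, hq⟩, rfl⟩

lemma descend1 (hK : Good K) (Φ : Cs × ℝ → Cs × ℝ) (hΦ : Continuous Φ)
    (hΦK : ∀ q ∈ K, Φ q ∈ K) (h0 : ∀ c, (Φ (c, 0)).2 = 0) :
    ∃ h : Fan K → Fan K, Continuous h ∧ ∀ q : K, h (toFan K q) = toFan K ⟨Φ q, hΦK q q.2⟩ := by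
  classical
  have hq := toFan_quot hK
  choose g hg using hq.surjective
  have key : ∀ q q' : K, toFan K q = toFan K q' →
      toFan K ⟨Φ q, hΦK q q.2⟩ = toFan K ⟨Φ q', hΦK q' q'.2⟩ := by
    intro q q' h
    have h1 : pr (q : Cs × ℝ) = pr (q' : Cs × ℝ) := congrArg Subtype.val h
    apply Subtype.ext
    show pr (Φ q) = pr (Φ q')
    by_cases h2 : (q : Cs × ℝ).2 = 0
    · have h3 : (q' : Cs × ℝ).2 = 0 := by rw [← pr_snd_eq h1]; exact h2
      have e1 : (q : Cs × ℝ) = ((q : Cs × ℝ).1, 0) := Prod.ext rfl h2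
      have e2 : (q' : Cs × ℝ) = ((q' : Cs × ℝ).1, 0) := Prod.ext rfl h3
      rw [e1, e2]
      have e3 : Φ ((q : Cs × ℝ).1, 0) = ((Φ ((q : Cs × ℝ).1, 0)).1, 0) := Prod.ext rfl (h0 _)
      have e4 : Φ ((q' : Cs × ℝ).1, 0) = ((Φ ((q' : Cs × ℝ).1, 0)).1, 0) := Prod.ext rfl (h0 _)
      rw [e3, e4, pr_zero, pr_zero]
    · rw [pr_inj h1 h2]
  refine ⟨fun p => toFan K ⟨Φ (g p), hΦK _ (g p).2⟩, ?_, ?_⟩
  · rw [hq.continuous_iff]
    have : (fun p => toFan K ⟨Φ (g p), hΦK _ (g p).2⟩) ∘ toFan K =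
        fun q : K => toFan K ⟨Φ q, hΦK q q.2⟩ := by
      funext q
      exact key _ _ (hg _)
    rw [this]
    exact hq.continuous.comp ((hΦ.comp continuous_subtype_val).subtype_mk _)
  · intro q
    exact key _ _ (hg _)

lemma descend (hK : Good K) (Φ Ψ : Cs × ℝ → Cs × ℝ) (hΦ : Continuous Φ) (hΨ : Continuous Ψ)
    (hΦK : ∀ q ∈ K, Φ q ∈ K) (hΨK : ∀ q ∈ K, Ψ q ∈ K) (h1 : ∀ q, Ψ (Φ q) = q)
    (h2 : ∀ q, Φ (Ψ q) = q) (h0 : ∀ c, (Φ (c, 0)).2 = 0) (h0' : ∀ c, (Ψ (c, 0)).2 = 0) :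
    ∃ h : Fan K ≃ₜ Fan K, ∀ q : K, h (toFan K q) = toFan K ⟨Φ q, hΦK q q.2⟩ := by
  obtain ⟨f, hf, hfe⟩ := descend1 hK Φ hΦ hΦK h0
  obtain ⟨g, hg, hge⟩ := descend1 hK Ψ hΨ hΨK h0'
  have hs := (toFan_quot hK).surjective
  refine ⟨{ toFun := f, invFun := g, left_inv := ?_, right_inv := ?_,
            continuous_toFun := hf, continuous_invFun := hg }, hfe⟩
  · intro p
    obtain ⟨q, rfl⟩ := hs p
    rw [hfe, hge]
    congr 1
    exact Subtype.ext (h1 _)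
  · intro p
    obtain ⟨q, rfl⟩ := hs p
    rw [hge, hfe]
    congr 1
    exact Subtype.ext (h2 _)

variable {ψ ma mb : St → ℝ}

theorem endpointHomogeneous (W : Wt ψ ma mb) : EndpointHomogeneous (Fan (KK ψ)) := by
  classical
  intro e e' he he'
  rw [endpoint_iff' W] at he he'
  obtain ⟨c, m₁, hc, rfl⟩ := he
  obtain ⟨c', m₂, hc', rfl⟩ := he'
  set m := max m₁ m₂ with hm
  have hcm : Sup c m := sup_mono hc (le_max_left _ _)
  have hcm' : Sup c' m := sup_mono hc' (le_max_right _ _)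
  -- choose the order isomorphisms
  have hG : ∀ p p' : St, ∃ G : ℝ ≃o ℝ, (p.1 < p.2.1 → p.2.1 < p.2.2 → p.2.2 < m + 3 →
      p'.1 < p'.2.1 → p'.2.1 < p'.2.2 → p'.2.2 < m + 3 → G (ψ p) = ψ p' ∧
      (∀ q, m + 3 ≤ q → G (ψ (p.2.1, p.2.2, q)) = ψ (p'.2.1, p'.2.2, q)) ∧
      (∀ q r, m + 3 ≤ q → q < r → G (ψ (p.2.2, q, r)) = ψ (p'.2.2, q, r)) ∧
      (∀ p q r, m + 3 ≤ p → p < q → q < r → G (ψ (p, q, r)) = ψ (p, q, r))) ∧ G 0 = 0 := by
    intro p p'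
    by_cases h : p.1 < p.2.1 ∧ p.2.1 < p.2.2 ∧ p.2.2 < m + 3 ∧
      p'.1 < p'.2.1 ∧ p'.2.1 < p'.2.2 ∧ p'.2.2 < m + 3
    · obtain ⟨G, g1, g2, g3, g4, g5⟩ := W.homog m p.1 p.2.1 p.2.2 p'.1 p'.2.1 p'.2.2 h.1 h.2.1
        h.2.2.1 h.2.2.2.1 h.2.2.2.2.1 h.2.2.2.2.2
      exact ⟨G, fun _ _ _ _ _ _ => ⟨g2, g3, g4, g5⟩, g1⟩
    · exact ⟨OrderIso.refl ℝ, fun a1 a2 a3 a4 a5 a6 => absurd ⟨a1, a2, a3, a4, a5, a6⟩ h, rfl⟩
  choose G hG hG0 using hG
  set κ : Cs → Cs := fun d n => xor (d n) (xor (c n) (c' n)) with hκ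
  have hκκ : ∀ d, κ (κ d) = d := by
    intro d; funext n
    simp only [hκ]
    cases d n <;> cases c n <;> cases c' n <;> rfl
  have hκc : κ c = c' := by
    funext n
    simp only [hκ]
    cases c n <;> cases c' n <;> rfl
  have hκn : ∀ d n, m ≤ n → d n = κ d n := by
    intro d n hn
    simp only [hκ, hcm n hn, hcm' n hn]
    cases d n <;> rfl
  have hκcont : Continuous κ := by
    apply continuous_pi
    intro n
    exact (continuous_of_discreteTopology (f := fun b : Bool => xor b (xor (c n) (c' n)))).comp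
      (continuous_apply n)
  have hGψ : ∀ d n, m ≤ n → G (st d m) (st (κ d) m) (ψ (st d n)) = ψ (st (κ d) n) := by
    intro d n hn
    obtain ⟨v1, v2, v3⟩ := st_valid d m
    obtain ⟨w1, w2, w3⟩ := st_valid (κ d) m
    obtain ⟨g1, g2, g3, g4⟩ := hG (st d m) (st (κ d) m) v1 v2 v3 w1 w2 w3
    rcases inv d (κ d) m (hκn d) n hn with ⟨_, h2, h3⟩ | ⟨q, h1, h2, h3, h3'⟩ |
      ⟨q, r, h1, h2, h3, h4, h4'⟩ | ⟨p, q, r, h1, h2, h3, h4, h5, h5'⟩
    · rw [h2, h3]; exact g1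
    · rw [h3, h3']; exact g2 q h1
    · rw [h4, h4']; exact g3 q r h1 h2
    · rw [h5, h5']; exact g4 p q r h1 h2 h3
  have hmemiff : ∀ d s, (κ d, G (st d m) (st (κ d) m) s) ∈ KK ψ ↔ (d, s) ∈ KK ψ := by
    intro d s
    rw [mem_iff_ge W m, mem_iff_ge W m]
    have h1 : (0 ≤ G (st d m) (st (κ d) m) s ↔ 0 ≤ s) := by
      conv_lhs => rw [← hG0 (st d m) (st (κ d) m)]
      exact (G (st d m) (st (κ d) m)).le_iff_le
    rw [h1]
    apply and_congr_right'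
    apply forall_congr'
    intro n
    apply imp_congr_right
    intro hn
    rw [← hGψ d n hn]
    exact (G (st d m) (st (κ d) m)).le_iff_le
  set Φ : Cs × ℝ → Cs × ℝ := fun q => (κ q.1, G (st q.1 m) (st (κ q.1) m) q.2) with hΦ
  set Ψ : Cs × ℝ → Cs × ℝ := fun q => (κ q.1, (G (st (κ q.1) m) (st q.1 m)).symm q.2) with hΨ
  have hc1 : Continuous (fun q : (St × St) × ℝ => G q.1.1 q.1.2 q.2) := by
    rw [continuous_prod_of_discrete_left]
    intro a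
    exact (G a.1 a.2).continuous
  have hc2 : Continuous (fun q : (St × St) × ℝ => (G q.1.1 q.1.2).symm q.2) := by
    rw [continuous_prod_of_discrete_left]
    intro a
    exact (G a.1 a.2).symm.continuous
  have hΦc : Continuous Φ := by
    apply (hκcont.comp continuous_fst).prodMk
    exact hc1.comp ((((st_cont m).comp continuous_fst).prodMk
      ((st_cont m).comp (hκcont.comp continuous_fst))).prodMk continuous_snd)
  have hΨc : Continuous Ψ := by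
    apply (hκcont.comp continuous_fst).prodMk
    exact hc2.comp ((((st_cont m).comp (hκcont.comp continuous_fst)).prodMk
      ((st_cont m).comp continuous_fst)).prodMk continuous_snd)
  have hΨΦ : ∀ q, Ψ (Φ q) = q := by
    rintro ⟨d, s⟩
    simp only [hΦ, hΨ, hκκ, OrderIso.symm_apply_apply]
  have hΦΨ : ∀ q, Φ (Ψ q) = q := by
    rintro ⟨d, s⟩
    simp only [hΦ, hΨ, hκκ, OrderIso.apply_symm_apply]
  have hΦK : ∀ q ∈ KK ψ, Φ q ∈ KK ψ := by
    rintro ⟨d, s⟩ h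
    exact (hmemiff d s).2 h
  have hΨK : ∀ q ∈ KK ψ, Ψ q ∈ KK ψ := by
    rintro ⟨d, s⟩ h
    have := hmemiff (Ψ (d, s)).1 (Ψ (d, s)).2
    have h2 : (κ (Ψ (d, s)).1, G (st (Ψ (d, s)).1 m) (st (κ (Ψ (d, s)).1) m) (Ψ (d, s)).2) = (d, s) :=
      hΦΨ (d, s)
    rw [h2] at this
    exact this.1 h
  obtain ⟨h, hh⟩ := descend (good W) Φ Ψ hΦc hΨc hΦK hΨK hΨΦ hΦΨ (fun d => hG0 _ _)
    (fun d => by
      show (G (st (κ d) m) (st d m)).symm 0 = 0
      rw [OrderIso.symm_apply_eq, hG0])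
  refine ⟨h, ?_⟩
  have h1 : pt c (ψ (st c m₁)) (tip_mem W hc) = toFan (KK ψ) ⟨_, tip_mem W hc⟩ := rfl
  rw [h1, hh]
  apply Subtype.ext
  show pr (Φ (c, ψ (st c m₁))) = pr (c', ψ (st c' m₂))
  congr 1
  simp only [hΦ]
  rw [hκc]
  congr 1
  have e1 : ψ (st c m₁) = ψ (st c m) := by rw [st_const hc (le_max_left _ _)]
  have e2 : ψ (st c' m₂) = ψ (st c' m) := by rw [st_const hc' (le_max_right _ _)]
  rw [e1, e2]
  have := hGψ c m le_rfl
  rw [hκc] at this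
  exact this

end Pool.Agent.H545R3.Fan
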