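import Pool.Agent.H545R3.FanTop

set_option autoImplicit false
set_option linter.unusedVariables false
set_option linter.unusedSectionVars false
set_option linter.dupNamespace false
set_option linter.unusedSimpArgs false

namespace Pool.Agent.H545R3.Fan

open Set Topology Filter

variable {K : Set (Cs × ℝ)}

lemma repr (hK : Good K) (p : Fan K) : ∃ c s, ∃ h : (c, s) ∈ K, 0 ≤ s ∧ p = pt c s h := by
  obtain ⟨q, hq, hqp⟩ := p.2
  obtain ⟨c, s⟩ := q
  exact ⟨c, s, hq, hK.nonneg _ hq, Subtype.ext hqp.symm⟩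

lemma pt_zero (hK : Good K) (c : Cs) : pt c 0 (hK.zero c) = top hK := by
  apply Subtype.ext
  show pr (c, 0) = 0
  rw [pr_zero]; rfl

lemma pt_inj {c c' : Cs} {s s' : ℝ} {h : (c, s) ∈ K} {h' : (c', s') ∈ K} (hs : s ≠ 0)
    (he : pt c s h = pt c' s' h') : c = c' ∧ s = s' := by
  have h1 : pr (c, s) = pr (c', s') := congrArg Subtype.val he
  have := pr_inj h1 hs
  exact ⟨congrArg Prod.fst this, congrArg Prod.snd this⟩

lemma pt_ne_top (hK : Good K) {c : Cs} {s : ℝ} {h : (c, s) ∈ K} (hs : s ≠ 0) :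
    pt c s h ≠ top hK := by
  intro he
  rw [← pt_zero hK c] at he
  exact hs (pt_inj hs he).2

/-- two-leg arc -/
lemma legs (hK : Good K) {c₁ c₂ : Cs} {s₁ s₂ : ℝ} (h₁ : (c₁, s₁) ∈ K) (h₂ : (c₂, s₂) ∈ K)
    (hs₁ : 0 < s₁) (hs₂ : 0 < s₂) (hc : c₁ ≠ c₂) :
    ∃ f : unitInterval → Fan K, Continuous f ∧ Function.Injective f ∧ f 0 = pt c₁ s₁ h₁ ∧
      f 1 = pt c₂ s₂ h₂ ∧ top hK ∈ Set.range f := by
  classical
  have hm : ∀ t : unitInterval, (if (t : ℝ) ≤ 1/2 then pr (c₁, (1 - 2 * (t:ℝ)) * s₁)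
      else pr (c₂, (2 * (t:ℝ) - 1) * s₂)) ∈ Fan K := by
    intro t
    have h1 := t.2.1
    have h2 := t.2.2
    split_ifs with h
    · exact ⟨_, hK.down c₁ s₁ _ h₁ (by nlinarith) (by nlinarith), rfl⟩
    · push Not at h
      exact ⟨_, hK.down c₂ s₂ _ h₂ (by nlinarith) (by nlinarith), rfl⟩
  refine ⟨fun t => ⟨_, hm t⟩, ?_, ?_, ?_, ?_, ?_⟩
  · apply Continuous.subtype_mk
    apply Continuous.if_le
    · exact pr_cont.comp (by fun_prop)
    · exact pr_cont.comp (by fun_prop)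
    · fun_prop
    · fun_prop
    · intro t ht
      rw [ht]
      norm_num
      rw [pr_zero, pr_zero]
  · intro t t' h
    have h1 := congrArg Subtype.val h
    simp only at h1
    split_ifs at h1 with ha hb hb
    · have := pr_snd_eq h1
      simp only at this
      have h3 : ((t:ℝ) - t') * s₁ = 0 := by linarith
      rcases mul_eq_zero.1 h3 with h4 | h4
      · exact Subtype.ext (by linarith)
      · exact absurd h4 hs₁.ne'
    · exfalso
      push Not at hb
      have h3 : (2 * (t':ℝ) - 1) * s₂ ≠ 0 := by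
        apply ne_of_gt; apply mul_pos _ hs₂; linarith
      have := pr_inj h1.symm h3
      exact hc (congrArg Prod.fst this).symm
    · exfalso
      push Not at ha
      have h3 : (2 * (t:ℝ) - 1) * s₂ ≠ 0 := by
        apply ne_of_gt; apply mul_pos _ hs₂; linarith
      have := pr_inj h1 h3
      exact hc (congrArg Prod.fst this).symm
    · have := pr_snd_eq h1
      simp only at this
      have h3 : ((t:ℝ) - t') * s₂ = 0 := by linarith
      rcases mul_eq_zero.1 h3 with h4 | h4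
      · exact Subtype.ext (by linarith)
      · exact absurd h4 hs₂.ne'
  · apply Subtype.ext
    simp [pt]
  · apply Subtype.ext
    have : ¬ (((1 : unitInterval) : ℝ) ≤ 1/2) := by
      show ¬ ((1:ℝ) ≤ 1/2)
      norm_num
    simp only [pt]
    rw [if_neg this]
    have h3 : (2 * ((1 : unitInterval) : ℝ) - 1) * s₂ = s₂ := by
      show (2 * (1:ℝ) - 1) * s₂ = s₂
      ring
    rw [h3]
  · refine ⟨⟨1/2, by norm_num, by norm_num⟩, ?_⟩
    apply Subtype.ext
    simp only [top]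
    rw [if_pos le_rfl]
    norm_num
    rw [pr_zero]; rfl

lemma endpoint_iff (hK : Good K) (e : Fan K) : IsEndpoint e ↔
    ∃ c s, ∃ h : (c, s) ∈ K, 0 < s ∧ (∀ u, (c, u) ∈ K → u ≤ s) ∧ e = pt c s h := by
  constructor
  · intro he
    obtain ⟨c, s, h, hs, rfl⟩ := repr hK e
    rcases hs.eq_or_lt with rfl | hs
    · exfalso
      rw [pt_zero hK] at he
      obtain ⟨c₁, c₂, c₃, s₁, s₂, s₃, h12, -, -, hs₁, hs₂, hs₃, k₁, k₂, k₃⟩ := hK.three
      obtain ⟨f, hf, hfi, hf0, hf1, hft⟩ := legs hK k₁ k₂ hs₁ hs₂ h12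
      rcases he _ _ _ ⟨f, hf, hfi, hf0, hf1, rfl⟩ hft with h' | h'
      · exact pt_ne_top hK hs₁.ne' h'.symm
      · exact pt_ne_top hK hs₂.ne' h'.symm
    · refine ⟨c, s, h, hs, ?_, rfl⟩
      by_contra hcon
      push Not at hcon
      obtain ⟨u, hu, hsu⟩ := hcon
      rcases he _ _ _ (blade_isArc hK (hs.trans hsu) hu) ⟨s, ⟨hs.le, hsu.le⟩, rfl⟩ with h' | h'
      · exact pt_ne_top hK hs.ne' h'
      · exact hsu.ne (pt_inj hs.ne' h').2
  · rintro ⟨c, s, h, hs, htip, rfl⟩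
    rintro A x y ⟨f, hf, hfi, hf0, hf1, hfr⟩ heA
    rw [← hfr] at heA
    obtain ⟨t₀, ht₀⟩ := heA
    rcases tip_end hK hf hfi hs (t₀ := t₀) (c := c) (by rw [ht₀]; rfl) htip with h' | h'
    · left; rw [← ht₀, h', hf0]
    · right; rw [← ht₀, h', hf1]

lemma arcwise (hK : Good K) (x y : Fan K) (hxy : x ≠ y) : ∃ A, IsArc A x y := by
  obtain ⟨c₁, s₁, h₁, hs₁, rfl⟩ := repr hK x
  obtain ⟨c₂, s₂, h₂, hs₂, rfl⟩ := repr hK y
  have key : ∀ (c : Cs) (a b : ℝ) (ha : (c, a) ∈ K) (hb : (c, b) ∈ K), a ≠ b →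
      ∃ A, IsArc A (pt c a ha) (pt c b hb) := by
    intro c a b ha hb hab
    obtain ⟨f, hf, hfi, hft⟩ := seg_arc hK ha hb hab
    refine ⟨_, f, hf, hfi, ?_, ?_, rfl⟩
    · apply Subtype.ext; rw [hft]; simp [pt]
    · apply Subtype.ext; rw [hft]; simp [pt]
  by_cases hc : c₁ = c₂
  · subst hc
    apply key
    rintro rfl
    exact hxy rfl
  · rcases hs₁.eq_or_lt with h | h
    · subst h
      rw [pt_zero hK c₁, ← pt_zero hK c₂] at hxy ⊢
      apply key
      rintro rfl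
      exact hxy rfl
    · rcases hs₂.eq_or_lt with h' | h'
      · subst h'
        rw [pt_zero hK c₂, ← pt_zero hK c₁] at hxy ⊢
        apply key
        rintro rfl
        exact hxy rfl
      · obtain ⟨f, hf, hfi, hf0, hf1, _⟩ := legs hK h₁ h₂ h h' hc
        exact ⟨_, f, hf, hfi, hf0, hf1, rfl⟩

lemma top_ramification (hK : Good K) : IsRamification (top hK) := by
  obtain ⟨c₁, c₂, c₃, s₁, s₂, s₃, h12, h13, h23, hs₁, hs₂, hs₃, k₁, k₂, k₃⟩ := hK.three
  have key : ∀ (c c' : Cs) (s s' : ℝ), 0 < s → 0 < s' → c ≠ c' →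
      (Subtype.val ⁻¹' ((fun u => pr (c, u)) '' Icc 0 s) : Set (Fan K)) ∩
      (Subtype.val ⁻¹' ((fun u => pr (c', u)) '' Icc 0 s') : Set (Fan K)) = {top hK} := by
    intro c c' s s' hs hs' hc
    ext p
    constructor
    · rintro ⟨⟨u, hu, hup⟩, ⟨u', hu', hu'p⟩⟩
      have he := hup.trans hu'p.symm
      by_cases h0 : u = 0
      · subst h0
        apply Subtype.ext
        rw [← hup]
        show pr (c, 0) = 0
        rw [pr_zero]; rfl
      · exact absurd (congrArg Prod.fst (pr_inj he h0)) hc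
    · rintro rfl
      refine ⟨⟨0, ⟨le_rfl, hs.le⟩, ?_⟩, ⟨0, ⟨le_rfl, hs'.le⟩, ?_⟩⟩
      · show pr (c, 0) = 0
        rw [pr_zero]; rfl
      · show pr (c', 0) = 0
        rw [pr_zero]; rfl
  exact ⟨_, _, _, _, _, _, blade_isArc hK hs₁ k₁, blade_isArc hK hs₂ k₂, blade_isArc hK hs₃ k₃,
    key _ _ _ _ hs₁ hs₂ h12, key _ _ _ _ hs₁ hs₃ h13, key _ _ _ _ hs₂ hs₃ h23⟩

lemma hered (hK : Good K) : HereditarilyUnicoherent (Fan K) := by
  intro C A B hC hA hB hCAB
  refine ⟨?_, ?_⟩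
  · obtain ⟨p, _, hp⟩ := (isPreconnected_closed_iff.1 hC.2.isPreconnected) A B hA.1.isClosed
      hB.1.isClosed hCAB.subset (by rw [hCAB]; exact hA.2.nonempty.mono (fun a ha => ⟨Or.inl ha, ha⟩))
      (by rw [hCAB]; exact hB.2.nonempty.mono (fun a ha => ⟨Or.inr ha, ha⟩))
    exact ⟨p, hp⟩
  · rw [← IsInducing.subtypeVal.isPreconnected_image, image_inter Subtype.val_injective]
    have conv : ∀ A : Set (Fan K), IsSubcontinuum A → (Subtype.val '' A) ⊆ pr '' K ∧
        IsCompact (Subtype.val '' A) ∧ IsPreconnected (Subtype.val '' A) := by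
      intro A hA
      exact ⟨val_image_sub A, hA.1.image continuous_subtype_val,
        hA.2.isPreconnected.image _ continuous_subtype_val.continuousOn⟩
    obtain ⟨hAK, hAc, hAp⟩ := conv A hA
    obtain ⟨hBK, hBc, hBp⟩ := conv B hB
    set A' : Set (ℝ × ℝ) := Subtype.val '' A
    set B' : Set (ℝ × ℝ) := Subtype.val '' B
    by_cases h0 : ((0:ℝ), (0:ℝ)) ∈ A' ∩ B'
    · refine (StarConvex.isPathConnected (a := 0) (starConvex_of hK
        (inter_subset_left.trans hAK) ?_) h0).isConnected.isPreconnected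
      intro c s s' h1 h2 h3 h4
      exact ⟨star hK hAK hAc hAp h0.1 h1 h2.1 h3 h4, star hK hBK hBc hBp h0.2 h1 h2.2 h3 h4⟩
    · have main : ∀ (A' B' : Set (ℝ × ℝ)), A' ⊆ pr '' K → IsCompact A' → IsPreconnected A' →
          B' ⊆ pr '' K → IsCompact B' → IsPreconnected B' → ((0:ℝ), (0:ℝ)) ∉ A' →
          IsPreconnected (A' ∩ B') := by
        intro A' B' hAK hAc hAp hBK hBc hBp h0
        by_cases hne : (A' ∩ B').Nonempty
        · obtain ⟨p, hpA, hpB⟩ := hne
          obtain ⟨q, hq, rfl⟩ := hAK hpA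
          set c := q.1
          have heq : A' ∩ B' = (fun u => pr (c, u)) '' {u | 0 < u ∧ pr (c, u) ∈ A' ∧ pr (c, u) ∈ B'} := by
            ext p
            constructor
            · rintro ⟨hp1, hp2⟩
              obtain ⟨q', hq', rfl⟩ := hAK hp1
              have h1 : q'.1 = c := one_blade hK hAK hAc hAp h0 hq' hq hp1 hpA
              have h2 : q' = (c, q'.2) := Prod.ext h1 rfl
              have h3 : 0 < q'.2 := by
                refine lt_of_le_of_ne (hK.nonneg _ hq') ?_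
                intro h4
                rw [← h4] at h2
                rw [h2, pr_zero] at hp1
                exact h0 hp1
              refine ⟨q'.2, ⟨h3, ?_, ?_⟩, ?_⟩
              · rw [← h2]; exact hp1
              · rw [← h2]; exact hp2
              · simp only; rw [← h2]
            · rintro ⟨u, ⟨_, h1, h2⟩, rfl⟩
              exact ⟨h1, h2⟩
          rw [heq]
          apply IsPreconnected.image _ _ (pr_cont.comp (Continuous.prodMk_right c)).continuousOn
          apply Set.OrdConnected.isPreconnected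
          constructor
          rintro a ⟨ha0, ha1, ha2⟩ b ⟨hb0, hb1, hb2⟩ u ⟨hu1, hu2⟩
          exact ⟨ha0.trans_le hu1, slice hK hAK hAc hAp ha0 ha1 hb1 hu1 hu2,
            slice hK hBK hBc hBp ha0 ha2 hb2 hu1 hu2⟩
        · rw [Set.not_nonempty_iff_eq_empty] at hne
          rw [hne]; exact isPreconnected_empty
      by_cases hA0 : ((0:ℝ), (0:ℝ)) ∈ A'
      · have hB0 : ((0:ℝ), (0:ℝ)) ∉ B' := fun h => h0 ⟨hA0, h⟩
        rw [inter_comm]
        exact main B' A' hBK hBc hBp hAK hAc hAp hB0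
      · exact main A' B' hAK hAc hAp hBK hBc hBp hA0

theorem isFan (hK : Good K) : IsFan (Fan K) (top hK) where
  compact := isCompact_iff_compactSpace.1 (fan_compact hK)
  connected := isConnected_iff_connectedSpace.1 (fan_connected hK)
  arcwise := arcwise hK
  unicoherent := hered hK
  ramification := fun p => ⟨no_triod hK, fun h => h ▸ top_ramification hK⟩

lemma seg_char (hK : Good K) {A : Set (Fan K)} {p : Fan K} (hA : IsSeg A (top hK) p) :
    A = {q : Fan K | ∃ μ : ℝ, 0 ≤ μ ∧ μ ≤ 1 ∧ (q : ℝ × ℝ) = μ • (p : ℝ × ℝ)} := by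
  rcases hA with ⟨hp, rfl⟩ | hA
  · ext q
    simp only [mem_singleton_iff, mem_ofPred_eq]
    constructor
    · rintro rfl
      exact ⟨1, by norm_num, le_rfl, by rw [← hp, one_smul]⟩
    · rintro ⟨μ, _, _, h⟩
      apply Subtype.ext
      rw [h, ← hp]
      show μ • (0 : ℝ × ℝ) = 0
      exact smul_zero μ
  · obtain ⟨c, s, h, hs, rfl⟩ := repr hK p
    have hs' : 0 < s := by
      refine lt_of_le_of_ne hs ?_
      rintro rfl
      rw [pt_zero hK] at hA
      obtain ⟨f, hf, hfi, hf0, hf1, _⟩ := hA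
      exact zero_ne_one (hfi (hf0.trans hf1.symm))
    rw [arc_unique hK hs' h hA]
    ext q
    simp only [mem_preimage, mem_image, mem_ofPred_eq]
    constructor
    · rintro ⟨u, ⟨hu0, hu1⟩, hq⟩
      refine ⟨u / s, div_nonneg hu0 hs, (div_le_one hs').2 hu1, ?_⟩
      rw [← hq]
      show pr (c, u) = (u / s) • pr (c, s)
      rw [smul_pr, div_mul_cancel₀ _ hs'.ne']
    · rintro ⟨μ, hμ0, hμ1, hq⟩
      refine ⟨μ * s, ⟨mul_nonneg hμ0 hs, by nlinarith⟩, ?_⟩
      rw [hq]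
      show pr (c, μ * s) = μ • pr (c, s)
      rw [smul_pr]

lemma smul_mem (hK : Good K) (p : Fan K) {μ : ℝ} (h0 : 0 ≤ μ) (h1 : μ ≤ 1) :
    μ • (p : ℝ × ℝ) ∈ Fan K := by
  obtain ⟨c, s, h, hs, rfl⟩ := repr hK p
  show μ • pr (c, s) ∈ Fan K
  rw [smul_pr]
  exact ⟨_, hK.down c s _ h (mul_nonneg h0 hs) (by nlinarith), rfl⟩

theorem isSmooth (hK : Good K) : IsSmooth (top hK) := by
  intro u x hux A B hA hB
  have hd : Tendsto (fun n => dist (u n) x) atTop (𝓝 0) := tendsto_iff_dist_tendsto_zero.1 hux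
  refine squeeze_zero (fun n => Metric.hausdorffDist_nonneg) (fun n => ?_) hd
  rw [seg_char hK (hA n), seg_char hK hB]
  have key : ∀ (p p' : Fan K) (q : Fan K), (∃ μ : ℝ, 0 ≤ μ ∧ μ ≤ 1 ∧ (q : ℝ × ℝ) = μ • (p : ℝ × ℝ)) →
      ∃ q' : Fan K, (∃ μ : ℝ, 0 ≤ μ ∧ μ ≤ 1 ∧ (q' : ℝ × ℝ) = μ • (p' : ℝ × ℝ)) ∧
        dist q q' ≤ dist p p' := by
    rintro p p' q ⟨μ, h0, h1, hq⟩
    refine ⟨⟨_, smul_mem hK p' h0 h1⟩, ⟨μ, h0, h1, rfl⟩, ?_⟩
    rw [Subtype.dist_eq, Subtype.dist_eq, hq]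
    simp only
    rw [dist_smul₀, Real.norm_eq_abs, abs_of_nonneg h0]
    exact mul_le_of_le_one_left dist_nonneg h1
  apply Metric.hausdorffDist_le_of_mem_dist dist_nonneg
  · intro q hq
    exact key _ _ _ hq
  · intro q hq
    obtain ⟨q', h1, h2⟩ := key x (u n) q hq
    exact ⟨q', h1, by rw [dist_comm (u n) x]; exact h2⟩

end Pool.Agent.H545R3.Fan
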