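import Pool.Agent.H545R3.FanGen

set_option autoImplicit false
set_option linter.unusedVariables false
set_option linter.unusedSectionVars false
set_option linter.dupNamespace false
set_option linter.unusedSimpArgs false

namespace Pool.Agent.H545R3.Fan

open Set Topology Filter

/-- The plane fan determined by `K`. -/
def Fan (K : Set (Cs × ℝ)) : Set (ℝ × ℝ) := pr '' K

variable {K : Set (Cs × ℝ)}

lemma mem_K (hK : Good K) {c : Cs} {s : ℝ} (hs : 0 ≤ s) (h : pr (c, s) ∈ Fan K) : (c, s) ∈ K := by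
  rcases hs.eq_or_lt with rfl | hs
  · exact hK.zero c
  · obtain ⟨q, hq, hqe⟩ := h
    have := pr_inj hqe.symm (ne_of_gt hs)
    rw [this]; exact hq

lemma smul_pr (μ : ℝ) (c : Cs) (s : ℝ) : μ • pr (c, s) = pr (c, μ * s) := by
  unfold pr
  ext
  · simp [mul_assoc]
  · simp

/-- a set closed under going down is star convex -/
lemma starConvex_of (hK : Good K) {A : Set (ℝ × ℝ)} (hAK : A ⊆ Fan K)
    (h : ∀ c s s', (c, s) ∈ K → pr (c, s) ∈ A → 0 ≤ s' → s' ≤ s → pr (c, s') ∈ A) :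
    StarConvex ℝ (0 : ℝ × ℝ) A := by
  intro p hp a b ha hb hab
  obtain ⟨q, hq, rfl⟩ := hAK hp
  rw [smul_zero, zero_add]
  have h1 : pr q = pr (q.1, q.2) := rfl
  rw [h1, smul_pr]
  have hb1 : b ≤ 1 := by linarith
  exact h q.1 q.2 _ hq hp (mul_nonneg hb (hK.nonneg _ hq))
    (by nlinarith [hK.nonneg _ hq])

lemma zero_mem (hK : Good K) : (0 : ℝ × ℝ) ∈ Fan K :=
  ⟨(fun _ => false, 0), hK.zero _, by rw [pr_zero]; rfl⟩

/-- The top of the fan. -/
noncomputable def top (hK : Good K) : Fan K := ⟨0, zero_mem hK⟩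

lemma fan_compact (hK : Good K) : IsCompact (Fan K) := hK.comp.image pr_cont

lemma fan_connected (hK : Good K) : IsConnected (Fan K) := by
  refine (StarConvex.isPathConnected (a := 0) (starConvex_of hK subset_rfl ?_) (zero_mem hK)).isConnected
  intro c s s' h1 _ h2 h3
  exact ⟨_, hK.down c s s' h1 h2 h3, rfl⟩

/-- point of the fan -/
noncomputable def pt (c : Cs) (s : ℝ) (h : (c, s) ∈ K) : Fan K := ⟨pr (c, s), _, h, rfl⟩

lemma val_image_sub (A : Set (Fan K)) : Subtype.val '' A ⊆ pr '' K := by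
  rintro _ ⟨a, _, rfl⟩
  exact a.2

/-- images of intervals under arcs -/
lemma arc_image {f : unitInterval → Fan K} (hf : Continuous f) (a b : unitInterval) :
    IsCompact ((fun t => (f t : ℝ × ℝ)) '' Icc a b) ∧
    IsPreconnected ((fun t => (f t : ℝ × ℝ)) '' Icc a b) ∧
    ((fun t => (f t : ℝ × ℝ)) '' Icc a b) ⊆ pr '' K := by
  have hg : Continuous (fun t => (f t : ℝ × ℝ)) := continuous_subtype_val.comp hf
  refine ⟨isCompact_Icc.image hg, isPreconnected_Icc.image _ hg.continuousOn, ?_⟩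
  rintro _ ⟨t, _, rfl⟩
  exact (f t).2

lemma tip_end (hK : Good K) {f : unitInterval → Fan K} (hf : Continuous f)
    (hi : Function.Injective f) {t₀ : unitInterval} {c : Cs} {s : ℝ} (h0 : 0 < s)
    (hfs : (f t₀ : ℝ × ℝ) = pr (c, s)) (htip : ∀ u, (c, u) ∈ K → u ≤ s) : t₀ = 0 ∨ t₀ = 1 := by
  by_contra hcon
  push Not at hcon
  obtain ⟨hne0, hne1⟩ := hcon
  have hgi : Function.Injective (fun t => (f t : ℝ × ℝ)) := Subtype.val_injective.comp hi
  obtain ⟨hA, hAc, hAK⟩ := arc_image hf 0 t₀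
  obtain ⟨hB, hBc, hBK⟩ := arc_image hf t₀ 1
  have key : ∀ A : Set (ℝ × ℝ), A ⊆ pr '' K → IsCompact A → IsPreconnected A → pr (c, s) ∈ A →
      (∃ p ∈ A, p ≠ pr (c, s)) → ∃ s₁, 0 ≤ s₁ ∧ s₁ < s ∧ ∀ u, s₁ ≤ u → u ≤ s → pr (c, u) ∈ A := by
    intro A hAK hA hAc hc hne
    obtain ⟨p, hp, hpne⟩ := hne
    rcases direction hK hAK hA hAc h0 hc hp hpne with h | ⟨s₁, h1, h2⟩
    · exact h
    · exfalso
      have := mem_K hK (h0.le.trans h1.le) (hAK (h2 s₁ h1.le le_rfl))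
      linarith [htip _ this]
  obtain ⟨a, ha0, has, ha⟩ := key _ hAK hA hAc ⟨t₀, ⟨unitInterval.nonneg', le_rfl⟩, hfs⟩
    ⟨_, ⟨0, ⟨le_rfl, unitInterval.nonneg'⟩, rfl⟩, by
      rw [← hfs]; exact fun h => hne0 (hgi h).symm⟩
  obtain ⟨b, hb0, hbs, hb⟩ := key _ hBK hB hBc ⟨t₀, ⟨le_rfl, unitInterval.le_one'⟩, hfs⟩
    ⟨_, ⟨1, ⟨unitInterval.le_one', le_rfl⟩, rfl⟩, by
      rw [← hfs]; exact fun h => hne1 (hgi h).symm⟩
  have hus : max a b < s := max_lt has hbs
  obtain ⟨t, ht, htu⟩ := ha (max a b) (le_max_left _ _) hus.le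
  obtain ⟨t', ht', ht'u⟩ := hb (max a b) (le_max_right _ _) hus.le
  have htt : t = t' := hgi (htu.trans ht'u.symm)
  subst htt
  have h1 : t = t₀ := le_antisymm ht.2 ht'.1
  subst h1
  have h2 : pr (c, s) = pr (c, max a b) := hfs.symm.trans htu
  have := pr_snd_eq h2
  simp only at this
  linarith

lemma range_eq_image {f : unitInterval → Fan K} :
    (fun t => (f t : ℝ × ℝ)) '' Icc 0 1 = Set.range (fun t => (f t : ℝ × ℝ)) := by
  have : (Icc 0 1 : Set unitInterval) = univ := by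
    ext t; simp [unitInterval.nonneg', unitInterval.le_one']
  rw [this, image_univ]

lemma arc_range {f : unitInterval → Fan K} (hf : Continuous f) :
    IsCompact (Set.range (fun t => (f t : ℝ × ℝ))) ∧
    IsPreconnected (Set.range (fun t => (f t : ℝ × ℝ))) ∧
    (Set.range (fun t => (f t : ℝ × ℝ))) ⊆ pr '' K := by
  rw [← range_eq_image]
  exact arc_image hf 0 1

/-- Three pairwise almost disjoint arcs cannot issue from a point other than the top. -/
lemma no_triod (hK : Good K) {p : Fan K} (hp : IsRamification p) : p = top hK := by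
  by_contra hne
  obtain ⟨A₁, A₂, A₃, x₁, x₂, x₃, h₁, h₂, h₃, h12, h13, h23⟩ := hp
  obtain ⟨q, hq, hqp⟩ := p.2
  obtain ⟨c, s⟩ := q
  have hs : 0 < s := by
    refine lt_of_le_of_ne (hK.nonneg _ hq) ?_
    intro h
    apply hne
    apply Subtype.ext
    rw [← hqp]
    have h' : (0:ℝ) = s := h
    rw [← h', pr_zero]
    rfl
  have key : ∀ (A : Set (Fan K)) (x : Fan K), IsArc A p x →
      (∃ s₁, 0 ≤ s₁ ∧ s₁ < s ∧ ∀ u, s₁ ≤ u → u ≤ s → pr (c, u) ∈ Subtype.val '' A) ∨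
      (∃ s₁, s < s₁ ∧ ∀ u, s ≤ u → u ≤ s₁ → pr (c, u) ∈ Subtype.val '' A) := by
    rintro A x ⟨f, hf, hfi, hf0, hf1, hfr⟩
    obtain ⟨hA, hAc, hAK⟩ := arc_range hf
    have hAr : Subtype.val '' A = Set.range (fun t => (f t : ℝ × ℝ)) := by
      rw [← hfr, ← range_comp]; rfl
    rw [hAr]
    refine direction hK hAK hA hAc hs (p := f 1) ⟨0, ?_⟩ ⟨1, rfl⟩ ?_
    · simp only; rw [hf0, hqp]
    · rw [hqp, ← hf0]
      intro h
      have := hfi (Subtype.val_injective h)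
      exact one_ne_zero this
  have bad : ∀ (A B : Set (Fan K)), A ∩ B = {p} → ∀ u, u ≠ s → pr (c, u) ∈ Subtype.val '' A →
      pr (c, u) ∈ Subtype.val '' B → False := by
    rintro A B hAB u hu ⟨a, ha, hae⟩ ⟨b, hb, hbe⟩
    have hab : a = b := Subtype.ext (hae.trans hbe.symm)
    subst hab
    have : a ∈ A ∩ B := ⟨ha, hb⟩
    rw [hAB, mem_singleton_iff] at this
    subst this
    have := pr_snd_eq (hqp.trans hae)
    exact hu this.symm
  have down : ∀ (A B : Set (Fan K)), A ∩ B = {p} →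
      (∃ s₁, 0 ≤ s₁ ∧ s₁ < s ∧ ∀ u, s₁ ≤ u → u ≤ s → pr (c, u) ∈ Subtype.val '' A) →
      (∃ s₁, 0 ≤ s₁ ∧ s₁ < s ∧ ∀ u, s₁ ≤ u → u ≤ s → pr (c, u) ∈ Subtype.val '' B) → False := by
    rintro A B hAB ⟨a, ha0, has, ha⟩ ⟨b, hb0, hbs, hb⟩
    have hus : max a b < s := max_lt has hbs
    exact bad A B hAB (max a b) hus.ne (ha _ (le_max_left _ _) hus.le) (hb _ (le_max_right _ _) hus.le)
  have up : ∀ (A B : Set (Fan K)), A ∩ B = {p} →
      (∃ s₁, s < s₁ ∧ ∀ u, s ≤ u → u ≤ s₁ → pr (c, u) ∈ Subtype.val '' A) →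
      (∃ s₁, s < s₁ ∧ ∀ u, s ≤ u → u ≤ s₁ → pr (c, u) ∈ Subtype.val '' B) → False := by
    rintro A B hAB ⟨a, has, ha⟩ ⟨b, hbs, hb⟩
    have hus : s < min a b := lt_min has hbs
    exact bad A B hAB (min a b) hus.ne' (ha _ hus.le (min_le_left _ _)) (hb _ hus.le (min_le_right _ _))
  rcases key A₁ x₁ h₁ with k1 | k1 <;> rcases key A₂ x₂ h₂ with k2 | k2 <;>
    rcases key A₃ x₃ h₃ with k3 | k3
  · exact down _ _ h12 k1 k2
  · exact down _ _ h12 k1 k2
  · exact down _ _ h13 k1 k3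
  · exact up _ _ h23 k2 k3
  · exact down _ _ h23 k2 k3
  · exact up _ _ h13 k1 k3
  · exact up _ _ h12 k1 k2
  · exact up _ _ h12 k1 k2

/-- The vertical segment from level `a` to level `b` over `c`. -/
lemma seg_arc (hK : Good K) {c : Cs} {a b : ℝ} (ha : (c, a) ∈ K) (hb : (c, b) ∈ K) (hab : a ≠ b) :
    ∃ f : unitInterval → Fan K, Continuous f ∧ Function.Injective f ∧
      (∀ t, (f t : ℝ × ℝ) = pr (c, (1 - (t : ℝ)) * a + t * b)) := by
  have hmem : ∀ t : unitInterval, (c, (1 - (t : ℝ)) * a + t * b) ∈ K := by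
    intro t
    have h1 := t.2.1
    have h2 := t.2.2
    have ha0 := hK.nonneg _ ha
    have hb0 := hK.nonneg _ hb
    simp only at ha0 hb0
    rcases le_total a b with h | h
    · refine hK.down c b _ hb ?_ ?_
      · nlinarith
      · nlinarith
    · refine hK.down c a _ ha ?_ ?_
      · nlinarith
      · nlinarith
  refine ⟨fun t => ⟨pr (c, (1 - (t : ℝ)) * a + t * b), _, hmem t, rfl⟩, ?_, ?_, fun t => rfl⟩
  · apply Continuous.subtype_mk
    apply pr_cont.comp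
    fun_prop
  · intro t t' h
    have h1 := congrArg Subtype.val h
    have h2 := pr_snd_eq h1
    simp only at h2
    have h3 : ((t : ℝ) - t') * (b - a) = 0 := by linarith
    rcases mul_eq_zero.1 h3 with h4 | h4
    · exact Subtype.ext (by linarith)
    · exact absurd (by linarith) hab

lemma blade_isArc (hK : Good K) {c : Cs} {s : ℝ} (hs : 0 < s) (h : (c, s) ∈ K) :
    IsArc (Subtype.val ⁻¹' ((fun u => pr (c, u)) '' Icc 0 s) : Set (Fan K)) (top hK) (pt c s h) := by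
  obtain ⟨f, hf, hfi, hft⟩ := seg_arc hK (hK.zero c) h hs.ne
  refine ⟨f, hf, hfi, ?_, ?_, ?_⟩
  · apply Subtype.ext
    rw [hft]
    have h1 : (1 - ((0 : unitInterval) : ℝ)) * 0 + ((0 : unitInterval) : ℝ) * s = 0 := by simp
    rw [h1, pr_zero]; rfl
  · apply Subtype.ext
    rw [hft]
    simp [pt]
  · ext p
    constructor
    · rintro ⟨t, rfl⟩
      refine ⟨_, ?_, (hft t).symm⟩
      have h1 := t.2.1
      have h2 := t.2.2
      constructor <;> nlinarith
    · rintro ⟨u, ⟨hu0, hu1⟩, hup⟩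
      refine ⟨⟨u / s, div_nonneg hu0 hs.le, (div_le_one hs).2 hu1⟩, ?_⟩
      apply Subtype.ext
      rw [hft, ← hup]
      simp only [mul_zero, zero_add]
      congr 2
      field_simp

/-- Uniqueness of arcs from the top. -/
lemma arc_unique (hK : Good K) {A : Set (Fan K)} {c : Cs} {s : ℝ} (hs : 0 < s) (h : (c, s) ∈ K)
    (hA : IsArc A (top hK) (pt c s h)) :
    A = Subtype.val ⁻¹' ((fun u => pr (c, u)) '' Icc 0 s) := by
  obtain ⟨f, hf, hfi, hf0, hf1, hfr⟩ := hA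
  obtain ⟨hAc, hAp, hAK⟩ := arc_range hf
  have h0 : ((0:ℝ), (0:ℝ)) ∈ Set.range (fun t => (f t : ℝ × ℝ)) := ⟨0, by simp only; rw [hf0]; rfl⟩
  have hs' : pr (c, s) ∈ Set.range (fun t => (f t : ℝ × ℝ)) := ⟨1, by simp only; rw [hf1]; rfl⟩
  have hsub : ∀ u, 0 ≤ u → u ≤ s → pr (c, u) ∈ Set.range (fun t => (f t : ℝ × ℝ)) :=
    fun u hu0 hu1 => star hK hAK hAc hAp h0 h hs' hu0 hu1
  -- the segment as a subset of the range
  set Sg : Set (Fan K) := Subtype.val ⁻¹' ((fun u => pr (c, u)) '' Icc 0 s) with hSg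
  have hSgA : Sg ⊆ Set.range f := by
    rintro p ⟨u, ⟨hu0, hu1⟩, hup⟩
    obtain ⟨t, ht⟩ := hsub u hu0 hu1
    exact ⟨t, Subtype.ext (ht.trans hup)⟩
  obtain ⟨g, hg, hgi, hg0, hg1, hgr⟩ := blade_isArc hK hs h
  have hemb : IsClosedEmbedding f := hf.isClosedEmbedding hfi
  have hpre : IsPreconnected (f ⁻¹' Sg) := by
    have h1 : f ⁻¹' Sg = f ⁻¹' (Set.range g) := by rw [hgr]
    rw [h1]
    apply (isPreconnected_range hg).preimage_of_isClosedMap hfi hemb.isClosedMap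
    rw [hgr]; exact hSgA
  have hall : f ⁻¹' Sg = univ := by
    apply eq_univ_of_forall
    intro t
    apply hpre.ordConnected.out (x := 0) (y := 1) ?_ ?_ ⟨unitInterval.nonneg', unitInterval.le_one'⟩
    · show f 0 ∈ Sg
      rw [hf0, ← hg0, hSg, ← hgr]; exact ⟨0, rfl⟩
    · show f 1 ∈ Sg
      rw [hf1, ← hg1, hSg, ← hgr]; exact ⟨1, rfl⟩
  rw [← hfr]
  apply subset_antisymm
  · rintro _ ⟨t, rfl⟩
    have : t ∈ f ⁻¹' Sg := by rw [hall]; trivial
    exact this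
  · exact hSgA

end Pool.Agent.H545R3.Fan
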