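import Pool.Agent.H545R3.FanProp

set_option autoImplicit false
set_option linter.unusedVariables false
set_option linter.unusedSectionVars false
set_option linter.dupNamespace false
set_option linter.unusedSimpArgs false

namespace Pool.Agent.H545R3.Fan

open Set Topology Filter

abbrev St := ℕ × ℕ × ℕ

/-- Reading the digits of `c`: the state is the triple of the three last (shifted) positions of
digits `1` read so far. -/
def st (c : Cs) : ℕ → St
  | 0 => (0, 1, 2)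
  | n + 1 => if c n then ((st c n).2.1, (st c n).2.2, n + 3) else st c n

lemma st_succ_true {c : Cs} {n : ℕ} (h : c n = true) :
    st c (n+1) = ((st c n).2.1, (st c n).2.2, n + 3) := by
  simp [st, h]

lemma st_succ_false {c : Cs} {n : ℕ} (h : c n = false) : st c (n+1) = st c n := by
  simp [st, h]

lemma st_valid (c : Cs) (n : ℕ) :
    (st c n).1 < (st c n).2.1 ∧ (st c n).2.1 < (st c n).2.2 ∧ (st c n).2.2 < n + 3 := by
  induction n with
  | zero => simp [st]
  | succ n ih =>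
    rcases hc : c n with _ | _
    · rw [st_succ_false hc]; omega
    · rw [st_succ_true hc]; simp only; omega

lemma st_congr {c d : Cs} {n : ℕ} (h : ∀ k < n, d k = c k) : st d n = st c n := by
  induction n with
  | zero => rfl
  | succ n ih =>
    have h1 := ih (fun k hk => h k (by omega))
    simp only [st, h1, h n (by omega)]

lemma st_cont (n : ℕ) : Continuous (fun c : Cs => st c n) := by
  induction n with
  | zero => exact continuous_const
  | succ n ih =>
    have h1 : Continuous (fun c : Cs => (c n, st c n)) := (continuous_apply n).prodMk ih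
    exact (continuous_of_discreteTopology (f := fun p : Bool × St =>
      if p.1 then (p.2.2.1, p.2.2.2, n + 3) else p.2)).comp h1

/-- `c` is supported in `[0,m)`. -/
def Sup (c : Cs) (m : ℕ) : Prop := ∀ n, m ≤ n → c n = false

lemma st_const {c : Cs} {m : ℕ} (h : Sup c m) {n : ℕ} (hn : m ≤ n) : st c n = st c m := by
  induction n, hn using Nat.le_induction with
  | base => rfl
  | succ n hn ih => rw [st_succ_false (h n hn), ih]

lemma inv (c d : Cs) (m : ℕ) (h : ∀ n, m ≤ n → c n = d n) (n : ℕ) (hn : m ≤ n) :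
    ((∀ k, m ≤ k → k < n → c k = false) ∧ st c n = st c m ∧ st d n = st d m) ∨
    (∃ q, m + 3 ≤ q ∧ q < n + 3 ∧ st c n = ((st c m).2.1, (st c m).2.2, q) ∧
      st d n = ((st d m).2.1, (st d m).2.2, q)) ∨
    (∃ q r, m + 3 ≤ q ∧ q < r ∧ r < n + 3 ∧ st c n = ((st c m).2.2, q, r) ∧
      st d n = ((st d m).2.2, q, r)) ∨
    (∃ p q r, m + 3 ≤ p ∧ p < q ∧ q < r ∧ r < n + 3 ∧ st c n = (p, q, r) ∧ st d n = (p, q, r)) := by
  induction n, hn using Nat.le_induction with
  | base => exact Or.inl ⟨fun k h1 h2 => absurd h2 (by omega), rfl, rfl⟩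
  | succ n hn ih =>
    rcases hc : c n with _ | _
    · have hd : d n = false := by rw [← h n hn]; exact hc
      rw [st_succ_false hc, st_succ_false hd]
      rcases ih with ⟨h1, h2, h3⟩ | ⟨q, h1, h2, h3⟩ | ⟨q, r, h1, h2, h3, h4⟩ |
        ⟨p, q, r, h1, h2, h3, h4, h5⟩
      · refine Or.inl ⟨?_, h2, h3⟩
        intro k hk1 hk2
        rcases Nat.lt_succ_iff_lt_or_eq.1 hk2 with hk | hk
        · exact h1 k hk1 hk
        · rw [hk]; exact hc
      · exact Or.inr (Or.inl ⟨q, h1, by omega, h3⟩)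
      · exact Or.inr (Or.inr (Or.inl ⟨q, r, h1, h2, by omega, h4⟩))
      · exact Or.inr (Or.inr (Or.inr ⟨p, q, r, h1, h2, h3, by omega, h5⟩))
    · have hd : d n = true := by rw [← h n hn]; exact hc
      rw [st_succ_true hc, st_succ_true hd]
      rcases ih with ⟨h1, h2, h3⟩ | ⟨q, h1, h2, h3, h3'⟩ | ⟨q, r, h1, h2, h3, h4, h4'⟩ |
        ⟨p, q, r, h1, h2, h3, h4, h5, h5'⟩
      · refine Or.inr (Or.inl ⟨n + 3, by omega, by omega, ?_, ?_⟩)
        · rw [h2]
        · rw [h3]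
      · refine Or.inr (Or.inr (Or.inl ⟨q, n + 3, h1, h2, by omega, ?_, ?_⟩))
        · rw [h3]
        · rw [h3']
      · refine Or.inr (Or.inr (Or.inr ⟨q, r, n + 3, h1, h2, h3, by omega, ?_, ?_⟩))
        · rw [h4]
        · rw [h4']
      · refine Or.inr (Or.inr (Or.inr ⟨q, r, n + 3, by omega, h3, h4, by omega, ?_, ?_⟩))
        · rw [h5]
        · rw [h5']

/-- Admissible weights, with the two marks. -/
structure Wt (ψ ma mb : St → ℝ) : Prop where
  pos : ∀ p, 0 < ψ p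
  anti : ∀ x y z w, x < y → y < z → z < w → ψ (y, z, w) ≤ ψ (x, y, z)
  bound : ∀ x y z, x < y → y < z → ψ (x, y, z) ≤ 2 * (1/4) ^ x
  ma_pos : ∀ x y z, x < y → y < z → 0 < ma (x, y, z)
  ma_lt : ∀ x y z, x < y → y < z → ma (x, y, z) < mb (x, y, z)
  mb_lt : ∀ x y z, x < y → y < z → mb (x, y, z) < ψ (x, y, z)
  acc1 : ∀ x y z q, x < y → y < z → z < q → ψ (y, z, q) = ma (x, y, z) ∨ ψ (y, z, q) = mb (x, y, z)
  acc2 : ∀ x y z q r, x < y → y < z → z < q → q < r → ψ (z, q, r) = ma (x, y, z) ∨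
    ψ (z, q, r) = mb (x, y, z) ∨ ψ (z, q, r) ≤ 2 * (1/4) ^ q
  realA : ∀ x y z N, x < y → y < z → (∃ q, N ≤ q ∧ ψ (y, z, q) = ma (x, y, z)) ∨
    (∃ q r, N ≤ q ∧ q < r ∧ ψ (z, q, r) = ma (x, y, z))
  realB : ∀ x y z N, x < y → y < z → (∃ q, N ≤ q ∧ ψ (y, z, q) = mb (x, y, z)) ∨
    (∃ q r, N ≤ q ∧ q < r ∧ ψ (z, q, r) = mb (x, y, z))
  homog : ∀ m x y z x' y' z', x < y → y < z → z < m + 3 → x' < y' → y' < z' → z' < m + 3 →
    ∃ G : ℝ ≃o ℝ, G 0 = 0 ∧ G (ψ (x, y, z)) = ψ (x', y', z') ∧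
      (∀ q, m + 3 ≤ q → G (ψ (y, z, q)) = ψ (y', z', q)) ∧
      (∀ q r, m + 3 ≤ q → q < r → G (ψ (z, q, r)) = ψ (z', q, r)) ∧
      (∀ p q r, m + 3 ≤ p → p < q → q < r → G (ψ (p, q, r)) = ψ (p, q, r))

variable {ψ ma mb : St → ℝ}

/-- The region below the graph. -/
def KK (ψ : St → ℝ) : Set (Cs × ℝ) := {q | 0 ≤ q.2 ∧ ∀ n, q.2 ≤ ψ (st q.1 n)}

lemma psi_anti (W : Wt ψ ma mb) (c : Cs) {n k : ℕ} (h : n ≤ k) : ψ (st c k) ≤ ψ (st c n) := by
  induction k, h using Nat.le_induction with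
  | base => exact le_rfl
  | succ k hk ih =>
    refine le_trans ?_ ih
    rcases hc : c k with _ | _
    · rw [st_succ_false hc]
    · rw [st_succ_true hc]
      obtain ⟨h1, h2, h3⟩ := st_valid c k
      exact W.anti _ _ _ _ h1 h2 h3

lemma mem_iff_ge (W : Wt ψ ma mb) {c : Cs} {s : ℝ} (m : ℕ) :
    (c, s) ∈ KK ψ ↔ 0 ≤ s ∧ ∀ n, m ≤ n → s ≤ ψ (st c n) := by
  constructor
  · rintro ⟨h1, h2⟩
    exact ⟨h1, fun n _ => h2 n⟩
  · rintro ⟨h1, h2⟩
    exact ⟨h1, fun n => (h2 (max m n) (le_max_left _ _)).trans (psi_anti W c (le_max_right _ _))⟩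

lemma mem_iff_sup (W : Wt ψ ma mb) {c : Cs} {s : ℝ} {m : ℕ} (hc : Sup c m) :
    (c, s) ∈ KK ψ ↔ 0 ≤ s ∧ s ≤ ψ (st c m) := by
  rw [mem_iff_ge W m]
  constructor
  · rintro ⟨h1, h2⟩
    exact ⟨h1, h2 m le_rfl⟩
  · rintro ⟨h1, h2⟩
    exact ⟨h1, fun n hn => by rw [st_const hc hn]; exact h2⟩

lemma tip_mem (W : Wt ψ ma mb) {c : Cs} {m : ℕ} (hc : Sup c m) : (c, ψ (st c m)) ∈ KK ψ :=
  (mem_iff_sup W hc).2 ⟨(W.pos _).le, le_rfl⟩

/-- the zero sequence -/
def z0 : Cs := fun _ => false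

lemma good (W : Wt ψ ma mb) : Good (KK ψ) where
  comp := by
    have h1 : KK ψ ⊆ (univ : Set Cs) ×ˢ Icc (0:ℝ) (ψ (0, 1, 2)) := by
      rintro ⟨c, s⟩ ⟨h1, h2⟩
      exact ⟨trivial, h1, h2 0⟩
    refine (isCompact_univ.prod isCompact_Icc).of_isClosed_subset ?_ h1
    have h2 : KK ψ = {q : Cs × ℝ | 0 ≤ q.2} ∩ ⋂ n, {q : Cs × ℝ | q.2 ≤ ψ (st q.1 n)} := by
      ext q; simp [KK]
    rw [h2]
    apply (isClosed_le continuous_const continuous_snd).inter
    apply isClosed_iInter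
    intro n
    apply isClosed_le continuous_snd
    exact (continuous_of_discreteTopology (f := ψ)).comp ((st_cont n).comp continuous_fst)
  nonneg := fun q hq => hq.1
  down := fun c s s' h h0 hs => ⟨h0, fun n => hs.trans (h.2 n)⟩
  zero := fun c => ⟨le_rfl, fun n => (W.pos _).le⟩
  three := by
    have s1 : Sup z0 0 := fun n _ => rfl
    have s2 : Sup (Function.update z0 0 true) 1 := by
      intro n hn
      rw [Function.update_of_ne (by omega)]; rfl
    have s3 : Sup (Function.update z0 1 true) 2 := by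
      intro n hn
      rw [Function.update_of_ne (by omega)]; rfl
    refine ⟨z0, Function.update z0 0 true, Function.update z0 1 true, _, _, _, ?_, ?_, ?_,
      W.pos _, W.pos _, W.pos _, tip_mem W s1, tip_mem W s2, tip_mem W s3⟩
    · intro h
      have := congrFun h 0
      simp [z0] at this
    · intro h
      have := congrFun h 1
      simp [z0] at this
    · intro h
      have := congrFun h 0
      simp [z0] at this

lemma st_mono (c : Cs) {n k : ℕ} (h : n ≤ k) : (st c n).2.2 ≤ (st c k).2.2 ∧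
    (st c n).2.1 ≤ (st c k).2.1 ∧ (st c n).1 ≤ (st c k).1 := by
  induction k, h using Nat.le_induction with
  | base => exact ⟨le_rfl, le_rfl, le_rfl⟩
  | succ k hk ih =>
    rcases hc : c k with _ | _
    · rw [st_succ_false hc]; exact ih
    · rw [st_succ_true hc]
      have := st_valid c k
      simp only
      omega

lemma sup_of_mem (W : Wt ψ ma mb) {c : Cs} {s : ℝ} (h : (c, s) ∈ KK ψ) (hs : 0 < s) :
    ∃ m, Sup c m := by
  by_contra hcon
  have h1 : ∀ m, ∃ n, m ≤ n ∧ c n = true := by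
    intro m
    by_contra h2
    push Not at h2
    apply hcon
    refine ⟨m, fun n hn => ?_⟩
    simpa using h2 n hn
  have h2 : ∀ k, s ≤ 2 * (1/4) ^ k := by
    intro k
    obtain ⟨n₁, hn₁, hc₁⟩ := h1 k
    obtain ⟨n₂, hn₂, hc₂⟩ := h1 (n₁ + 1)
    obtain ⟨n₃, hn₃, hc₃⟩ := h1 (n₂ + 1)
    have e1 : k ≤ (st c (n₁+1)).2.2 := by rw [st_succ_true hc₁]; simp only; omega
    have e2 : k ≤ (st c (n₂+1)).2.1 := by
      rw [st_succ_true hc₂]; simp only
      exact e1.trans (st_mono c hn₂).1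
    have e3 : k ≤ (st c (n₃+1)).1 := by
      rw [st_succ_true hc₃]; simp only
      exact e2.trans (st_mono c hn₃).2.1
    obtain ⟨v1, v2, v3⟩ := st_valid c (n₃+1)
    refine (h.2 (n₃ + 1)).trans ((W.bound _ _ _ v1 v2).trans ?_)
    have : ((1:ℝ)/4) ^ (st c (n₃+1)).1 ≤ (1/4) ^ k := pow_le_pow_of_le_one (by norm_num) (by norm_num) e3
    linarith
  have h3 : Tendsto (fun k : ℕ => 2 * ((1:ℝ)/4) ^ k) atTop (𝓝 (2 * 0)) :=
    (tendsto_pow_atTop_nhds_zero_of_lt_one (by norm_num) (by norm_num)).const_mul 2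
  rw [mul_zero] at h3
  have := ge_of_tendsto' h3 h2
  linarith

lemma sup_mono {c : Cs} {m n : ℕ} (h : Sup c m) (hmn : m ≤ n) : Sup c n :=
  fun k hk => h k (hmn.trans hk)

/-- Endpoints of the fan are the tips over finitely supported sequences. -/
lemma endpoint_iff' (W : Wt ψ ma mb) (e : Fan (KK ψ)) : IsEndpoint e ↔
    ∃ c m, ∃ h : Sup c m, e = pt c (ψ (st c m)) (tip_mem W h) := by
  rw [endpoint_iff (good W)]
  constructor
  · rintro ⟨c, s, h, hs, htip, rfl⟩
    obtain ⟨m, hm⟩ := sup_of_mem W h hs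
    have h1 := ((mem_iff_sup W hm).1 h).2
    have h2 := htip _ (tip_mem W hm)
    have h3 : s = ψ (st c m) := le_antisymm h1 h2
    subst h3
    exact ⟨c, m, hm, rfl⟩
  · rintro ⟨c, m, hm, rfl⟩
    exact ⟨c, _, tip_mem W hm, W.pos _, fun u hu => ((mem_iff_sup W hm).1 hu).2, rfl⟩

end Pool.Agent.H545R3.Fan
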