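import Mathlib

set_option autoImplicit false
set_option linter.unusedVariables false
set_option linter.unusedSectionVars false

namespace Pool.Agent.H545R3.JonesT

open Set Topology Filter

variable {S : Type*} [TopologicalSpace S]

/-- Jones's set function. -/
def T (A : Set S) : Set S :=
  {p : S | ∀ W : Set S, IsCompact W → IsConnected W → W ∈ nhds p → (W ∩ A).Nonempty}

lemma T_mono {A B : Set S} (h : A ⊆ B) : T A ⊆ T B :=
  fun _ hp W hc hW hn => (hp W hc hW hn).mono (inter_subset_inter_right _ h)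

lemma subset_T (A : Set S) : A ⊆ T A :=
  fun p hp W _ _ hn => ⟨p, mem_of_mem_nhds hn, hp⟩

lemma notMem_T {A : Set S} {p : S} :
    p ∉ T A ↔ ∃ W : Set S, IsCompact W ∧ IsConnected W ∧ W ∈ 𝓝 p ∧ W ∩ A = ∅ := by
  simp only [T, mem_ofPred_eq, not_forall, Set.not_nonempty_iff_eq_empty, exists_prop]

lemma T_empty [CompactSpace S] [ConnectedSpace S] : T (∅ : Set S) = ∅ := by
  ext p
  simp only [mem_empty_iff_false, iff_false]
  rw [notMem_T]
  exact ⟨univ, isCompact_univ, isConnected_univ, univ_mem, by simp⟩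

lemma isClosed_T (A : Set S) : IsClosed (T A) := by
  rw [← isOpen_compl_iff, isOpen_iff_mem_nhds]
  intro p hp
  obtain ⟨W, hc, hW, hn, hd⟩ := notMem_T.1 hp
  have h2 : ∀ᶠ q in 𝓝 p, W ∈ 𝓝 q := eventually_mem_nhds_iff.2 hn
  filter_upwards [h2] with q hq
  exact notMem_T.2 ⟨W, hc, hW, hq, hd⟩

/-- A compact set missing `T A` is covered by the interiors of finitely many continua missing `A`. -/
lemma cover [CompactSpace S] [T2Space S] {A K : Set S} (hK : IsCompact K) (h : Disjoint K (T A)) :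
    ∃ (t : Finset S) (W : S → Set S), (∀ p ∈ t, IsCompact (W p) ∧ IsConnected (W p) ∧ W p ∩ A = ∅) ∧
      K ⊆ ⋃ p ∈ t, interior (W p) := by
  have h1 : ∀ p : S, ∃ W : Set S, p ∈ K →
      (IsCompact W ∧ IsConnected W ∧ W ∈ 𝓝 p ∧ W ∩ A = ∅) := by
    intro p
    by_cases hp : p ∈ K
    · obtain ⟨W, hW⟩ := notMem_T.1 (Set.disjoint_left.1 h hp)
      exact ⟨W, fun _ => hW⟩
    · exact ⟨∅, fun h' => absurd h' hp⟩
  choose W hW using h1
  obtain ⟨t, htU, ht⟩ := hK.elim_nhds_subcover (fun p => interior (W p))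
    (fun p hp => interior_mem_nhds.2 (hW p hp).2.2.1)
  exact ⟨t, W, fun p hp => ⟨(hW p (htU p hp)).1, (hW p (htU p hp)).2.1, (hW p (htU p hp)).2.2.2⟩, ht⟩

/-- Upper semicontinuity of `T`. -/
lemma usc [CompactSpace S] [T2Space S] {A U : Set S} (hU : IsOpen U) (h : T A ⊆ U) :
    ∃ O, IsOpen O ∧ A ⊆ O ∧ ∀ A' ⊆ O, T A' ⊆ U := by
  have hK : IsCompact Uᶜ := hU.isClosed_compl.isCompact
  obtain ⟨t, W, hW, ht⟩ := cover (A := A) hK (disjoint_compl_left_iff_subset.2 h)
  refine ⟨(⋃ p ∈ t, W p)ᶜ, ?_, ?_, ?_⟩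
  · rw [isOpen_compl_iff]
    exact isClosed_biUnion_finset (fun p hp => (hW p hp).1.isClosed)
  · intro a ha ha'
    simp only [mem_iUnion] at ha'
    obtain ⟨p, hp, hap⟩ := ha'
    have := (hW p hp).2.2
    exact (this ▸ (⟨hap, ha⟩ : a ∈ W p ∩ A) : a ∈ (∅ : Set S))
  · intro A' hA' q hq
    by_contra hqU
    have h3 := ht hqU
    simp only [mem_iUnion] at h3
    obtain ⟨p, hp, hqp⟩ := h3
    obtain ⟨a, ha, haA⟩ := hq (W p) (hW p hp).1 (hW p hp).2.1 (mem_interior_iff_mem_nhds.1 hqp)
    exact hA' haA (mem_biUnion hp ha)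

/-- A point having a neighbourhood that is a finite union of connected sets has a
continuum neighbourhood inside the union of closures. -/
lemma finite_union [CompactSpace S] {ι : Type*} {t : Finset ι} {X : ι → Set S} {p : S}
    (hX : ∀ i ∈ t, IsPreconnected (X i)) (hp : (⋃ i ∈ t, X i) ∈ 𝓝 p) :
    ∃ E : Set S, IsCompact E ∧ IsConnected E ∧ E ∈ 𝓝 p ∧ E ⊆ ⋃ i ∈ t, closure (X i) := by
  classical
  set t' := t.filter (fun i => p ∈ closure (X i)) with ht'
  refine ⟨⋃ i ∈ t', closure (X i), ?_, ?_, ?_, ?_⟩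
  · exact t'.isCompact_biUnion (fun i _ => isClosed_closure.isCompact)
  · constructor
    · have hp' := mem_of_mem_nhds hp
      simp only [mem_iUnion] at hp'
      obtain ⟨i, hi, hpi⟩ := hp'
      have hi' : i ∈ t' := by
        rw [ht', Finset.mem_filter]
        exact ⟨hi, subset_closure hpi⟩
      exact ⟨p, mem_biUnion hi' (subset_closure hpi)⟩
    · have h1 : (⋃ i ∈ t', closure (X i)) = ⋃₀ ((fun i => closure (X i)) '' (t' : Set ι)) := by
        rw [sUnion_image]; rfl
      rw [h1]
      refine isPreconnected_sUnion p _ ?_ ?_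
      · rintro _ ⟨i, hi, rfl⟩
        exact (Finset.mem_filter.1 (Finset.mem_coe.1 hi)).2
      · rintro _ ⟨i, hi, rfl⟩
        exact (hX i (Finset.mem_filter.1 (Finset.mem_coe.1 hi)).1).closure
  · have h2 : (⋃ i ∈ t \ t', closure (X i))ᶜ ∈ 𝓝 p := by
      refine IsOpen.mem_nhds ?_ ?_
      · rw [isOpen_compl_iff]
        exact isClosed_biUnion_finset (fun i _ => isClosed_closure)
      · intro h
        simp only [mem_iUnion] at h
        obtain ⟨i, hi, hpi⟩ := h
        rw [Finset.mem_sdiff, ht', Finset.mem_filter] at hi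
        exact hi.2 ⟨hi.1, hpi⟩
    filter_upwards [hp, h2] with x hx hx2
    simp only [mem_iUnion] at hx
    obtain ⟨i, hi, hxi⟩ := hx
    have hi' : i ∈ t' := by
      by_contra hc
      exact hx2 (mem_biUnion (Finset.mem_coe.2 (Finset.mem_sdiff.2 ⟨hi, hc⟩)) (subset_closure hxi))
    exact mem_biUnion hi' (subset_closure hxi)
  · intro x hx
    simp only [mem_iUnion] at hx ⊢
    obtain ⟨i, hi, hxi⟩ := hx
    exact ⟨i, (Finset.mem_filter.1 hi).1, hxi⟩

lemma exists_clopen {X : Type*} [TopologicalSpace X] [T2Space X] [CompactSpace X] {x : X}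
    {O : Set X} (hO : IsOpen O) (h : connectedComponent x ⊆ O) :
    ∃ V : Set X, IsClopen V ∧ x ∈ V ∧ V ⊆ O := by
  rw [connectedComponent_eq_iInter_isClopen] at h
  have H1 := hO.isClosed_compl.isCompact.inter_iInter_nonempty
      (fun s : { s : Set X // IsClopen s ∧ x ∈ s } => s) fun s => s.2.1.1
  rw [← not_disjoint_iff_nonempty_inter, imp_not_comm, not_forall] at H1
  obtain ⟨si, H2⟩ := H1 (disjoint_compl_left_iff_subset.2 h)
  refine ⟨⋂ U ∈ si, Subtype.val U, ?_, ?_, ?_⟩
  · exact isClopen_biInter_finset fun s _ => s.2.1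
  · exact mem_iInter₂.2 fun s _ => s.2.2
  · rwa [← disjoint_compl_left_iff_subset, disjoint_iff_inter_eq_empty,
      ← not_nonempty_iff_eq_empty]

/-- Boundary bumping: if `W` is a continuum not contained in the open set `U`, every component of
`W ∩ closure U` meets the frontier of `U`. -/
lemma bumping [T2Space S] {W U : Set S} (hc : IsCompact W) (hW : IsPreconnected W)
    (hU : IsOpen U) (hWU : ¬ W ⊆ U) {x : S} (hx : x ∈ W ∩ closure U) :
    (connectedComponentIn (W ∩ closure U) x ∩ frontier U).Nonempty := by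
  classical
  set E := W ∩ closure U with hE
  have hEc : IsCompact E := hc.inter_right isClosed_closure
  have : CompactSpace E := isCompact_iff_compactSpace.1 hEc
  by_contra hne
  rw [Set.not_nonempty_iff_eq_empty] at hne
  have h2 : connectedComponent (⟨x, hx⟩ : E) ⊆ ((↑) ⁻¹' (frontier U)ᶜ : Set E) := by
    intro y hy hyF
    have : (y : S) ∈ connectedComponentIn E x := by
      rw [connectedComponentIn_eq_image hx]
      exact ⟨y, hy, rfl⟩
    exact (hne ▸ (⟨this, hyF⟩ : (y : S) ∈ _ ∩ frontier U) : (y : S) ∈ (∅ : Set S))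
  obtain ⟨V, hV, hxV, hVF⟩ := exists_clopen
    (isClosed_frontier.isOpen_compl.preimage continuous_subtype_val) h2
  obtain ⟨O, hO, hOV⟩ := isOpen_induced_iff.1 hV.isOpen
  set V' : Set S := (↑) '' V with hV'
  have hV'c : IsClosed V' := (hV.isClosed.isCompact.image continuous_subtype_val).isClosed
  have hV'U : V' ⊆ U := by
    rintro _ ⟨y, hy, rfl⟩
    have h3 : (y : S) ∉ frontier U := hVF hy
    have h4 : (y : S) ∈ closure U := y.2.2
    rw [frontier, hU.interior_eq, Set.mem_sdiff, not_and_not_right] at h3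
    exact h3 h4
  have hV'eq : ∀ y ∈ W, y ∈ U ∩ O → y ∈ V' := by
    intro y hyW hy
    refine ⟨⟨y, hyW, subset_closure hy.1⟩, ?_, rfl⟩
    rw [← hOV]
    exact hy.2
  have hV'O : V' ⊆ O := by
    rintro _ ⟨y, hy, rfl⟩
    rw [← hOV] at hy
    exact hy
  have hV'W : V' ⊆ W := by
    rintro _ ⟨y, hy, rfl⟩
    exact y.2.1
  have hxV' : x ∈ V' := ⟨⟨x, hx⟩, hxV, rfl⟩
  apply hWU
  intro y hyW
  apply hV'U
  by_contra hyV
  obtain ⟨z, hzW, hz1, hz2⟩ := hW (U ∩ O) V'ᶜ (hU.inter hO) hV'c.isOpen_compl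
    (fun z hz => by
      by_cases hzV : z ∈ V'
      · exact Or.inl ⟨hV'U hzV, hV'O hzV⟩
      · exact Or.inr hzV)
    ⟨x, hV'W hxV', hV'U hxV', hV'O hxV'⟩ ⟨y, hyW, hyV⟩
  exact hz2 (hV'eq z hzW hz1)

/-- Separation lemma. -/
lemma separation [CompactSpace S] [T2Space S] {A M N : Set S} {p : S}
    (hM : IsClosed M) (hN : IsClosed N) (hMN : Disjoint M N) (hT : T A ⊆ M ∪ N) (hp : p ∈ T A)
    (hpM : p ∈ M) : p ∈ T (A ∩ M) := by
  classical
  by_contra hcon
  obtain ⟨W, hWc, hWconn, hWp, hWA⟩ := notMem_T.1 hcon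
  obtain ⟨U, hU, hMU, hUN⟩ := normal_exists_closure_subset hM hN.isOpen_compl
    (Set.disjoint_left.1 hMN)
  have hWA' : ∀ a ∈ W, a ∈ closure U → a ∉ A := by
    intro a haW haU haA
    rcases hT (subset_T A haA) with h | h
    · exact (hWA ▸ (⟨haW, haA, h⟩ : a ∈ W ∩ (A ∩ M)) : a ∈ (∅ : Set S))
    · exact hUN haU h
  by_cases hWU : W ⊆ U
  · obtain ⟨a, haW, haA⟩ := hp W hWc hWconn hWp
    exact hWA' a haW (subset_closure (hWU haW)) haA
  -- cover the frontier
  have hfr : Disjoint (frontier U) (T A) := by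
    rw [Set.disjoint_left]
    intro b hb hbT
    rcases hT hbT with h | h
    · have := hMU h
      rw [frontier, hU.interior_eq] at hb
      exact hb.2 this
    · exact hUN (frontier_subset_closure hb) h
  obtain ⟨t, R, hR, ht⟩ := cover (A := A) (isClosed_frontier.isCompact) hfr
  set E := W ∩ closure U with hE
  set X : S → Set S := fun b => ⋃₀ {K | K = R b ∨ ∃ x ∈ E, (connectedComponentIn E x ∩ R b).Nonempty ∧
    K = connectedComponentIn E x ∪ R b} with hX
  have hXconn : ∀ b ∈ t, IsPreconnected (X b) := by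
    intro b hb
    obtain ⟨r, hr⟩ := (hR b hb).2.1.nonempty
    refine isPreconnected_sUnion r _ ?_ ?_
    · rintro K (rfl | ⟨x, hx, hne, rfl⟩)
      · exact hr
      · exact Or.inr hr
    · rintro K (rfl | ⟨x, hx, ⟨z, hz1, hz2⟩, rfl⟩)
      · exact (hR b hb).2.1.isPreconnected
      · exact IsPreconnected.union z hz1 hz2 isPreconnected_connectedComponentIn
          (hR b hb).2.1.isPreconnected
  have hXp : (⋃ b ∈ t, X b) ∈ 𝓝 p := by
    have hUp : U ∈ 𝓝 p := hU.mem_nhds (hMU hpM)
    filter_upwards [hWp, hUp] with x hxW hxU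
    have hxE : x ∈ E := ⟨hxW, subset_closure hxU⟩
    obtain ⟨z, hz1, hz2⟩ := bumping hWc hWconn.isPreconnected hU hWU hxE
    have := ht hz2
    simp only [mem_iUnion] at this
    obtain ⟨b, hb, hzb⟩ := this
    refine mem_biUnion hb ?_
    exact ⟨_, Or.inr ⟨x, hxE, ⟨z, hz1, interior_subset hzb⟩, rfl⟩, Or.inl (mem_connectedComponentIn hxE)⟩
  obtain ⟨Y, hYc, hYconn, hYp, hYX⟩ := finite_union hXconn hXp
  obtain ⟨a, haY, haA⟩ := hp Y hYc hYconn hYp
  have := hYX haY
  simp only [mem_iUnion] at this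
  obtain ⟨b, hb, hab⟩ := this
  have hXsub : X b ⊆ R b ∪ E := by
    rintro y ⟨K, (rfl | ⟨x, hx, _, rfl⟩), hy⟩
    · exact Or.inl hy
    · rcases hy with hy | hy
      · exact Or.inr (connectedComponentIn_subset _ _ hy)
      · exact Or.inl hy
  have hcl : IsClosed (R b ∪ E) := (hR b hb).1.isClosed.union (hWc.isClosed.inter isClosed_closure)
  rcases (closure_minimal hXsub hcl) hab with h | h
  · exact ((hR b hb).2.2 ▸ (⟨h, haA⟩ : a ∈ R b ∩ A) : a ∈ (∅ : Set S))
  · exact hWA' a h.1 h.2 haA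

/-- The boundary lemma. -/
lemma bd {C O : Set S} (hC : IsPreconnected C) (hO : IsOpen O) (h1 : (C ∩ O).Nonempty)
    (h2 : ∃ x ∈ C, x ∉ O) : ∃ y ∈ C, y ∉ O ∧ y ∈ closure (C ∩ O) := by
  by_contra hcon
  push Not at hcon
  obtain ⟨x, hxC, hxO⟩ := h2
  obtain ⟨z, hzC, hz1, hz2⟩ := hC O (closure (C ∩ O))ᶜ hO isClosed_closure.isOpen_compl
    (fun z hz => by
      by_cases hzO : z ∈ O
      · exact Or.inl hzO
      · exact Or.inr (hcon z hz hzO)) h1 ⟨x, hxC, hcon x hxC hxO⟩
  exact hz2 (subset_closure ⟨hzC, hz1⟩)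

section Main

variable [CompactSpace S] [T2Space S] [ConnectedSpace S]

/-- lower semicontinuity consequences of the continuity of `T` -/
structure LSC (S : Type*) [TopologicalSpace S] : Prop where
  l1 : ∀ G : Set S, IsClosed G → ∀ U : Set S, IsOpen U → IsOpen {u | (T (insert u G) ∩ U).Nonempty}
  l2 : ∀ A : Set S, IsClosed A → A.Nonempty → ∀ U : Set S, IsOpen U → ∀ D : Set S, A ⊆ closure D →
    (T A ∩ U).Nonempty → ∃ F : Set S, F.Finite ∧ F.Nonempty ∧ F ⊆ D ∧ (T F ∩ U).Nonempty

lemma usc_insert {G : Set S} {U : Set S} (hU : IsOpen U) : IsOpen {u | T (insert u G) ⊆ U} := by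
  rw [isOpen_iff_mem_nhds]
  intro u hu
  obtain ⟨O, hO, hsub, h⟩ := usc hU hu
  have : O ∈ 𝓝 u := hO.mem_nhds (hsub (mem_insert _ _))
  filter_upwards [this] with v hv
  exact h _ (insert_subset hv ((subset_insert _ _).trans hsub))

lemma usc_mem {G : Set S} {c y : S} {Z : Set S} (hy : y ∈ closure Z)
    (hZ : ∀ z ∈ Z, c ∈ T (insert z G)) : c ∈ T (insert y G) := by
  by_contra hcon
  have h1 : IsOpen {u | T (insert u G) ⊆ {c}ᶜ} := usc_insert isClosed_singleton.isOpen_compl
  have h2 : y ∈ {u | T (insert u G) ⊆ {c}ᶜ} := by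
    intro q hq hqc
    rw [mem_singleton_iff] at hqc
    exact hcon (hqc ▸ hq)
  obtain ⟨z, hz1, hz2⟩ := mem_closure_iff.1 hy _ h1 h2
  exact hz1 (hZ z hz2) rfl

lemma lemma1 (L : LSC S) {A : Set S} (hA : IsClosed A) (hAn : A.Nonempty) {p : S} (hp : p ∈ T A)
    {W : Set S} (hWc : IsCompact W) (hW : IsConnected W) (hWp : W ∈ 𝓝 p) :
    (A ∩ interior W).Nonempty := by
  by_contra hcon
  rw [Set.not_nonempty_iff_eq_empty] at hcon
  have h1 : A ⊆ closure Wᶜ := by
    rw [closure_compl]
    intro a ha ha'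
    exact (hcon ▸ (⟨ha, ha'⟩ : a ∈ A ∩ interior W) : a ∈ (∅ : Set S))
  obtain ⟨F, hFf, hFn, hFD, q, hq1, hq2⟩ := L.l2 A hA hAn (interior W) isOpen_interior Wᶜ h1
    ⟨p, hp, mem_interior_iff_mem_nhds.2 hWp⟩
  obtain ⟨a, haW, haF⟩ := hq1 W hWc hW (mem_interior_iff_mem_nhds.1 hq2)
  exact hFD haF haW

lemma idem (L : LSC S) {A B : Set S} (hA : IsClosed A) (hAn : A.Nonempty) (h : B ⊆ T A) :
    T B ⊆ T A := by
  intro q hq W hWc hW hWq
  have hq' : q ∈ T (T A) := T_mono h hq
  obtain ⟨r, hr1, hr2⟩ := lemma1 L (isClosed_T A) (hAn.mono (subset_T A)) hq' hWc hW hWq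
  exact hr1 W hWc hW (mem_interior_iff_mem_nhds.1 hr2)

/-- non-additivity of a set -/
def Nonadd (F : Set S) : Prop := ∃ q ∈ T F, ∀ x ∈ F, q ∉ T {x}

lemma P1' (x : S) : IsPreconnected (T ({x} : Set S)) := by
  rw [isPreconnected_iff_subset_of_fully_disjoint_closed (isClosed_T _)]
  intro u v hu hv huv hd
  by_contra hcon
  push Not at hcon
  obtain ⟨h1, h2⟩ := hcon
  rw [Set.not_subset] at h1 h2
  obtain ⟨a, ha, hau⟩ := h1
  obtain ⟨b, hb, hbv⟩ := h2
  have hav : a ∈ v := (huv ha).resolve_left hau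
  have hbu : b ∈ u := (huv hb).resolve_right hbv
  rcases huv (subset_T _ (mem_singleton x)) with hx | hx
  · have h3 := separation hv hu hd.symm (by rwa [union_comm]) ha hav
    have h4 : ({x} : Set S) ∩ v = ∅ := by
      rw [singleton_inter_eq_empty]
      exact Set.disjoint_left.1 hd hx
    rw [h4, T_empty] at h3
    exact h3
  · have h3 := separation hu hv hd huv hb hbu
    have h4 : ({x} : Set S) ∩ u = ∅ := by
      rw [singleton_inter_eq_empty]
      exact Set.disjoint_right.1 hd hx
    rw [h4, T_empty] at h3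
    exact h3

lemma nonadd_aux {m : ℕ} (hmin : ∀ F : Finset S, F.card < m → ¬ Nonadd (F : Set S))
    {F : Finset S} (hFm : F.card ≤ m) {u v : Set S} (hu : IsClosed u) (hv : IsClosed v)
    (huv : T (F : Set S) ⊆ u ∪ v) (hd : Disjoint u v) {q : S} (hq : q ∈ T (F : Set S))
    (hqF : ∀ x ∈ F, q ∉ T {x}) (hqu : q ∈ u) : T (F : Set S) ⊆ u := by
  classical
  have h1 := separation hu hv hd huv hq hqu
  have h2 : (F : Set S) ∩ u = ((F.filter (fun x => x ∈ u) : Finset S) : Set S) := by
    ext x; simp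
  have h3 : F.filter (fun x => x ∈ u) = F := by
    by_contra hne
    have h4 : F.filter (fun x => x ∈ u) ⊂ F := (Finset.filter_subset _ _).ssubset_of_ne hne
    apply hmin _ (lt_of_lt_of_le (Finset.card_lt_card h4) hFm)
    refine ⟨q, h2 ▸ h1, fun x hx => hqF x ?_⟩
    exact h4.1 hx
  have h5 : (F : Set S) ⊆ u := by
    intro x hx
    rw [← h3] at hx
    exact (Finset.mem_filter.1 (Finset.mem_coe.1 hx)).2
  intro a ha
  by_contra hau
  have hav : a ∈ v := (huv ha).resolve_left hau
  have h6 := separation hv hu hd.symm (by rwa [union_comm]) ha hav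
  have h7 : (F : Set S) ∩ v = ∅ := by
    ext x
    simp only [mem_inter_iff, mem_empty_iff_false, iff_false, not_and]
    intro hx
    exact Set.disjoint_left.1 hd (h5 hx)
  rw [h7, T_empty] at h6
  exact h6

lemma P1 {m : ℕ} (hmin : ∀ F : Finset S, F.card < m → ¬ Nonadd (F : Set S))
    {F : Finset S} (hFm : F.card ≤ m) (hF : Nonadd (F : Set S)) : IsPreconnected (T (F : Set S)) := by
  rw [isPreconnected_iff_subset_of_fully_disjoint_closed (isClosed_T _)]
  intro u v hu hv huv hd
  obtain ⟨q, hq, hqF⟩ := hF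
  rcases huv hq with hqu | hqv
  · exact Or.inl (nonadd_aux hmin hFm hu hv huv hd hq hqF hqu)
  · exact Or.inr (nonadd_aux hmin hFm hv hu (by rwa [union_comm]) hd.symm hq hqF hqv)

lemma isOpen_nonadd (L : LSC S) (G : Finset S) : IsOpen {v : S | Nonadd (insert v (G : Set S))} := by
  rw [isOpen_iff_mem_nhds]
  rintro v0 ⟨q, hq, hqF⟩
  set K : Set S := (T {v0}) ∪ ⋃ x ∈ G, T ({x} : Set S) with hK
  have hKc : IsClosed K := (isClosed_T _).union (isClosed_biUnion_finset (fun x _ => isClosed_T _))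
  have hqK : q ∉ K := by
    rintro (h | h)
    · exact hqF v0 (mem_insert _ _) h
    · simp only [mem_iUnion] at h
      obtain ⟨x, hx, hqx⟩ := h
      exact hqF x (mem_insert_of_mem _ hx) hqx
  obtain ⟨U, hU, hqU, hUK⟩ := normal_exists_closure_subset (isClosed_singleton (x := q))
    hKc.isOpen_compl (singleton_subset_iff.2 hqK)
  have h1 : IsOpen {v | (T (insert v (G : Set S)) ∩ U).Nonempty} :=
    L.l1 _ G.finite_toSet.isClosed U hU
  have h2 : IsOpen {v : S | T (insert v (∅ : Set S)) ⊆ (closure U)ᶜ} :=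
    usc_insert isClosed_closure.isOpen_compl
  have h3 : v0 ∈ {v | (T (insert v (G : Set S)) ∩ U).Nonempty} := ⟨q, hq, hqU rfl⟩
  have h4 : v0 ∈ {v : S | T (insert v (∅ : Set S)) ⊆ (closure U)ᶜ} := by
    simp only [insert_empty_eq, mem_ofPred_eq]
    intro z hz hzU
    exact hUK hzU (Or.inl hz)
  filter_upwards [h1.mem_nhds h3, h2.mem_nhds h4] with v hv1 hv2
  obtain ⟨q', hq', hq'U⟩ := hv1
  refine ⟨q', hq', ?_⟩
  rintro x (rfl | hx) hqx
  · simp only [insert_empty_eq] at hv2
    exact hv2 hqx (subset_closure hq'U)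
  · exact hUK (subset_closure hq'U) (Or.inr (mem_biUnion hx hqx))

lemma P2 (L : LSC S) {m : ℕ} (hm2 : 2 ≤ m)
    (hmin : ∀ F : Finset S, F.card < m → ¬ Nonadd (F : Set S))
    {F : Finset S} (hFm : F.card = m) (hF : Nonadd (F : Set S)) {A : Set S} (hA : IsClosed A)
    (hAF : Disjoint (T (F : Set S)) A) {u : S} (hu : u ∈ F) : u ∉ T A := by
  classical
  obtain ⟨v, hv, hvu⟩ : ∃ v ∈ F, v ≠ u := by
    apply Finset.exists_mem_ne
    omega
  set G := F.erase u with hG
  have hFG : (F : Set S) = insert u (G : Set S) := by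
    rw [← Finset.coe_insert, Finset.insert_erase hu]
  have hvG : v ∈ G := Finset.mem_erase.2 ⟨hvu, hv⟩
  obtain ⟨V, hV, hFV, hVA⟩ := normal_exists_closure_subset (isClosed_T (F : Set S)) hA.isOpen_compl
    (Set.disjoint_left.1 hAF)
  set Nu : Set S := {v | Nonadd (insert v (G : Set S))} ∩ {v | T (insert v (G : Set S)) ⊆ V} with hNu
  have hNuo : IsOpen Nu := (isOpen_nonadd L G).inter (usc_insert hV)
  have huNu : u ∈ Nu := by
    refine ⟨?_, ?_⟩
    · simp only [mem_ofPred_eq]; rw [← hFG]; exact hF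
    · simp only [mem_ofPred_eq]; rw [← hFG]; exact hFV
  set H : Set S := ⋃₀ ((fun u' => T (insert u' (G : Set S))) '' Nu) with hH
  have hHp : IsPreconnected H := by
    refine isPreconnected_sUnion v _ ?_ ?_
    · rintro _ ⟨u', hu', rfl⟩
      exact subset_T _ (mem_insert_of_mem _ hvG)
    · rintro _ ⟨u', hu', rfl⟩
      have h1 := P1 hmin (F := insert u' G) ?_ (by rw [Finset.coe_insert]; exact hu'.1)
      · rw [Finset.coe_insert] at h1; exact h1
      · refine (Finset.card_insert_le _ _).trans ?_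
        rw [hG, Finset.card_erase_of_mem hu]
        omega
  have hNuH : Nu ⊆ H := fun u' hu' => ⟨_, ⟨u', hu', rfl⟩, subset_T _ (mem_insert _ _)⟩
  have hHV : H ⊆ V := by
    rintro x ⟨_, ⟨u', hu', rfl⟩, hx⟩
    exact hu'.2 hx
  rw [notMem_T]
  refine ⟨closure H, isClosed_closure.isCompact, ⟨⟨u, subset_closure (hNuH huNu)⟩, hHp.closure⟩, ?_, ?_⟩
  · exact mem_of_superset (hNuo.mem_nhds huNu) (hNuH.trans subset_closure)
  · rw [← disjoint_iff_inter_eq_empty, Set.disjoint_left]
    intro x hx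
    exact hVA (closure_mono hHV hx)

lemma P3 (L : LSC S) {m : ℕ} (hm2 : 2 ≤ m)
    (hmin : ∀ F : Finset S, F.card < m → ¬ Nonadd (F : Set S))
    (hex : ∃ F : Finset S, F.card = m ∧ Nonadd (F : Set S)) :
    ∃ (G : Finset S) (b : S), b ∉ G ∧ G.card + 1 = m ∧ Nonadd (insert b (G : Set S)) ∧
      ∀ b' ∈ T (insert b (G : Set S)), Nonadd (insert b' (G : Set S)) →
        b ∈ T (insert b' (G : Set S)) := by
  classical
  by_contra hcon
  push Not at hcon
  have hcon' : ∀ (F : Finset S), F.card = m → Nonadd (F : Set S) → ∀ b ∈ F,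
      ∃ b' ∈ T (F : Set S), Nonadd (insert b' ((F.erase b : Finset S) : Set S)) ∧
        b ∉ T (insert b' ((F.erase b : Finset S) : Set S)) := by
    intro F hFm hF b hb
    have h1 : (F : Set S) = insert b ((F.erase b : Finset S) : Set S) := by
      rw [← Finset.coe_insert, Finset.insert_erase hb]
    obtain ⟨b', h2, h3, h4⟩ := hcon (F.erase b) b (Finset.notMem_erase _ _)
      (by rw [Finset.card_erase_of_mem hb]; omega) (by rw [← h1]; exact hF)
    exact ⟨b', by rw [h1]; exact h2, h3, h4⟩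
  obtain ⟨F0, hF0m, hF0⟩ := hex
  have key : ∀ R : Finset S, R ⊆ F0 → ∃ F' : Finset S, F'.card = m ∧ Nonadd (F' : Set S) ∧
      F0 \ R ⊆ F' ∧ T (F' : Set S) ⊆ T (F0 : Set S) ∧ ∀ r ∈ R, r ∉ T (F' : Set S) := by
    intro R
    induction R using Finset.induction_on with
    | empty =>
      intro _
      exact ⟨F0, hF0m, hF0, Finset.sdiff_subset, subset_rfl, fun r hr => absurd hr (Finset.notMem_empty _)⟩
    | insert b R hbR ih =>
      intro hbR'
      obtain ⟨F', h1, h2, h3, h4, h5⟩ := ih ((Finset.subset_insert _ _).trans hbR')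
      have hb : b ∈ F' := h3 (Finset.mem_sdiff.2 ⟨hbR' (Finset.mem_insert_self _ _), hbR⟩)
      obtain ⟨b', hb'1, hb'2, hb'3⟩ := hcon' F' h1 h2 b hb
      have hne : (F' : Set S).Nonempty := ⟨b, hb⟩
      have h6 : T (insert b' ((F'.erase b : Finset S) : Set S)) ⊆ T (F' : Set S) := by
        apply idem L F'.finite_toSet.isClosed hne
        apply insert_subset hb'1
        refine subset_trans ?_ (subset_T _)
        exact Finset.coe_subset.2 (Finset.erase_subset _ _)
      have hcard : (insert b' (F'.erase b)).card = m := by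
        apply le_antisymm
        · refine (Finset.card_insert_le _ _).trans ?_
          rw [Finset.card_erase_of_mem hb]; omega
        · by_contra hlt
          push Not at hlt
          apply hmin _ hlt
          rw [Finset.coe_insert]
          exact hb'2
      refine ⟨insert b' (F'.erase b), hcard, ?_, ?_, ?_, ?_⟩
      · rw [Finset.coe_insert]; exact hb'2
      · intro x hx
        rw [Finset.mem_sdiff, Finset.mem_insert, not_or] at hx
        exact Finset.mem_insert_of_mem (Finset.mem_erase.2 ⟨hx.2.1, h3 (Finset.mem_sdiff.2 ⟨hx.1, hx.2.2⟩)⟩)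
      · rw [Finset.coe_insert]; exact h6.trans h4
      · intro r hr
        rw [Finset.coe_insert]
        rcases Finset.mem_insert.1 hr with rfl | hr
        · exact hb'3
        · exact fun h => h5 r hr (h6 h)
  obtain ⟨F', h1, h2, h3, h4, h5⟩ := key F0 subset_rfl
  have hne : F'.Nonempty := by
    rw [← Finset.card_pos]; omega
  obtain ⟨u, hu⟩ := hne
  refine P2 L hm2 hmin h1 h2 (A := (F0 : Set S)) F0.finite_toSet.isClosed ?_ hu ?_
  · rw [Set.disjoint_right]
    exact fun r hr => h5 r hr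
  · exact h4 (subset_T _ hu)

lemma additive_of_not {F : Set S} (h : ¬ Nonadd F) {q : S} (hq : q ∈ T F) : ∃ x ∈ F, q ∈ T {x} := by
  by_contra hcon
  push Not at hcon
  exact h ⟨q, hq, hcon⟩

theorem no_nonadd (L : LSC S) : ∀ F : Finset S, ¬ Nonadd (F : Set S) := by
  classical
  by_contra hcon0
  push Not at hcon0
  have hex : ∃ m : ℕ, ∃ F : Finset S, F.card = m ∧ Nonadd (F : Set S) := by
    obtain ⟨F, hF⟩ := hcon0
    exact ⟨_, F, rfl, hF⟩
  set m := Nat.find hex with hm
  have hspec := Nat.find_spec hex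
  rw [← hm] at hspec
  have hmin : ∀ F : Finset S, F.card < m → ¬ Nonadd (F : Set S) := by
    intro F hF hF2
    exact Nat.find_min hex hF ⟨F, rfl, hF2⟩
  have hm2 : 2 ≤ m := by
    obtain ⟨F, hFm, q, hq, hqF⟩ := hspec
    by_contra hlt
    have h2 : F.card = 0 ∨ F.card = 1 := by omega
    rcases h2 with h2 | h2
    · rw [Finset.card_eq_zero] at h2
      subst h2
      rw [Finset.coe_empty, T_empty] at hq
      exact hq
    · rw [Finset.card_eq_one] at h2
      obtain ⟨x, rfl⟩ := h2
      rw [Finset.coe_singleton] at hq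
      exact hqF x (by simp) hq
  obtain ⟨G, b, hbG, hGm, hbn, hP3⟩ := P3 L hm2 hmin hspec
  set C := T (insert b (G : Set S)) with hC
  set N : Set S := {v | Nonadd (insert v (G : Set S))} with hN
  have hNo : IsOpen N := isOpen_nonadd L G
  have hGadd : ¬ Nonadd (G : Set S) := hmin G (by omega)
  have hGne : (G : Set S).Nonempty := by
    rw [Finset.coe_nonempty, ← Finset.card_pos]; omega
  have hGc : IsClosed (G : Set S) := G.finite_toSet.isClosed
  have hinsc : ∀ x : S, IsClosed (insert x (G : Set S)) := fun x => (G.finite_toSet.insert x).isClosed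
  have hinsn : ∀ x : S, (insert x (G : Set S)).Nonempty := fun x => insert_nonempty _ _
  have hCp : IsPreconnected C := by
    have := P1 hmin (F := insert b G) ((Finset.card_insert_le _ _).trans hGm.le)
      (by rw [Finset.coe_insert]; exact hbn)
    rwa [Finset.coe_insert] at this
  have hbC : b ∈ C := subset_T _ (mem_insert _ _)
  have hGC : (G : Set S) ⊆ C := (subset_insert _ _).trans (subset_T _)
  have hTC : ∀ x ∈ C, T (insert x (G : Set S)) ⊆ C := by
    intro x hx
    exact idem L (hinsc b) (hinsn b) (insert_subset hx hGC)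
  have hT1C : ∀ x ∈ C, T ({x} : Set S) ⊆ C := fun x hx =>
    idem L (hinsc b) (hinsn b) (singleton_subset_iff.2 hx)
  -- for v in C ∩ N, T(insert v G) = C
  have hCN : ∀ v ∈ C ∩ N, T (insert v (G : Set S)) = C := by
    rintro v ⟨hv1, hv2⟩
    apply subset_antisymm (hTC v hv1)
    apply idem L (hinsc v) (hinsn v)
    exact insert_subset (hP3 v hv1 hv2) ((subset_insert _ _).trans (subset_T _))
  -- N misses T G
  have hNTG : ∀ v ∈ N, v ∉ T (G : Set S) := by
    rintro v ⟨q, hq, hqn⟩ hv
    have h1 : T (insert v (G : Set S)) ⊆ T (G : Set S) :=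
      idem L hGc hGne (insert_subset hv (subset_T _))
    obtain ⟨x, hx, hqx⟩ := additive_of_not hGadd (h1 hq)
    exact hqn x (mem_insert_of_mem _ hx) hqx
  have hCTG : ¬ C ⊆ T (G : Set S) := fun h => hNTG b hbn (h hbC)
  have hbN : b ∈ N := hbn
  have hcl : ∀ y ∈ C, y ∈ closure (C ∩ N) → T (insert y (G : Set S)) = C := by
    intro y hy hyc
    apply subset_antisymm (hTC y hy)
    intro c hc
    exact usc_mem hyc (fun z hz => by rw [hCN z hz]; exact hc)
  -- (*)
  have star : ∀ y0 ∈ C, y0 ∉ N → y0 ∈ closure (C ∩ N) → T ({y0} : Set S) = C := by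
    intro y0 hy0C hy0N hy0c
    have h1 := hcl y0 hy0C hy0c
    have hadd : ¬ Nonadd (insert y0 (G : Set S)) := hy0N
    have h2 : C ⊆ T (G : Set S) ∪ T {y0} := by
      intro c hc
      rw [← h1] at hc
      obtain ⟨x, hx, hcx⟩ := additive_of_not hadd hc
      rcases hx with rfl | hx
      · exact Or.inr hcx
      · exact Or.inl (T_mono (singleton_subset_iff.2 hx) hcx)
    have hy0G : y0 ∉ T (G : Set S) := by
      intro h
      apply hCTG
      rw [← h1]
      exact idem L hGc hGne (insert_subset h (subset_T _))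
    have hy0g : ∀ g ∈ G, y0 ∉ T {g} := fun g hg h => hy0G (T_mono (singleton_subset_iff.2 hg) h)
    have hby0 : b ∈ T {y0} := (h2 hbC).resolve_left (hNTG b hbN)
    have hy0b : y0 ∉ T {b} := by
      intro h
      obtain ⟨q, hq, hqn⟩ := hbn
      rcases h2 hq with h3 | h3
      · obtain ⟨x, hx, hqx⟩ := additive_of_not hGadd h3
        exact hqn x (mem_insert_of_mem _ hx) hqx
      · refine hqn b (mem_insert _ _) ?_
        exact idem L isClosed_singleton (singleton_nonempty b) (singleton_subset_iff.2 h) h3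
    -- the key claim
    have claim : ∀ g ∈ G, ∀ w ∈ T ({g} : Set S), w ∈ T ({y0} : Set S) → g ∈ T ({y0} : Set S) := by
      intro g hg w hwg hwy
      set G' := G.erase g with hG'
      have hGG' : (G : Set S) = insert g (G' : Set S) := by
        rw [← Finset.coe_insert, Finset.insert_erase hg]
      have hG'card : G'.card + 2 = m := by
        rw [hG', Finset.card_erase_of_mem hg]
        have : 0 < G.card := Finset.card_pos.2 ⟨g, hg⟩
        omega
      have hG'G : (G' : Set S) ⊆ G := Finset.coe_subset.2 (Finset.erase_subset _ _)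
      set G1 : Finset S := insert b G' with hG1
      have hG1c : (G1 : Set S) = insert b (G' : Set S) := Finset.coe_insert _ _
      have hG1card : G1.card ≤ m - 1 := by
        refine (Finset.card_insert_le _ _).trans ?_
        omega
      set O : Set S := {u | Nonadd (insert u (G1 : Set S))} with hO
      have hOo : IsOpen O := isOpen_nonadd L G1
      have hgO : g ∈ O := by
        have : insert g (G1 : Set S) = insert b (G : Set S) := by
          rw [hG1c, hGG', insert_comm]
        simp only [hO, mem_ofPred_eq]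
        rw [this]
        exact hbn
      have hOcard : ∀ u ∈ O, (insert u G1).card = m := by
        intro u hu
        apply le_antisymm
        · refine (Finset.card_insert_le _ _).trans ?_
          omega
        · by_contra hlt
          push Not at hlt
          apply hmin _ hlt
          rw [Finset.coe_insert]
          exact hu
      have hOy0 : ∀ u ∈ O, y0 ∈ T (insert u (G1 : Set S)) := by
        intro u hu
        by_contra hnot
        refine P2 L hm2 hmin (hOcard u hu) (by rw [Finset.coe_insert]; exact hu) (A := {y0})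
          isClosed_singleton ?_ (u := b) ?_ hby0
        · rw [Finset.coe_insert, Set.disjoint_singleton_right]; exact hnot
        · exact Finset.mem_insert_of_mem (Finset.mem_insert_self _ _)
      have hTgO : T ({g} : Set S) ⊆ O := by
        by_contra hnot
        rw [Set.not_subset] at hnot
        obtain ⟨x0, hx0, hx0O, hx0c⟩ := bd (P1' g) hOo ⟨g, subset_T _ rfl, hgO⟩ hnot
        have h3 : y0 ∈ T (insert x0 (G1 : Set S)) := usc_mem hx0c (fun z hz => hOy0 z hz.2)
        obtain ⟨x, hx, hyx⟩ := additive_of_not hx0O h3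
        rcases hx with rfl | hx
        · exact hy0g g hg (idem L isClosed_singleton (singleton_nonempty g)
            (singleton_subset_iff.2 hx0) hyx)
        · rw [hG1c] at hx
          rcases hx with rfl | hx
          · exact hy0b hyx
          · exact hy0g x (hG'G hx) hyx
      have hwO : w ∈ O := hTgO hwg
      have hgw : g ∈ T (insert w (G1 : Set S)) := by
        by_contra hnot
        refine P2 L hm2 hmin (hOcard w hwO) (by rw [Finset.coe_insert]; exact hwO) (A := {g})
          isClosed_singleton ?_ (u := w) ?_ hwg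
        · rw [Finset.coe_insert, Set.disjoint_singleton_right]; exact hnot
        · exact Finset.mem_insert_self _ _
      have h4 : T (insert w (G1 : Set S)) ⊆ T (insert y0 (G' : Set S)) := by
        apply idem L (G'.finite_toSet.insert y0).isClosed (insert_nonempty _ _)
        rw [hG1c]
        have h5 : T ({y0} : Set S) ⊆ T (insert y0 (G' : Set S)) :=
          T_mono (singleton_subset_iff.2 (mem_insert _ _))
        exact insert_subset (h5 hwy) (insert_subset (h5 hby0)
          ((subset_insert _ _).trans (subset_T _)))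
      have h6 : ¬ Nonadd (insert y0 (G' : Set S)) := by
        have := hmin (insert y0 G') (by
          refine lt_of_le_of_lt (Finset.card_insert_le _ _) ?_
          omega)
        rwa [Finset.coe_insert] at this
      obtain ⟨x, hx, hgx⟩ := additive_of_not h6 (h4 hgw)
      rcases hx with rfl | hx
      · exact hgx
      · exfalso
        -- g ∈ T {x}, x ∈ G', so insert b G additive
        obtain ⟨q, hq, hqn⟩ := hbn
        have h7 : T (insert b (G : Set S)) ⊆ T (G1 : Set S) := by
          apply idem L G1.finite_toSet.isClosed (by rw [hG1c]; exact insert_nonempty _ _)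
          rw [hG1c, hGG']
          apply insert_subset (subset_T _ (mem_insert _ _))
          apply insert_subset
          · exact T_mono (singleton_subset_iff.2 (mem_insert_of_mem _ hx)) hgx
          · exact (subset_insert _ _).trans (subset_T _)
        have h8 : ¬ Nonadd (G1 : Set S) := hmin G1 (by omega)
        obtain ⟨z, hz, hqz⟩ := additive_of_not h8 (h7 hq)
        refine hqn z ?_ hqz
        rw [hG1c] at hz
        exact insert_subset_insert hG'G hz
    -- conclude C ⊆ T {y0}
    set v : Set S := ⋃ g ∈ G.filter (fun g => g ∉ T ({y0} : Set S)), T ({g} : Set S) with hv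
    have hvc : IsClosed v := isClosed_biUnion_finset (fun x _ => isClosed_T _)
    have hdis : Disjoint (T ({y0} : Set S)) v := by
      rw [Set.disjoint_left]
      intro w hw hwv
      simp only [hv, mem_iUnion] at hwv
      obtain ⟨g, hg, hwg⟩ := hwv
      rw [Finset.mem_filter] at hg
      exact hg.2 (claim g hg.1 w hwg hw)
    have hcov : C ⊆ T ({y0} : Set S) ∪ v := by
      intro c hc
      rcases h2 hc with h3 | h3
      · obtain ⟨g, hg, hcg⟩ := additive_of_not hGadd h3
        by_cases hgy : g ∈ T ({y0} : Set S)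
        · exact Or.inl (idem L isClosed_singleton (singleton_nonempty y0)
            (singleton_subset_iff.2 hgy) hcg)
        · exact Or.inr (mem_biUnion (Finset.mem_coe.2 (Finset.mem_filter.2 ⟨hg, hgy⟩)) hcg)
      · exact Or.inl h3
    apply subset_antisymm (hT1C y0 hy0C)
    rcases (isPreconnected_iff_subset_of_fully_disjoint_closed (isClosed_T _)).1 hCp _ _
      (isClosed_T _) hvc hcov hdis with h | h
    · exact h
    · exact absurd (h hy0C) (Set.disjoint_left.1 hdis (subset_T _ rfl))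
  -- T {v} ⊆ N for v in C ∩ N
  have hTvN : ∀ v ∈ C ∩ N, T ({v} : Set S) ⊆ N := by
    rintro v ⟨hvC, hvN⟩
    by_contra hnot
    rw [Set.not_subset] at hnot
    obtain ⟨x0, hx0, hx0N, hx0c⟩ := bd (P1' v) hNo ⟨v, subset_T _ rfl, hvN⟩ hnot
    have h1 := star x0 (hT1C v hvC hx0) hx0N
      (closure_mono (inter_subset_inter_left _ (hT1C v hvC)) hx0c)
    have h2 : C ⊆ T {v} := by
      rw [← h1]
      exact idem L isClosed_singleton (singleton_nonempty v) (singleton_subset_iff.2 hx0)
    obtain ⟨q, hq, hqn⟩ := hvN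
    rw [hCN v ⟨hvC, ⟨q, hq, hqn⟩⟩] at hq
    exact hqn v (mem_insert _ _) (h2 hq)
  obtain ⟨g, hg⟩ := hGne
  have hgN : g ∉ N := fun h => hNTG g h (subset_T _ hg)
  obtain ⟨y0, hy0C, hy0N, hy0c⟩ := bd hCp hNo ⟨b, hbC, hbN⟩ ⟨g, hGC hg, hgN⟩
  have hgcl : g ∉ closure (C ∩ N) := by
    intro h
    have h1 := star g (hGC hg) hgN h
    apply hCTG
    rw [← h1]
    exact T_mono (singleton_subset_iff.2 hg)
  have h1 := star y0 hy0C hy0N hy0c
  have h2 : IsOpen {v : S | (T (insert v (∅ : Set S)) ∩ (closure (C ∩ N))ᶜ).Nonempty} :=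
    L.l1 ∅ isClosed_empty _ isClosed_closure.isOpen_compl
  have h3 : y0 ∈ {v : S | (T (insert v (∅ : Set S)) ∩ (closure (C ∩ N))ᶜ).Nonempty} := by
    simp only [insert_empty_eq, mem_ofPred_eq]
    rw [h1]
    exact ⟨g, hGC hg, hgcl⟩
  obtain ⟨v, hv1, hv2⟩ := mem_closure_iff.1 hy0c _ h2 h3
  simp only [insert_empty_eq, mem_ofPred_eq] at hv1
  obtain ⟨q, hq, hqn⟩ := hv1
  exact hqn (subset_closure ⟨hT1C v hv2.1 hq, hTvN v hv2 hq⟩)

/-- Main theorem (from LSC): `T` is additive. -/
theorem additive (L : LSC S) (A B : Set S) (hA : IsClosed A) (hB : IsClosed B) :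
    T (A ∪ B) = T A ∪ T B := by
  apply subset_antisymm
  · by_contra hcon
    rw [Set.not_subset] at hcon
    obtain ⟨p, hp, hpn⟩ := hcon
    have hc : IsClosed (T A ∪ T B) := (isClosed_T _).union (isClosed_T _)
    have hne : (A ∪ B).Nonempty := by
      by_contra hne
      rw [Set.not_nonempty_iff_eq_empty] at hne
      rw [hne, T_empty] at hp
      exact hp
    obtain ⟨F, hFf, hFn, hFD, q, hq1, hq2⟩ := L.l2 (A ∪ B) (hA.union hB) hne _ hc.isOpen_compl
      (A ∪ B) subset_closure ⟨p, hp, hpn⟩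
    have h1 := no_nonadd L hFf.toFinset
    rw [hFf.coe_toFinset] at h1
    obtain ⟨x, hx, hqx⟩ := additive_of_not h1 hq1
    rcases hFD hx with h | h
    · exact hq2 (Or.inl (T_mono (singleton_subset_iff.2 h) hqx))
    · exact hq2 (Or.inr (T_mono (singleton_subset_iff.2 h) hqx))
  · exact union_subset (T_mono subset_union_left) (T_mono subset_union_right)

end Main

end Pool.Agent.H545R3.JonesT
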