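import Pool.Agent.H545R3.JonesT

set_option autoImplicit false
set_option linter.unusedVariables false
set_option linter.unusedSectionVars false

namespace Pool.Agent.H545R3.JonesT

open Set Topology Filter

/-- The Vietoris topology in the form used by the frozen statement. -/
abbrev tau (S : Type*) [TopologicalSpace S] : TopologicalSpace (Set S) :=
  (TopologicalSpace.generateFrom
          ({𝒰 : Set (Set S) | ∃ U : Set S, IsOpen U ∧ 𝒰 = {A : Set S | A ⊆ U}} ∪
           {𝒰 : Set (Set S) | ∃ U : Set S, IsOpen U ∧ 𝒰 = {A : Set S | (A ∩ U).Nonempty}}))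

variable {S : Type*} [TopologicalSpace S]

lemma tau_eq : tau S = TopologicalSpace.vietoris S := by
  unfold tau TopologicalSpace.vietoris
  congr 1
  ext 𝒰
  constructor
  · rintro (⟨U, hU, rfl⟩ | ⟨U, hU, rfl⟩)
    · exact Or.inl ⟨U, hU, rfl⟩
    · exact Or.inr ⟨U, hU, rfl⟩
  · rintro (⟨U, hU, rfl⟩ | ⟨U, hU, rfl⟩)
    · exact Or.inl ⟨U, hU, rfl⟩
    · exact Or.inr ⟨U, hU, rfl⟩

attribute [local instance] TopologicalSpace.vietoris

lemma lsc_of_continuousOn [T2Space S]
    (h : ContinuousOn (T : Set S → Set S) {A : Set S | IsClosed A ∧ A.Nonempty}) : LSC S := by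
  constructor
  · intro G hG U hU
    have h1 : Continuous (fun u : S => insert u G) := by
      apply continuous_generateFrom_iff.2
      rintro _ (⟨V, hV, rfl⟩ | ⟨V, hV, rfl⟩)
      · have : (fun u : S => insert u G) ⁻¹' (𝒫 V) = {u | u ∈ V ∧ G ⊆ V} := by
          ext u
          simp [insert_subset_iff]
        rw [this]
        by_cases hGV : G ⊆ V
        · have : {u | u ∈ V ∧ G ⊆ V} = V := by ext u; simp [hGV]
          rw [this]; exact hV
        · have : {u | u ∈ V ∧ G ⊆ V} = ∅ := by ext u; simp [hGV]
          rw [this]; exact isOpen_empty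
      · by_cases hGV : (G ∩ V).Nonempty
        · have : (fun u : S => insert u G) ⁻¹' {s | (s ∩ V).Nonempty} = univ := by
            ext u
            simp only [mem_preimage, mem_ofPred_eq, mem_univ, iff_true]
            exact hGV.mono (inter_subset_inter_left _ (subset_insert _ _))
          show IsOpen ((fun u : S => insert u G) ⁻¹' {s | (s ∩ V).Nonempty})
          rw [this]; exact isOpen_univ
        · have : (fun u : S => insert u G) ⁻¹' {s | (s ∩ V).Nonempty} = V := by
            ext u
            simp only [mem_preimage, mem_ofPred_eq]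
            constructor
            · rintro ⟨x, (rfl | hx), hxV⟩
              · exact hxV
              · exact absurd ⟨x, hx, hxV⟩ hGV
            · intro hu
              exact ⟨u, mem_insert _ _, hu⟩
          show IsOpen ((fun u : S => insert u G) ⁻¹' {s | (s ∩ V).Nonempty})
          rw [this]; exact hV
    have h2 : Continuous (fun u : S => T (insert u G)) :=
      h.comp_continuous h1 (fun u => ⟨by rw [insert_eq]; exact isClosed_singleton.union hG, insert_nonempty _ _⟩)
    exact (TopologicalSpace.vietoris.isOpen_inter_nonempty_of_isOpen hU).preimage h2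
  · intro A hA hAn U hU D hAD hT
    have h1 : A ∈ closure {t : Set S | t.Finite ∧ t ⊆ D} := by
      rw [TopologicalSpace.vietoris.closure_finite_subsets]
      exact hAD
    have h2 := h A ⟨hA, hAn⟩
    have h3 : {s : Set S | (s ∩ U).Nonempty} ∈ 𝓝 (T A) :=
      (TopologicalSpace.vietoris.isOpen_inter_nonempty_of_isOpen hU).mem_nhds hT
    have h4 := h2 h3
    rw [mem_map, mem_nhdsWithin_iff_exists_mem_nhds_inter] at h4
    obtain ⟨O, hO, hO2⟩ := h4
    have h5 : {s : Set S | (s ∩ univ).Nonempty} ∈ 𝓝 A :=
      (TopologicalSpace.vietoris.isOpen_inter_nonempty_of_isOpen isOpen_univ).mem_nhds (by simpa using hAn)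
    obtain ⟨F, ⟨hF1, hF2⟩, hF3, hF4⟩ := mem_closure_iff_nhds.1 h1 _ (inter_mem hO h5)
    have hFn : F.Nonempty := by simpa using hF2
    exact ⟨F, hF3, hFn, hF4, hO2 ⟨hF1, hF3.isClosed, hFn⟩⟩

end Pool.Agent.H545R3.JonesT
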