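import Pool.Agent.Helper479.Bond.VK

/-! The complete graph on five vertices as a space, and monotone maps of plane continua onto it. -/

set_option autoImplicit false

open Set Topology Metric

namespace Pool.Agent.H545R3.K5

/-- the point at parameter `t` of the edge from vertex `i` to vertex `j` -/
noncomputable def pt (i j : Fin 5) (t : ℝ) : Fin 5 → ℝ :=
  fun k => (1 - t) * (if k = i then 1 else 0) + t * (if k = j then 1 else 0)

/-- the union of all edges -/
noncomputable def par : Fin 5 × Fin 5 × unitInterval → (Fin 5 → ℝ) :=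
  fun q => pt q.1 q.2.1 (q.2.2 : ℝ)

theorem continuous_par : Continuous par := by
  unfold par pt
  refine continuous_pi fun k => ?_
  refine Continuous.add (Continuous.mul ?_ ?_) (Continuous.mul ?_ ?_)
  · fun_prop
  · have : Continuous fun i : Fin 5 => if k = i then (1 : ℝ) else 0 := continuous_of_discreteTopology
    exact this.comp continuous_fst
  · fun_prop
  · have : Continuous fun i : Fin 5 => if k = i then (1 : ℝ) else 0 := continuous_of_discreteTopology
    exact this.comp (continuous_fst.comp continuous_snd)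

/-- the complete graph on five vertices -/
abbrev Y : Type := ↥(range par)

instance : CompactSpace Y := isCompact_iff_compactSpace.mp (isCompact_range continuous_par)

/-- the parametrisation as a map into the graph -/
noncomputable def q : Fin 5 × Fin 5 × unitInterval → Y := rangeFactorization par

theorem continuous_q : Continuous q := continuous_par.subtype_mk _

theorem surjective_q : Function.Surjective q := rangeFactorization_surjective

instance : LocallyConnectedSpace unitInterval :=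
  (isQuotientMap_projIcc (h := zero_le_one' ℝ)).isCoinducing.locallyConnectedSpace

instance : LocallyConnectedSpace Y := by
  have h : IsQuotientMap q := IsQuotientMap.of_surjective_continuous surjective_q continuous_q
  exact h.isCoinducing.locallyConnectedSpace

/-- an edge -/
noncomputable def edge (i j : Fin 5) : Set Y := q '' ({i} ×ˢ ({j} ×ˢ univ))

theorem edge_closed (i j : Fin 5) : IsClosed (edge i j) :=
  ((isCompact_singleton.prod (isCompact_singleton.prod isCompact_univ)).image continuous_q).isClosed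

theorem edge_preconnected (i j : Fin 5) : IsPreconnected (edge i j) :=
  (isPreconnected_singleton.prod (isPreconnected_singleton.prod isPreconnected_univ)).image _
    continuous_q.continuousOn

/-- a vertex -/
noncomputable def vert (i : Fin 5) : Y := q (i, i, 0)

theorem vert_val (i : Fin 5) : (vert i : Fin 5 → ℝ) = fun k => if k = i then 1 else 0 := by
  funext k
  simp [vert, q, par, pt, rangeFactorization]

theorem q_val (i j : Fin 5) (t : unitInterval) : (q (i, j, t) : Fin 5 → ℝ) = pt i j t := rfl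

theorem vert_mem_left (i j : Fin 5) : vert i ∈ edge i j := by
  refine ⟨(i, j, 0), by simp, ?_⟩
  apply Subtype.ext
  rw [vert_val, q_val]
  funext k
  simp [pt]

theorem vert_mem_right (i j : Fin 5) : vert j ∈ edge i j := by
  refine ⟨(i, j, 1), by simp, ?_⟩
  apply Subtype.ext
  rw [vert_val, q_val]
  funext k
  simp [pt]

theorem exists_edge (y : Y) : ∃ i j, y ∈ edge i j := by
  obtain ⟨⟨i, j, t⟩, rfl⟩ := surjective_q y
  exact ⟨i, j, ⟨(i, j, t), by simp, rfl⟩⟩

instance : ConnectedSpace Y := by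
  have hpre : IsPreconnected (univ : Set Y) := by
    apply isPreconnected_of_forall (vert 0)
    intro y _
    obtain ⟨i, j, hy⟩ := exists_edge y
    refine ⟨edge 0 i ∪ edge i j, subset_univ _, Or.inl (vert_mem_left 0 i), Or.inr hy, ?_⟩
    exact IsPreconnected.union (vert i) (vert_mem_right 0 i) (vert_mem_left i j)
      (edge_preconnected _ _) (edge_preconnected _ _)
  exact { isPreconnected_univ := hpre, toNonempty := ⟨vert 0⟩ }

instance : Nontrivial Y := by
  refine ⟨vert 0, vert 1, fun h => ?_⟩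
  have := congrArg (fun y : Y => (y : Fin 5 → ℝ) 0) h
  simp [vert_val] at this

/-- A point with first coordinate in `(0,1)` at `k` lies on an edge from `k`. -/
theorem exists_form (y : Y) (k : Fin 5) (h0 : 0 < (y : Fin 5 → ℝ) k) (h1 : (y : Fin 5 → ℝ) k < 1) :
    ∃ j, j ≠ k ∧ (y : Fin 5 → ℝ) = pt k j (1 - (y : Fin 5 → ℝ) k) := by
  obtain ⟨⟨i, j, t⟩, rfl⟩ := surjective_q y
  rw [q_val] at h0 h1 ⊢
  by_cases hi : k = i
  · subst hi
    by_cases hj : k = j
    · subst hj
      simp [pt] at h1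
    · refine ⟨j, fun h => hj h.symm, ?_⟩
      have : pt k j (t : ℝ) k = 1 - t := by simp [pt, hj]
      rw [this]
      congr 1
      ring
  · by_cases hj : k = j
    · subst hj
      refine ⟨i, fun h => hi h.symm, ?_⟩
      have : pt i k (t : ℝ) k = t := by simp [pt, hi]
      rw [this]
      funext l
      simp only [pt]
      ring
    · simp [pt, hi, hj] at h0

theorem pt_mem (i j : Fin 5) {t : ℝ} (ht : t ∈ Icc (0 : ℝ) 1) : pt i j t ∈ range par :=
  ⟨(i, j, ⟨t, ht⟩), rfl⟩

/-- Every nondegenerate closed connected subset of the graph has interior points. -/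
theorem interior_of_nontrivial (L : Set Y) (hc : IsClosed L) (hL : IsPreconnected L)
    (hn : L.Nontrivial) : (interior L).Nonempty := by
  obtain ⟨x, hx, y, hy, hxy⟩ := hn
  -- a coordinate which is not constant
  obtain ⟨k, hk⟩ : ∃ k, (x : Fin 5 → ℝ) k ≠ (y : Fin 5 → ℝ) k := by
    by_contra h
    push Not at h
    exact hxy (Subtype.ext (funext h))
  wlog hlt : (x : Fin 5 → ℝ) k < (y : Fin 5 → ℝ) k generalizing x y
  · exact this y hy x hx hxy.symm hk.symm (lt_of_le_of_ne (not_lt.mp hlt) hk.symm)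
  set g : Y → ℝ := fun y => (y : Fin 5 → ℝ) k with hg
  have hgc : Continuous g := (continuous_apply k).comp continuous_subtype_val
  have hrange : ∀ y : Y, 0 ≤ g y ∧ g y ≤ 1 := by
    intro y
    obtain ⟨⟨i, j, t⟩, rfl⟩ := surjective_q y
    have h0 := t.2.1
    have h1 := t.2.2
    simp only [hg, q_val, pt]
    split_ifs <;> constructor <;> nlinarith
  have hJ : Ioo (g x) (g y) ⊆ g '' L := by
    intro s hs
    exact (hL.image g hgc.continuousOn).Icc_subset ⟨x, hx, rfl⟩ ⟨y, hy, rfl⟩ ⟨hs.1.le, hs.2.le⟩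
  -- the closed sets of parameters
  let A : Fin 5 → Set ℝ := fun j =>
    {s | ∃ z ∈ L, g z = s ∧ (z : Fin 5 → ℝ) = pt k j (1 - s)}
  have hA : ∀ j, IsClosed (A j) := by
    intro j
    have : A j = g '' (L ∩ {z | (z : Fin 5 → ℝ) = pt k j (1 - g z)}) := by
      ext s
      constructor
      · rintro ⟨z, hz, rfl, h⟩
        exact ⟨z, ⟨hz, h⟩, rfl⟩
      · rintro ⟨z, ⟨hz, h⟩, rfl⟩
        exact ⟨z, hz, rfl, h⟩
    rw [this]
    have hcl : IsClosed {z : Y | (z : Fin 5 → ℝ) = pt k j (1 - g z)} := by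
      refine isClosed_eq continuous_subtype_val ?_
      unfold pt
      fun_prop
    exact ((hc.inter hcl).isCompact.image hgc).isClosed
  have hcover : Ioo (g x) (g y) ⊆ ⋃ j : {j : Fin 5 // j ≠ k}, A j := by
    intro s hs
    obtain ⟨z, hz, rfl⟩ := hJ hs
    have h0 : 0 < g z := lt_of_le_of_lt (hrange x).1 hs.1
    have h1 : g z < 1 := lt_of_lt_of_le hs.2 (hrange y).2
    obtain ⟨j, hj, hzj⟩ := exists_form z k h0 h1
    exact mem_iUnion.2 ⟨⟨j, hj⟩, z, hz, rfl, hzj⟩
  -- one of them has interior points in the interval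
  obtain ⟨j, hj⟩ : ∃ j : {j : Fin 5 // j ≠ k}, (interior (A j) ∩ Ioo (g x) (g y)).Nonempty := by
    by_contra hcon
    push Not at hcon
    have hd : Dense (⋂ j : {j : Fin 5 // j ≠ k}, ((A j)ᶜ ∪ (Icc (g x) (g y))ᶜ)) := by
      apply dense_iInter_of_isOpen
      · intro j
        exact (hA j).isOpen_compl.union isClosed_Icc.isOpen_compl
      · intro j
        rw [← compl_inter, ← interior_eq_empty_iff_dense_compl, interior_inter, interior_Icc]
        exact hcon j
    obtain ⟨s, hs, hs'⟩ := hd.inter_open_nonempty (Ioo (g x) (g y)) isOpen_Ioo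
      (nonempty_Ioo.2 hlt)
    obtain ⟨j, hj⟩ := mem_iUnion.1 (hcover hs)
    rcases mem_iInter.1 hs' j with h | h
    · exact h hj
    · exact h ⟨hs.1.le, hs.2.le⟩
  obtain ⟨s, hs, hsI⟩ := hj
  have hs0 : 0 < s := lt_of_le_of_lt (hrange x).1 hsI.1
  have hs1 : s < 1 := lt_of_lt_of_le hsI.2 (hrange y).2
  -- the open set
  let W : Set ℝ := interior (A j) ∩ Ioo 0 1
  have hW : IsOpen W := isOpen_interior.inter isOpen_Ioo
  let U : Set Y := {z | g z ∈ W ∧ 0 < (z : Fin 5 → ℝ) j}
  have hU : IsOpen U := by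
    have h2 : Continuous fun z : Y => (z : Fin 5 → ℝ) j :=
      (continuous_apply (j : Fin 5)).comp continuous_subtype_val
    exact (hW.preimage hgc).inter (isOpen_lt continuous_const h2)
  have hUL : U ⊆ L := by
    rintro z ⟨⟨hz1, hz2⟩, hz3⟩
    obtain ⟨j', hj', hz⟩ := exists_form z k hz2.1 hz2.2
    have hjj : j' = j := by
      by_contra hne
      rw [hz] at hz3
      have hjk := j.2
      simp [pt, hjk, Ne.symm hne] at hz3
    obtain ⟨w, hw, hwg, hw'⟩ := interior_subset hz1
    have : z = w := by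
      apply Subtype.ext
      rw [hz, hjj, hw']
    rw [this]
    exact hw
  refine ⟨⟨pt k j (1 - s), pt_mem k j ⟨by linarith, by linarith⟩⟩, mem_interior.2 ⟨U, hUL, hU, ?_⟩⟩
  have hjk := j.2
  have e1 : pt k j (1 - s) k = s := by simp [pt, Ne.symm hjk]
  have e2 : pt k j (1 - s) j = 1 - s := by simp [pt, hjk]
  refine ⟨⟨?_, ?_⟩, ?_⟩
  · show pt k j (1 - s) k ∈ _
    rw [e1]; exact hs
  · show pt k j (1 - s) k ∈ _
    rw [e1]; exact ⟨hs0, hs1⟩
  · show 0 < pt k j (1 - s) j
    rw [e2]; linarith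

theorem edge_disjoint {a b c d : Fin 5} (hac : a ≠ c) (had : a ≠ d) (hbc : b ≠ c) (hbd : b ≠ d) :
    Disjoint (edge a b) (edge c d) := by
  rw [Set.disjoint_left]
  rintro _ ⟨⟨a', b', t⟩, ht, rfl⟩ ⟨⟨c', d', s⟩, hs, he⟩
  simp only [mem_prod, mem_singleton_iff, mem_univ, and_true] at ht hs
  obtain ⟨rfl, rfl⟩ := ht
  obtain ⟨rfl, rfl⟩ := hs
  have he' : pt c' d' s = pt a' b' t := congrArg Subtype.val he
  have ha := congrFun he' a'
  have hb := congrFun he' b'
  by_cases hab : a' = b'
  · subst hab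
    simp [pt, hac, had] at ha
  · simp [pt, hac, had, hbc, hbd, hab, Ne.symm hab] at ha hb
    rw [← hb] at ha
    norm_num at ha

/-- The preimage of a closed connected set under a continuous map of a compact space with
connected fibres is connected. -/
theorem preconnected_preimage {X Z : Type*} [TopologicalSpace X] [CompactSpace X]
    [TopologicalSpace Z] [T2Space Z] (f : X → Z) (hf : Continuous f)
    (hfib : ∀ z, IsPreconnected (f ⁻¹' {z})) (hsurj : Function.Surjective f) (C : Set Z)
    (hC : IsClosed C) (hCc : IsPreconnected C) : IsPreconnected (f ⁻¹' C) := by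
  rw [isPreconnected_closed_iff]
  rintro A B hA hB hAB ⟨x, hx, hxA⟩ ⟨y, hy, hyB⟩
  have hfA : IsClosed (f '' (f ⁻¹' C ∩ A)) := (((hC.preimage hf).inter hA).isCompact.image hf).isClosed
  have hfB : IsClosed (f '' (f ⁻¹' C ∩ B)) := (((hC.preimage hf).inter hB).isCompact.image hf).isClosed
  have hcov : C ⊆ f '' (f ⁻¹' C ∩ A) ∪ f '' (f ⁻¹' C ∩ B) := by
    intro z hz
    obtain ⟨w, rfl⟩ := hsurj z
    rcases hAB hz with h | h
    · exact Or.inl ⟨w, ⟨hz, h⟩, rfl⟩
    · exact Or.inr ⟨w, ⟨hz, h⟩, rfl⟩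
  obtain ⟨z, hzC, ⟨u, ⟨hu1, hu2⟩, huz⟩, ⟨v, ⟨hv1, hv2⟩, hvz⟩⟩ :=
    isPreconnected_closed_iff.1 hCc _ _ hfA hfB hcov ⟨f x, hx, x, ⟨hx, hxA⟩, rfl⟩
      ⟨f y, hy, y, ⟨hy, hyB⟩, rfl⟩
  obtain ⟨w, hw, hwAB⟩ := isPreconnected_closed_iff.1 (hfib z) A B hA hB
    (fun p hp => hAB (by
      have : f p = z := hp
      show f p ∈ C
      rw [this]; exact hzC)) ⟨u, huz, hu2⟩ ⟨v, hvz, hv2⟩
  refine ⟨w, ?_, hwAB⟩
  have : f w = z := hw
  show f w ∈ C
  rw [this]; exact hzC

/-- Thickenings of connected sets are connected. -/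
theorem thickening_connected {E : Type*} [NormedAddCommGroup E] [NormedSpace ℝ E] {s : Set E}
    (hs : IsConnected s) {δ : ℝ} (hδ : 0 < δ) : IsConnected (thickening δ s) := by
  obtain ⟨x, hx⟩ := hs.nonempty
  refine ⟨⟨x, self_subset_thickening hδ s hx⟩, ?_⟩
  apply isPreconnected_of_forall x
  intro y hy
  obtain ⟨z, hz, hyz⟩ := mem_thickening_iff.1 hy
  refine ⟨s ∪ ball z δ, ?_, Or.inl hx, Or.inr hyz, ?_⟩
  · apply union_subset (self_subset_thickening hδ s)
    exact ball_subset_thickening hz δ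
  · exact IsPreconnected.union z hz (mem_ball_self hδ) hs.isPreconnected
      (convex_ball z δ).isPreconnected

/-- No plane continuum has a monotone map onto the complete graph on five vertices. -/
theorem no_monotone_map (X : Type) [TopologicalSpace X] [CompactSpace X] (g : X → ℂ)
    (hg : Continuous g) (hgi : Function.Injective g) (f : X → Y) (hf : Continuous f)
    (hsurj : Function.Surjective f) (hfib : ∀ y, IsPreconnected (f ⁻¹' {y})) : False := by
  let Q : Fin 5 → Fin 5 → Set ℂ := fun a b => g '' (f ⁻¹' edge a b)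
  have hQc : ∀ a b, IsCompact (Q a b) := fun a b =>
    (((edge_closed a b).preimage hf).isCompact).image hg
  have hQconn : ∀ a b, IsConnected (Q a b) := by
    intro a b
    refine ⟨?_, ?_⟩
    · obtain ⟨x, hx⟩ := hsurj (vert a)
      exact ⟨g x, x, by show f x ∈ edge a b; rw [hx]; exact vert_mem_left a b, rfl⟩
    · exact (preconnected_preimage f hf hfib hsurj _ (edge_closed a b)
        (edge_preconnected a b)).image g hg.continuousOn
  choose v hv using fun a => hsurj (vert a)
  have hdis : ∀ a b c d : Fin 5, a ≠ c → a ≠ d → b ≠ c → b ≠ d → Disjoint (Q a b) (Q c d) := by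
    intro a b c d h1 h2 h3 h4
    rw [Set.disjoint_left]
    rintro _ ⟨x, hx, rfl⟩ ⟨y, hy, he⟩
    have := hgi he
    subst this
    exact Set.disjoint_left.1 (edge_disjoint h1 h2 h3 h4) hx hy
  have hδ : ∀ q : Fin 5 × Fin 5 × Fin 5 × Fin 5, ∃ δ : ℝ, 0 < δ ∧
      (q.1 ≠ q.2.2.1 → q.1 ≠ q.2.2.2 → q.2.1 ≠ q.2.2.1 → q.2.1 ≠ q.2.2.2 →
        Disjoint (thickening δ (Q q.1 q.2.1)) (thickening δ (Q q.2.2.1 q.2.2.2))) := by
    rintro ⟨a, b, c, d⟩
    by_cases h : a ≠ c ∧ a ≠ d ∧ b ≠ c ∧ b ≠ d
    · obtain ⟨δ, h0, h1⟩ := (hdis a b c d h.1 h.2.1 h.2.2.1 h.2.2.2).exists_thickenings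
        (hQc a b) (hQc c d).isClosed
      exact ⟨δ, h0, fun _ _ _ _ => h1⟩
    · refine ⟨1, one_pos, fun h1 h2 h3 h4 => absurd ⟨h1, h2, h3, h4⟩ h⟩
  choose δ hδ0 hδ using hδ
  obtain ⟨ε, hε0, hε⟩ : ∃ ε : ℝ, 0 < ε ∧ ∀ q, ε ≤ δ q := by
    refine ⟨Finset.univ.inf' Finset.univ_nonempty δ, ?_, fun q => Finset.inf'_le _ (Finset.mem_univ q)⟩
    rw [Finset.lt_inf'_iff]
    exact fun q _ => hδ0 q
  refine Pool.Agent.Helper479.Bond.VK.k5_joined (fun a => g (v a))
    (fun a b => thickening ε (Q a b)) ?_ ?_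
  · intro a b _
    have hc : IsPathConnected (thickening ε (Q a b)) :=
      isOpen_thickening.isConnected_iff_isPathConnected.1 (thickening_connected (hQconn a b) hε0)
    apply hc.joinedIn
    · apply self_subset_thickening hε0
      exact ⟨v a, by show f (v a) ∈ edge a b; rw [hv]; exact vert_mem_left a b, rfl⟩
    · apply self_subset_thickening hε0
      exact ⟨v b, by show f (v b) ∈ edge a b; rw [hv]; exact vert_mem_right a b, rfl⟩
  · intro a b c d _ _ h1 h2 h3 h4
    exact (hδ (a, b, c, d) h1 h2 h3 h4).mono (thickening_mono (hε _) _) (thickening_mono (hε _) _)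

end Pool.Agent.H545R3.K5
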