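import Mathlib

/-! # A retraction of the hyperspace of closed sets of a cone onto the hyperspace of subcontinua

`Z` is a compact space with a continuous injection `e : Z → ℝ`, `M` is the cone over `Z`, given by
a surjection `p : Z × [0,1] → M` which collapses exactly `Z × {0}`. -/

set_option autoImplicit false
set_option linter.unusedSectionVars false
set_option linter.unusedVariables false

open Set Topology Filter TopologicalSpace

namespace Pool.Agent.H545R3.Retr

section Max

variable {X : Type*} [TopologicalSpace X]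

/-- the maximum of a real function over a nonempty compact set -/
noncomputable def mx (f : X → ℝ) (A : NonemptyCompacts X) : ℝ := sSup (f '' (A : Set X))

theorem mx_mem {f : X → ℝ} (hf : Continuous f) (A : NonemptyCompacts X) :
    ∃ x ∈ (A : Set X), f x = mx f A :=
  (A.isCompact.image hf).sSup_mem (A.nonempty.image f)

theorem le_mx {f : X → ℝ} (hf : Continuous f) (A : NonemptyCompacts X) {x : X}
    (hx : x ∈ (A : Set X)) : f x ≤ mx f A :=
  le_csSup (A.isCompact.image hf).bddAbove ⟨x, hx, rfl⟩

theorem continuous_mx {f : X → ℝ} (hf : Continuous f) : Continuous (mx f) := by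
  rw [OrderTopology.continuous_iff]
  intro a
  constructor
  · have : mx f ⁻¹' Ioi a = {A : NonemptyCompacts X | ((A : Set X) ∩ f ⁻¹' Ioi a).Nonempty} := by
      ext A
      constructor
      · intro h
        obtain ⟨x, hx, hfx⟩ := mx_mem hf A
        exact ⟨x, hx, by show a < f x; rw [hfx]; exact h⟩
      · rintro ⟨x, hx, hxa⟩
        exact lt_of_lt_of_le hxa (le_mx hf A hx)
    rw [this]
    exact NonemptyCompacts.isOpen_inter_nonempty_of_isOpen (isOpen_Ioi.preimage hf)
  · have : mx f ⁻¹' Iio a = {A : NonemptyCompacts X | (A : Set X) ⊆ f ⁻¹' Iio a} := by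
      ext A
      constructor
      · intro h x hx
        exact lt_of_le_of_lt (le_mx hf A hx) h
      · intro h
        obtain ⟨x, hx, hfx⟩ := mx_mem hf A
        show mx f A < a
        rw [← hfx]
        exact h hx
    rw [this]
    exact NonemptyCompacts.isOpen_subsets_of_isOpen (isOpen_Iio.preimage hf)

/-- the minimum of a real function over a nonempty compact set -/
noncomputable def mn (f : X → ℝ) (A : NonemptyCompacts X) : ℝ := -mx (fun x => -f x) A

theorem mn_mem {f : X → ℝ} (hf : Continuous f) (A : NonemptyCompacts X) :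
    ∃ x ∈ (A : Set X), f x = mn f A := by
  obtain ⟨x, hx, h⟩ := mx_mem (f := fun x => -f x) hf.neg A
  exact ⟨x, hx, by rw [mn, ← h]; simp⟩

theorem mn_le {f : X → ℝ} (hf : Continuous f) (A : NonemptyCompacts X) {x : X}
    (hx : x ∈ (A : Set X)) : mn f A ≤ f x := by
  have := le_mx (f := fun x => -f x) hf.neg A hx
  rw [mn]
  linarith

theorem continuous_mn {f : X → ℝ} (hf : Continuous f) : Continuous (mn f) :=
  (continuous_mx hf.neg).neg

end Max

/-- the clamp of a real number to the unit interval -/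
noncomputable def cl (x : ℝ) : unitInterval := projIcc 0 1 zero_le_one x

theorem continuous_cl : Continuous cl := continuous_projIcc (h := zero_le_one)

theorem cl_val {x : ℝ} (h0 : 0 ≤ x) (h1 : x ≤ 1) : ((cl x : unitInterval) : ℝ) = x := by
  rw [cl, projIcc_of_mem zero_le_one ⟨h0, h1⟩]

theorem cl_coe (x : unitInterval) : cl (x : ℝ) = x := projIcc_val zero_le_one x

theorem cl_zero : cl 0 = 0 := cl_coe 0

/-- A cone over `Z`: the level `0` of `Z × [0,1]` is collapsed to the vertex. `e` is a continuous
injection of `Z` into the real line. -/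
structure ConeData (Z M : Type*) [TopologicalSpace Z] [TopologicalSpace M] where
  e : Z → ℝ
  he : Continuous e
  hinj : Function.Injective e
  p : Z × unitInterval → M
  hp : Continuous p
  hsurj : Function.Surjective p
  hker : ∀ a b : Z × unitInterval, p a = p b ↔ a = b ∨ (a.2 = 0 ∧ b.2 = 0)

namespace ConeData

variable {Z M : Type*} [TopologicalSpace Z] [CompactSpace Z] [TopologicalSpace M] [T2Space M]
variable (C : ConeData Z M)

/-- minimal height -/
noncomputable def lam (A : NonemptyCompacts (Z × unitInterval)) : ℝ :=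
  mn (fun a : Z × unitInterval => (a.2 : ℝ)) A

/-- maximal height -/
noncomputable def mu (A : NonemptyCompacts (Z × unitInterval)) : ℝ :=
  mx (fun a : Z × unitInterval => (a.2 : ℝ)) A

theorem cont_snd : Continuous (fun a : Z × unitInterval => (a.2 : ℝ)) :=
  continuous_subtype_val.comp continuous_snd

theorem continuous_lam : Continuous (lam (Z := Z)) := continuous_mn cont_snd
theorem continuous_mu : Continuous (mu (Z := Z)) := continuous_mx cont_snd

theorem lam_nonneg (A : NonemptyCompacts (Z × unitInterval)) : 0 ≤ lam A := by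
  obtain ⟨x, -, h⟩ := mn_mem cont_snd A
  rw [lam, ← h]; exact x.2.2.1

theorem lam_le {A : NonemptyCompacts (Z × unitInterval)} {a : Z × unitInterval}
    (ha : a ∈ (A : Set (Z × unitInterval))) : lam A ≤ a.2 := mn_le cont_snd A ha

theorem le_mu {A : NonemptyCompacts (Z × unitInterval)} {a : Z × unitInterval}
    (ha : a ∈ (A : Set (Z × unitInterval))) : (a.2 : ℝ) ≤ mu A := le_mx cont_snd A ha

theorem mu_le_one (A : NonemptyCompacts (Z × unitInterval)) : mu A ≤ 1 := by
  obtain ⟨x, -, h⟩ := mx_mem cont_snd A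
  rw [mu, ← h]; exact x.2.2.2

theorem mu_nonneg (A : NonemptyCompacts (Z × unitInterval)) : 0 ≤ mu A := by
  obtain ⟨x, -, h⟩ := mx_mem cont_snd A
  rw [mu, ← h]; exact x.2.2.1

theorem lam_le_mu (A : NonemptyCompacts (Z × unitInterval)) : lam A ≤ mu A := by
  obtain ⟨x, hx⟩ := A.nonempty
  exact (lam_le hx).trans (le_mu hx)

/-- The measure of how far the set is from lying on one ray. -/
noncomputable def gg (q : (Z × unitInterval) × (Z × unitInterval)) : ℝ :=
  min (q.1.2 : ℝ) (q.2.2 : ℝ) * |C.e q.1.1 - C.e q.2.1|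

theorem cont_gg : Continuous C.gg := by
  unfold gg
  have := C.he
  fun_prop

/-- the oscillation of the ray coordinate -/
noncomputable def oo (q : (Z × unitInterval) × (Z × unitInterval)) : ℝ :=
  |C.e q.1.1 - C.e q.2.1|

theorem cont_oo : Continuous C.oo := by
  unfold oo
  have := C.he
  fun_prop

/-- the spread -/
noncomputable def dd (A : NonemptyCompacts (Z × unitInterval)) : ℝ := mx C.gg (A ×ˢ A)

theorem continuous_dd : Continuous C.dd := by
  unfold dd
  exact (continuous_mx C.cont_gg).comp
    (NonemptyCompacts.continuous_prod.comp (continuous_id.prodMk continuous_id))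

theorem dd_nonneg (A : NonemptyCompacts (Z × unitInterval)) : 0 ≤ C.dd A := by
  obtain ⟨x, hx⟩ := A.nonempty
  have := le_mx C.cont_gg (A ×ˢ A) (x := (x, x)) ⟨hx, hx⟩
  refine le_trans ?_ this
  simp [gg]

/-- the minimal ray coordinate, as a point of `Z` -/
noncomputable def low (A : NonemptyCompacts (Z × unitInterval)) : Z :=
  (mn_mem (C.he.comp continuous_fst) A).choose.1

theorem low_spec (A : NonemptyCompacts (Z × unitInterval)) :
    (∃ s, (C.low A, s) ∈ (A : Set (Z × unitInterval))) ∧
      C.e (C.low A) = mn (fun a : Z × unitInterval => C.e a.1) A := by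
  have h := (mn_mem (C.he.comp continuous_fst) A).choose_spec
  exact ⟨⟨_, h.1⟩, h.2⟩

theorem continuous_low : Continuous C.low := by
  have h : IsEmbedding C.e :=
    (C.he.isClosedEmbedding C.hinj).isEmbedding
  rw [h.continuous_iff]
  have : C.e ∘ C.low = mn (fun a : Z × unitInterval => C.e a.1) := by
    funext A
    exact (C.low_spec A).2
  rw [this]
  exact continuous_mn (C.he.comp continuous_fst)

/-- a segment of a ray -/
noncomputable def arc (q : Z × ℝ × ℝ) : NonemptyCompacts M :=
  (⊤ : NonemptyCompacts unitInterval).map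
    (fun c : unitInterval => C.p (q.1, cl (q.2.1 + (q.2.2 - q.2.1) * (c : ℝ))))
    (C.hp.comp (continuous_const.prodMk (continuous_cl.comp (by fun_prop))))

theorem continuous_arc : Continuous C.arc := by
  unfold arc
  refine Continuous.nonemptyCompacts_map' (f := fun _ => (⊤ : NonemptyCompacts unitInterval))
    (g := fun (q : Z × ℝ × ℝ) (c : unitInterval) =>
      C.p (q.1, cl (q.2.1 + (q.2.2 - q.2.1) * (c : ℝ)))) continuous_const ?_
  refine C.hp.comp (Continuous.prodMk (by fun_prop) (continuous_cl.comp (by fun_prop)))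

/-- the star of a set, shrunk by the factor `g` -/
noncomputable def shr (q : ℝ × NonemptyCompacts (Z × unitInterval)) : NonemptyCompacts M :=
  (q.2 ×ˢ (⊤ : NonemptyCompacts unitInterval)).map
    (fun a : (Z × unitInterval) × unitInterval =>
      C.p (a.1.1, cl (q.1 * (a.2 : ℝ) * (a.1.2 : ℝ))))
    (C.hp.comp (Continuous.prodMk (by fun_prop) (continuous_cl.comp (by fun_prop))))

theorem continuous_shr : Continuous C.shr := by
  unfold shr
  refine Continuous.nonemptyCompacts_map'
    (f := fun q : ℝ × NonemptyCompacts (Z × unitInterval) =>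
      (q.2 ×ˢ (⊤ : NonemptyCompacts unitInterval)))
    (g := fun (q : ℝ × NonemptyCompacts (Z × unitInterval))
      (a : (Z × unitInterval) × unitInterval) =>
      C.p (a.1.1, cl (q.1 * (a.2 : ℝ) * (a.1.2 : ℝ)))) ?_ ?_
  · exact NonemptyCompacts.continuous_prod.comp (continuous_snd.prodMk continuous_const)
  · exact C.hp.comp (Continuous.prodMk (by fun_prop) (continuous_cl.comp (by fun_prop)))

theorem mem_arc {q : Z × ℝ × ℝ} {x : M} : x ∈ (C.arc q : Set M) ↔
    ∃ c : unitInterval, C.p (q.1, cl (q.2.1 + (q.2.2 - q.2.1) * (c : ℝ))) = x := by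
  simp [arc]

theorem mem_arc' {z : Z} {a b : ℝ} (h0 : 0 ≤ a) (hab : a ≤ b) (h1 : b ≤ 1) {x : M} :
    x ∈ (C.arc (z, a, b) : Set M) ↔
    ∃ s : unitInterval, a ≤ s ∧ s ≤ b ∧ C.p (z, s) = x := by
  rw [mem_arc]
  constructor
  · rintro ⟨c, hc⟩
    have hc0 := c.2.1
    have hc1 := c.2.2
    have e0 : 0 ≤ a + (b - a) * (c : ℝ) := by nlinarith
    have e1 : a + (b - a) * (c : ℝ) ≤ b := by nlinarith
    refine ⟨cl (a + (b - a) * (c : ℝ)), ?_, ?_, hc⟩
    · rw [cl_val e0 (e1.trans h1)]; nlinarith
    · rw [cl_val e0 (e1.trans h1)]; exact e1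
  · rintro ⟨s, hs1, hs2, rfl⟩
    rcases eq_or_lt_of_le hab with rfl | hlt
    · refine ⟨0, ?_⟩
      have : (s : ℝ) = a := le_antisymm hs2 hs1
      simp only
      rw [← this]
      simp [cl_coe]
    · have hpos : 0 < b - a := by linarith
      refine ⟨⟨((s : ℝ) - a) / (b - a), ?_, ?_⟩, ?_⟩
      · apply div_nonneg <;> linarith
      · rw [div_le_one hpos]; linarith
      · simp only
        rw [mul_div_cancel₀ _ hpos.ne']
        simp [cl_coe]

theorem mem_shr {g : ℝ} {A : NonemptyCompacts (Z × unitInterval)} {x : M} :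
    x ∈ (C.shr (g, A) : Set M) ↔ ∃ a ∈ (A : Set (Z × unitInterval)), ∃ c : unitInterval,
      C.p (a.1, cl (g * (c : ℝ) * (a.2 : ℝ))) = x := by
  constructor
  · rintro ⟨⟨a, c⟩, ⟨ha, -⟩, h⟩
    exact ⟨a, ha, c, h⟩
  · rintro ⟨a, ha, c, h⟩
    exact ⟨(a, c), ⟨ha, trivial⟩, h⟩

/-- the ratio which governs the construction -/
noncomputable def uu (A : NonemptyCompacts (Z × unitInterval)) : ℝ := C.dd A / lam A ^ 2

/-- the star of `A` -/
noncomputable def hull (A : NonemptyCompacts (Z × unitInterval)) : NonemptyCompacts M :=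
  C.shr (1, A)

theorem continuous_hull : Continuous C.hull :=
  C.continuous_shr.comp (continuous_const.prodMk continuous_id)

/-- first stage -/
noncomputable def F1 (A : NonemptyCompacts (Z × unitInterval)) : NonemptyCompacts M :=
  C.arc (C.low A, lam A * (1 - C.uu A), mu A)

/-- second stage -/
noncomputable def F2 (A : NonemptyCompacts (Z × unitInterval)) : NonemptyCompacts M :=
  C.arc (C.low A, 0, (cl (3 - C.uu A) : ℝ) * mu A) ⊔ C.shr ((cl (C.uu A - 1) : ℝ), A)

open Classical in
/-- the map on closed sets of `Z × [0,1]` -/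
noncomputable def R (A : NonemptyCompacts (Z × unitInterval)) : NonemptyCompacts M :=
  if lam A = 0 then C.hull A else if C.uu A ≤ 1 then C.F1 A else C.F2 A

theorem vertex_eq (a b : Z) : C.p (a, 0) = C.p (b, 0) := (C.hker _ _).2 (Or.inr ⟨rfl, rfl⟩)

/-- If `A` lies on one ray, the star of `A` is a segment of this ray. -/
theorem hull_eq_arc {A : NonemptyCompacts (Z × unitInterval)} {z : Z}
    (hz : ∀ a ∈ (A : Set (Z × unitInterval)), a.1 = z) : C.hull A = C.arc (z, 0, mu A) := by
  apply SetLike.coe_injective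
  ext x
  rw [C.mem_arc' le_rfl (mu_nonneg A) (mu_le_one A), hull, mem_shr]
  constructor
  · rintro ⟨a, ha, c, rfl⟩
    have h1 := a.2.2.1
    have h2 := a.2.2.2
    have h3 := c.2.1
    have h4 := c.2.2
    have h5 : (a.2 : ℝ) ≤ mu A := le_mu ha
    have e0 : 0 ≤ 1 * (c : ℝ) * (a.2 : ℝ) := by positivity
    have e1 : 1 * (c : ℝ) * (a.2 : ℝ) ≤ a.2 := by nlinarith
    refine ⟨cl (1 * (c : ℝ) * (a.2 : ℝ)), ?_, ?_, by rw [hz a ha]⟩
    · rw [cl_val e0 (e1.trans h2)]; exact e0
    · rw [cl_val e0 (e1.trans h2)]; linarith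
  · rintro ⟨s, hs0, hs1, rfl⟩
    obtain ⟨a, ha, hamu⟩ := mx_mem cont_snd A
    replace hamu : (a.2 : ℝ) = mu A := hamu
    refine ⟨a, ha, ?_⟩
    rcases eq_or_lt_of_le (mu_nonneg A) with h | h
    · refine ⟨0, ?_⟩
      have : s = 0 := by
        apply Subtype.ext
        have : (s : ℝ) ≤ 0 := by rw [h]; exact hs1
        exact le_antisymm this hs0
      rw [this, hz a ha]
      simp [cl_zero]
    · refine ⟨⟨(s : ℝ) / mu A, div_nonneg hs0 h.le, (div_le_one h).2 hs1⟩, ?_⟩
      rw [hz a ha, hamu]
      simp only [one_mul]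
      rw [div_mul_cancel₀ _ h.ne', cl_coe]

theorem shr_one_ray {A : NonemptyCompacts (Z × unitInterval)} {z : Z}
    (hz : ∀ a ∈ (A : Set (Z × unitInterval)), a.1 = z) {g : ℝ} (h0 : 0 ≤ g) (h1 : g ≤ 1) :
    C.shr (g, A) = C.arc (z, 0, g * mu A) := by
  apply SetLike.coe_injective
  ext x
  have hm0 := mu_nonneg A
  have hm1 := mu_le_one A
  rw [C.mem_arc' le_rfl (by positivity) (by nlinarith), mem_shr]
  constructor
  · rintro ⟨a, ha, c, rfl⟩
    have h1 := a.2.2.1
    have h2 := a.2.2.2
    have h3 := c.2.1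
    have h4 := c.2.2
    have h5 : (a.2 : ℝ) ≤ mu A := le_mu ha
    have e0 : 0 ≤ g * (c : ℝ) * (a.2 : ℝ) := by positivity
    have e2 : (c : ℝ) * (a.2 : ℝ) ≤ a.2 := by nlinarith
    have e1 : g * (c : ℝ) * (a.2 : ℝ) ≤ g * a.2 := by
      rw [mul_assoc]; exact mul_le_mul_of_nonneg_left e2 h0
    have e3 : g * (a.2 : ℝ) ≤ 1 := by nlinarith
    refine ⟨cl (g * (c : ℝ) * (a.2 : ℝ)), ?_, ?_, by rw [hz a ha]⟩
    · rw [cl_val e0 (e1.trans e3)]; exact e0
    · rw [cl_val e0 (e1.trans e3)]
      exact e1.trans (mul_le_mul_of_nonneg_left h5 h0)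
  · rintro ⟨s, hs0, hs1, rfl⟩
    obtain ⟨a, ha, hamu⟩ := mx_mem cont_snd A
    replace hamu : (a.2 : ℝ) = mu A := hamu
    refine ⟨a, ha, ?_⟩
    rcases eq_or_lt_of_le (show 0 ≤ g * mu A by positivity) with h | h
    · refine ⟨0, ?_⟩
      have : s = 0 := by
        apply Subtype.ext
        have : (s : ℝ) ≤ 0 := by rw [h]; exact hs1
        exact le_antisymm this hs0
      rw [this, hz a ha]
      simp [cl_zero]
    · refine ⟨⟨(s : ℝ) / (g * mu A), div_nonneg hs0 h.le, (div_le_one h).2 hs1⟩, ?_⟩
      rw [hz a ha, hamu]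
      simp only
      rw [show g * ((s : ℝ) / (g * mu A)) * mu A = (s : ℝ) / (g * mu A) * (g * mu A) by ring,
        div_mul_cancel₀ _ h.ne', cl_coe]

/-- the union of two segments which start at the vertex -/
theorem arc_sup {z : Z} {a b m : ℝ} (ha0 : 0 ≤ a) (ha1 : a ≤ 1) (hb0 : 0 ≤ b) (hb1 : b ≤ 1)
    (hab : a = 1 ∨ b = 1) (hm0 : 0 ≤ m) (hm1 : m ≤ 1) :
    C.arc (z, 0, a * m) ⊔ C.arc (z, 0, b * m) = C.arc (z, 0, m) := by
  apply SetLike.coe_injective
  ext x
  rw [NonemptyCompacts.coe_sup, mem_union, C.mem_arc' le_rfl (by positivity) (by nlinarith),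
    C.mem_arc' le_rfl (by positivity) (by nlinarith), C.mem_arc' le_rfl hm0 hm1]
  constructor
  · rintro (⟨s, h1, h2, rfl⟩ | ⟨s, h1, h2, rfl⟩)
    · exact ⟨s, h1, h2.trans (by nlinarith), rfl⟩
    · exact ⟨s, h1, h2.trans (by nlinarith), rfl⟩
  · rintro ⟨s, h1, h2, rfl⟩
    rcases hab with rfl | rfl
    · exact Or.inl ⟨s, h1, by linarith, rfl⟩
    · exact Or.inr ⟨s, h1, by linarith, rfl⟩

theorem uu_nonneg (A : NonemptyCompacts (Z × unitInterval)) : 0 ≤ C.uu A :=
  div_nonneg (C.dd_nonneg A) (by positivity)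

theorem cl_max (u : ℝ) (hu : 1 ≤ u) :
    ((cl (3 - u) : unitInterval) : ℝ) = 1 ∨ ((cl (u - 1) : unitInterval) : ℝ) = 1 := by
  rcases le_total u 2 with h | h
  · left
    rw [cl, projIcc_of_right_le zero_le_one (by linarith)]
  · right
    rw [cl, projIcc_of_right_le zero_le_one (by linarith)]

/-- Continuity of the construction away from the vertex. -/
theorem continuousAt_R_pos (A : NonemptyCompacts (Z × unitInterval)) (hA : 0 < lam A) :
    ContinuousAt C.R A := by
  classical
  have hO : IsOpen {A : NonemptyCompacts (Z × unitInterval) | 0 < lam A} :=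
    isOpen_lt continuous_const continuous_lam
  refine ContinuousOn.continuousAt (s := {A | 0 < lam A}) ?_ (hO.mem_nhds hA)
  rw [continuousOn_iff_continuous_domRestrict]
  have hu : Continuous (fun B : {A : NonemptyCompacts (Z × unitInterval) | 0 < lam A} =>
      C.uu B) := by
    unfold uu
    refine (C.continuous_dd.comp continuous_subtype_val).div
      ((continuous_lam.comp continuous_subtype_val).pow 2) ?_
    intro B
    exact pow_ne_zero 2 (ne_of_gt B.2)
  have h1 : Continuous (fun B : {A : NonemptyCompacts (Z × unitInterval) | 0 < lam A} =>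
      C.F1 B) := by
    unfold F1
    refine C.continuous_arc.comp ((C.continuous_low.comp continuous_subtype_val).prodMk
      (Continuous.prodMk ?_ (continuous_mu.comp continuous_subtype_val)))
    exact (continuous_lam.comp continuous_subtype_val).mul (continuous_const.sub hu)
  have h2 : Continuous (fun B : {A : NonemptyCompacts (Z × unitInterval) | 0 < lam A} =>
      C.F2 B) := by
    unfold F2
    refine Continuous.sup ?_ ?_
    · refine C.continuous_arc.comp ((C.continuous_low.comp continuous_subtype_val).prodMk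
        (continuous_const.prodMk ?_))
      exact (continuous_subtype_val.comp (continuous_cl.comp (continuous_const.sub hu))).mul
        (continuous_mu.comp continuous_subtype_val)
    · refine C.continuous_shr.comp (Continuous.prodMk ?_ continuous_subtype_val)
      exact continuous_subtype_val.comp (continuous_cl.comp (hu.sub continuous_const))
  have h3 : Continuous (fun B : {A : NonemptyCompacts (Z × unitInterval) | 0 < lam A} =>
      if C.uu B ≤ 1 then C.F1 B else C.F2 B) := by
    refine Continuous.if_le h1 h2 hu continuous_const ?_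
    intro B hB
    rw [F1, F2, hB]
    have e1 : ((cl (3 - 1) : unitInterval) : ℝ) = 1 := by
      rw [cl, projIcc_of_right_le zero_le_one (by norm_num)]
    have e2 : ((cl (1 - 1) : unitInterval) : ℝ) = 0 := by
      rw [sub_self, cl_zero]; rfl
    rw [e1, e2, sub_self, mul_zero, one_mul]
    apply SetLike.coe_injective
    rw [NonemptyCompacts.coe_sup]
    refine (union_eq_left.2 ?_).symm
    intro x hx
    obtain ⟨a, ha, c, rfl⟩ := C.mem_shr.1 hx
    rw [C.mem_arc' le_rfl (mu_nonneg _) (mu_le_one _)]
    refine ⟨0, le_rfl, mu_nonneg _, ?_⟩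
    rw [zero_mul, zero_mul, cl_zero]
    exact C.vertex_eq _ _
  refine h3.congr fun B => ?_
  show _ = C.R B
  rw [R, if_neg (ne_of_gt B.2)]

/-- Continuity of the construction at the sets which contain the vertex. -/
theorem continuousAt_R_zero (A : NonemptyCompacts (Z × unitInterval)) (hA : lam A = 0) :
    ContinuousAt C.R A := by
  classical
  have hRA : C.R A = C.hull A := by rw [R, if_pos hA]
  rw [ContinuousAt, hRA, tendsto_iff_ultrafilter]
  intro g hg
  have hlam : Tendsto lam (g : Filter (NonemptyCompacts (Z × unitInterval))) (𝓝 0) := by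
    rw [← hA]; exact (continuous_lam.tendsto A).mono_left hg
  have hhull : Tendsto C.hull (g : Filter (NonemptyCompacts (Z × unitInterval))) (𝓝 (C.hull A)) := (C.continuous_hull.tendsto A).mono_left hg
  have hlow : Tendsto C.low (g : Filter (NonemptyCompacts (Z × unitInterval))) (𝓝 (C.low A)) := (C.continuous_low.tendsto A).mono_left hg
  have hmu : Tendsto mu (g : Filter (NonemptyCompacts (Z × unitInterval))) (𝓝 (mu A)) := (continuous_mu.tendsto A).mono_left hg
  by_cases h0 : ∀ᶠ B in (g : Filter (NonemptyCompacts (Z × unitInterval))), lam B = 0 ∨ 3 ≤ C.uu B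
  · refine hhull.congr' ?_
    filter_upwards [h0] with B hB
    rw [R]
    by_cases hB0 : lam B = 0
    · rw [if_pos hB0]
    · rw [if_neg hB0]
      have h3 : 3 ≤ C.uu B := hB.resolve_left hB0
      rw [if_neg (by linarith), F2]
      have e1 : ((cl (3 - C.uu B) : unitInterval) : ℝ) = 0 := by
        rw [cl, projIcc_of_le_left zero_le_one (by linarith)]
      have e2 : ((cl (C.uu B - 1) : unitInterval) : ℝ) = 1 := by
        rw [cl, projIcc_of_right_le zero_le_one (by linarith)]
      rw [e1, e2, zero_mul]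
      apply SetLike.coe_injective
      rw [NonemptyCompacts.coe_sup]
      refine (union_eq_right.2 ?_).symm
      intro x hx
      obtain ⟨s, hs0, hs1, rfl⟩ := (C.mem_arc' le_rfl le_rfl zero_le_one).1 hx
      have : s = 0 := Subtype.ext (le_antisymm hs1 hs0)
      rw [this]
      obtain ⟨b, hb⟩ := B.nonempty
      refine C.mem_shr.2 ⟨b, hb, 0, ?_⟩
      have : cl (1 * ((0 : unitInterval) : ℝ) * (b.2 : ℝ)) = 0 := by simp [cl_zero]
      rw [this]
      exact C.vertex_eq _ _
  · have h0' : ∀ᶠ B in (g : Filter (NonemptyCompacts (Z × unitInterval))), 0 < lam B ∧ C.uu B < 3 := by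
      have := Ultrafilter.eventually_not.2 h0
      filter_upwards [this] with B hB
      push Not at hB
      exact ⟨lt_of_le_of_ne (lam_nonneg B) (Ne.symm hB.1), hB.2⟩
    -- the limit set lies on one ray
    have hosc : ∀ᶠ B in (g : Filter (NonemptyCompacts (Z × unitInterval))), mx C.oo (B ×ˢ B) ≤ 3 * lam B := by
      filter_upwards [h0'] with B hB
      obtain ⟨q, hq, hqe⟩ := mx_mem C.cont_oo (B ×ˢ B)
      rw [← hqe]
      have hq' : q.1 ∈ (B : Set (Z × unitInterval)) ∧ q.2 ∈ (B : Set (Z × unitInterval)) := hq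
      have h1 : C.gg q ≤ C.dd B := le_mx C.cont_gg (B ×ˢ B) hq
      have h2 : C.dd B = C.uu B * lam B ^ 2 := by
        rw [uu, div_mul_cancel₀]
        exact pow_ne_zero 2 (ne_of_gt hB.1)
      have h3 : lam B ≤ min (q.1.2 : ℝ) (q.2.2 : ℝ) := le_min (lam_le hq'.1) (lam_le hq'.2)
      have h4 : 0 ≤ C.oo q := abs_nonneg _
      have h5 : lam B * C.oo q ≤ C.gg q := mul_le_mul_of_nonneg_right h3 h4
      have h6 : C.uu B * lam B ^ 2 ≤ 3 * lam B ^ 2 :=
        mul_le_mul_of_nonneg_right hB.2.le (by positivity)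
      have h7 : lam B * C.oo q ≤ lam B * (3 * lam B) := by nlinarith
      exact le_of_mul_le_mul_left h7 hB.1
    have hoscA : mx C.oo (A ×ˢ A) ≤ 0 := by
      have hc : Continuous fun B : NonemptyCompacts (Z × unitInterval) => mx C.oo (B ×ˢ B) :=
        (continuous_mx C.cont_oo).comp
          (NonemptyCompacts.continuous_prod.comp (continuous_id.prodMk continuous_id))
      have h1 := (hc.tendsto A).mono_left hg
      have h2 : Tendsto (fun B => 3 * lam B) (g : Filter (NonemptyCompacts (Z × unitInterval))) (𝓝 (3 * 0)) := hlam.const_mul 3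
      have := le_of_tendsto_of_tendsto h1 h2 hosc
      simpa using this
    have hray : ∀ a ∈ (A : Set (Z × unitInterval)), a.1 = C.low A := by
      intro a ha
      obtain ⟨⟨s, hs⟩, -⟩ := C.low_spec A
      have h1 : C.oo (a, (C.low A, s)) ≤ mx C.oo (A ×ˢ A) := le_mx C.cont_oo (A ×ˢ A) ⟨ha, hs⟩
      have h2 : |C.e a.1 - C.e (C.low A)| ≤ 0 := h1.trans hoscA
      have h3 := abs_nonpos_iff.1 h2
      exact C.hinj (by linarith)
    rw [C.hull_eq_arc hray]
    by_cases h1 : ∀ᶠ B in (g : Filter (NonemptyCompacts (Z × unitInterval))), C.uu B ≤ 1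
    · have hF : Tendsto C.F1 (g : Filter (NonemptyCompacts (Z × unitInterval))) (𝓝 (C.arc (C.low A, 0, mu A))) := by
        refine (C.continuous_arc.tendsto _).comp (hlow.prodMk_nhds (Tendsto.prodMk_nhds ?_ hmu))
        refine squeeze_zero' ?_ ?_ hlam
        · filter_upwards [h1] with B hB
          exact mul_nonneg (lam_nonneg B) (by linarith)
        · filter_upwards with B
          have := C.uu_nonneg B
          have := lam_nonneg B
          nlinarith
      refine hF.congr' ?_
      filter_upwards [h0', h1] with B hB hB1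
      rw [R, if_neg (ne_of_gt hB.1), if_pos hB1]
    · have h1' : ∀ᶠ B in (g : Filter (NonemptyCompacts (Z × unitInterval))), 1 < C.uu B := by
        have := Ultrafilter.eventually_not.2 h1
        filter_upwards [this] with B hB
        exact not_le.1 hB
      obtain ⟨b0, hb0⟩ : ∃ b0 : unitInterval, Tendsto (fun B => cl (3 - C.uu B)) (g : Filter (NonemptyCompacts (Z × unitInterval))) (𝓝 b0) := by
        obtain ⟨x, -, hx⟩ := isCompact_univ.ultrafilter_le_nhds
          (g.map (fun B => cl (3 - C.uu B))) (by simp)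
        exact ⟨x, hx⟩
      obtain ⟨g0, hg0⟩ : ∃ g0 : unitInterval, Tendsto (fun B => cl (C.uu B - 1)) (g : Filter (NonemptyCompacts (Z × unitInterval))) (𝓝 g0) := by
        obtain ⟨x, -, hx⟩ := isCompact_univ.ultrafilter_le_nhds
          (g.map (fun B => cl (C.uu B - 1))) (by simp)
        exact ⟨x, hx⟩
      have hb0' : Tendsto (fun B => ((cl (3 - C.uu B) : unitInterval) : ℝ)) (g : Filter (NonemptyCompacts (Z × unitInterval))) (𝓝 (b0 : ℝ)) :=
        (continuous_subtype_val.tendsto b0).comp hb0
      have hg0' : Tendsto (fun B => ((cl (C.uu B - 1) : unitInterval) : ℝ)) (g : Filter (NonemptyCompacts (Z × unitInterval))) (𝓝 (g0 : ℝ)) :=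
        (continuous_subtype_val.tendsto g0).comp hg0
      have hone : (b0 : ℝ) = 1 ∨ (g0 : ℝ) = 1 := by
        by_cases hh : ∀ᶠ B in (g : Filter (NonemptyCompacts (Z × unitInterval))), ((cl (3 - C.uu B) : unitInterval) : ℝ) = 1
        · left
          refine tendsto_nhds_unique hb0' (tendsto_const_nhds.congr' ?_)
          filter_upwards [hh] with B hB
          exact hB.symm
        · right
          have := Ultrafilter.eventually_not.2 hh
          refine tendsto_nhds_unique hg0' (tendsto_const_nhds.congr' ?_)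
          filter_upwards [this, h1'] with B hB hB1
          exact ((cl_max _ hB1.le).resolve_left hB).symm
      have hF : Tendsto C.F2 (g : Filter (NonemptyCompacts (Z × unitInterval)))
          (𝓝 (C.arc (C.low A, 0, (b0 : ℝ) * mu A) ⊔ C.shr ((g0 : ℝ), A))) := by
        refine Tendsto.sup_nhds ?_ ?_
        · exact (C.continuous_arc.tendsto _).comp
            (hlow.prodMk_nhds (tendsto_const_nhds.prodMk_nhds (hb0'.mul hmu)))
        · exact (C.continuous_shr.tendsto _).comp
            (hg0'.prodMk_nhds (tendsto_id.mono_left hg))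
      rw [C.shr_one_ray hray g0.2.1 g0.2.2, C.arc_sup b0.2.1 b0.2.2 g0.2.1 g0.2.2 hone
        (mu_nonneg A) (mu_le_one A)] at hF
      refine hF.congr' ?_
      filter_upwards [h0', h1'] with B hB hB1
      rw [R, if_neg (ne_of_gt hB.1), if_neg (not_le.2 hB1)]

theorem continuous_R : Continuous C.R := by
  rw [continuous_iff_continuousAt]
  intro A
  rcases eq_or_lt_of_le (lam_nonneg A) with h | h
  · exact C.continuousAt_R_zero A h.symm
  · exact C.continuousAt_R_pos A h

end ConeData

end Pool.Agent.H545R3.Retr
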