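import Pool.Agent.H545R3.Retr

/-! # The retraction on the hyperspace of a cone -/

set_option autoImplicit false
set_option linter.unusedSectionVars false
set_option linter.unusedVariables false

open Set Topology Filter TopologicalSpace

namespace Pool.Agent.H545R3.Retr

namespace ConeData

variable {Z M : Type*} [TopologicalSpace Z] [CompactSpace Z] [TopologicalSpace M] [T2Space M]
variable (C : ConeData Z M)

/-- the preimage of a closed set of the cone -/
noncomputable def pre (A : NonemptyCompacts M) : NonemptyCompacts (Z × unitInterval) where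
  carrier := C.p ⁻¹' (A : Set M)
  isCompact' := (A.isCompact.isClosed.preimage C.hp).isCompact
  nonempty' := by
    obtain ⟨x, hx⟩ := A.nonempty
    obtain ⟨a, rfl⟩ := C.hsurj x
    exact ⟨a, hx⟩

theorem mem_pre {A : NonemptyCompacts M} {a : Z × unitInterval} :
    a ∈ (C.pre A : Set (Z × unitInterval)) ↔ C.p a ∈ (A : Set M) := Iff.rfl

/-- the image map on hyperspaces -/
noncomputable def im : NonemptyCompacts (Z × unitInterval) → NonemptyCompacts M :=
  NonemptyCompacts.map C.p C.hp

theorem im_pre (A : NonemptyCompacts M) : C.im (C.pre A) = A := by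
  apply SetLike.coe_injective
  show C.p '' (C.p ⁻¹' (A : Set M)) = A
  exact image_preimage_eq _ C.hsurj

theorem lam_eq_zero_iff (A : NonemptyCompacts (Z × unitInterval)) :
    lam A = 0 ↔ ∃ z, (z, (0 : unitInterval)) ∈ (A : Set (Z × unitInterval)) := by
  constructor
  · intro h
    obtain ⟨a, ha, hae⟩ := mn_mem cont_snd A
    have h2 : a.2 = 0 := by
      apply Subtype.ext
      show (a.2 : ℝ) = 0
      rw [← h]; exact hae
    refine ⟨a.1, ?_⟩
    rw [← h2]; exact ha
  · rintro ⟨z, hz⟩
    have := lam_le hz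
    exact le_antisymm this (lam_nonneg A)

theorem hull_congr (A B : NonemptyCompacts (Z × unitInterval)) (h : C.im A = C.im B)
    : C.hull A = C.hull B := by
  have key : ∀ A B : NonemptyCompacts (Z × unitInterval), C.im A = C.im B →
      (C.hull A : Set M) ⊆ C.hull B := by
    intro A B h x hx
    obtain ⟨a, ha, c, rfl⟩ := C.mem_shr.1 hx
    have h1 : C.p a ∈ (C.im A : Set M) := ⟨a, ha, rfl⟩
    rw [h] at h1
    obtain ⟨b, hb, hab⟩ := h1
    refine C.mem_shr.2 ⟨b, hb, c, ?_⟩
    rcases (C.hker b a).1 hab with rfl | ⟨h1, h2⟩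
    · rfl
    · rw [h1, h2]
      simp only [Icc.coe_zero, mul_zero, cl_zero]
      exact C.vertex_eq _ _
  exact SetLike.coe_injective (Subset.antisymm (key A B h) (key B A h.symm))

theorem R_congr (A B : NonemptyCompacts (Z × unitInterval)) (h : C.im A = C.im B) :
    C.R A = C.R B := by
  by_cases hA : lam A = 0
  · have hB : lam B = 0 := by
      obtain ⟨z, hz⟩ := (lam_eq_zero_iff A).1 hA
      have h1 : C.p (z, 0) ∈ (C.im A : Set M) := ⟨_, hz, rfl⟩
      rw [h] at h1
      obtain ⟨b, hb, hbe⟩ := h1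
      rw [lam_eq_zero_iff]
      rcases (C.hker _ _).1 hbe with rfl | ⟨h1, -⟩
      · exact ⟨z, hb⟩
      · exact ⟨b.1, by rw [← h1]; exact hb⟩
    rw [R, if_pos hA, R, if_pos hB]
    exact C.hull_congr A B h
  · have hAB : A = B := by
      apply SetLike.coe_injective
      ext a
      constructor
      · intro ha
        have h1 : C.p a ∈ (C.im A : Set M) := ⟨a, ha, rfl⟩
        rw [h] at h1
        obtain ⟨b, hb, hbe⟩ := h1
        rcases (C.hker _ _).1 hbe with rfl | ⟨-, h2⟩
        · exact hb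
        · exfalso
          exact hA ((lam_eq_zero_iff A).2 ⟨a.1, by rw [← h2]; exact ha⟩)
      · intro hb
        have h1 : C.p a ∈ (C.im B : Set M) := ⟨a, hb, rfl⟩
        rw [← h] at h1
        obtain ⟨b, hb', hbe⟩ := h1
        rcases (C.hker _ _).1 hbe with rfl | ⟨h2, -⟩
        · exact hb'
        · exfalso
          exact hA ((lam_eq_zero_iff A).2 ⟨b.1, by rw [← h2]; exact hb'⟩)
    rw [hAB]

/-- the retraction -/
noncomputable def ret (A : NonemptyCompacts M) : NonemptyCompacts M := C.R (C.pre A)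

theorem continuous_ret : Continuous C.ret := by
  have hq : IsQuotientMap C.im :=
    IsQuotientMap.of_surjective_continuous (fun A => ⟨C.pre A, C.im_pre A⟩)
      C.hp.nonemptyCompacts_map
  rw [hq.continuous_iff]
  have : C.ret ∘ C.im = C.R := by
    funext A
    exact C.R_congr _ _ (C.im_pre _)
  rw [this]
  exact C.continuous_R

theorem connected_arc (q : Z × ℝ × ℝ) : IsConnected (C.arc q : Set M) := by
  have : (C.arc q : Set M) = (fun c : unitInterval =>
      C.p (q.1, cl (q.2.1 + (q.2.2 - q.2.1) * (c : ℝ)))) '' univ := rfl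
  rw [this]
  exact isConnected_univ.image _
    (C.hp.comp (continuous_const.prodMk (continuous_cl.comp (by fun_prop)))).continuousOn

theorem connected_shr (g : ℝ) (A : NonemptyCompacts (Z × unitInterval)) :
    IsConnected (C.shr (g, A) : Set M) := by
  obtain ⟨b, hb⟩ := A.nonempty
  have hv : C.p (b.1, 0) ∈ (C.shr (g, A) : Set M) := by
    refine C.mem_shr.2 ⟨b, hb, 0, ?_⟩
    simp [cl_zero]
  refine ⟨⟨_, hv⟩, isPreconnected_of_forall (C.p (b.1, 0)) ?_⟩
  intro x hx
  obtain ⟨a, ha, c, rfl⟩ := C.mem_shr.1 hx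
  refine ⟨(fun c : unitInterval => C.p (a.1, cl (g * (c : ℝ) * (a.2 : ℝ)))) '' univ,
    ?_, ⟨0, trivial, ?_⟩, ⟨c, trivial, rfl⟩, ?_⟩
  · rintro _ ⟨c, -, rfl⟩
    exact C.mem_shr.2 ⟨a, ha, c, rfl⟩
  · simp only [Icc.coe_zero, mul_zero, zero_mul, cl_zero]
    exact C.vertex_eq _ _
  · exact isPreconnected_univ.image _
      (C.hp.comp (continuous_const.prodMk (continuous_cl.comp (by fun_prop)))).continuousOn

theorem connected_R (A : NonemptyCompacts (Z × unitInterval)) : IsConnected (C.R A : Set M) := by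
  rw [R]
  split_ifs
  · exact C.connected_shr _ _
  · exact C.connected_arc _
  · rw [F2, NonemptyCompacts.coe_sup]
    have h1 := C.connected_arc (C.low A, 0, (cl (3 - C.uu A) : ℝ) * mu A)
    have h2 := C.connected_shr (cl (C.uu A - 1) : ℝ) A
    obtain ⟨b, hb⟩ := A.nonempty
    have hv : C.p (b.1, 0) ∈ (C.shr ((cl (C.uu A - 1) : ℝ), A) : Set M) := by
      refine C.mem_shr.2 ⟨b, hb, 0, ?_⟩
      simp [cl_zero]
    have hv' : C.p (b.1, 0) ∈ (C.arc (C.low A, 0, (cl (3 - C.uu A) : ℝ) * mu A) : Set M) := by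
      refine C.mem_arc.2 ⟨0, ?_⟩
      simp only [Icc.coe_zero, mul_zero, add_zero, cl_zero]
      exact C.vertex_eq _ _
    exact ⟨h1.nonempty.inl, h1.isPreconnected.union _ hv' hv h2.isPreconnected⟩

/-- Subcontinua which avoid the vertex lie on one ray and are segments, those which contain the
vertex are stars; so the retraction fixes them. -/
theorem ret_fix [TotallyDisconnectedSpace Z] [T2Space Z] (A : NonemptyCompacts M)
    (hA : IsPreconnected (A : Set M)) : C.ret A = A := by
  classical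
  -- closed and open pieces of the cone
  have hcl : ∀ F : Set (Z × unitInterval), IsClosed F → IsClosed (C.p '' F) := fun F hF =>
    (hF.isCompact.image C.hp).isClosed
  -- separation lemma
  have hsep : ∀ (F G : Set (Z × unitInterval)), IsClosed F → IsClosed G →
      (∀ a, C.p a ∈ (A : Set M) → a ∈ F ∨ a ∈ G) →
      (∃ a ∈ F, C.p a ∈ (A : Set M)) → (∃ a ∈ G, C.p a ∈ (A : Set M)) →
      ∃ a ∈ F, ∃ b ∈ G, C.p a = C.p b ∧ C.p a ∈ (A : Set M) := by
    intro F G hF hG hcov ⟨a, haF, haA⟩ ⟨b, hbG, hbA⟩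
    have h := isPreconnected_closed_iff.1 hA (C.p '' F) (C.p '' G) (hcl F hF) (hcl G hG)
      (by
        intro x hx
        obtain ⟨c, rfl⟩ := C.hsurj x
        rcases hcov c hx with h | h
        · exact Or.inl ⟨c, h, rfl⟩
        · exact Or.inr ⟨c, h, rfl⟩)
      ⟨_, haA, a, haF, rfl⟩ ⟨_, hbA, b, hbG, rfl⟩
    obtain ⟨x, hxA, ⟨c, hc, rfl⟩, ⟨d, hd, hdc⟩⟩ := h
    exact ⟨c, hc, d, hd, hdc.symm, hxA⟩
  by_cases h0 : lam (C.pre A) = 0
  · -- the vertex belongs to `A`
    obtain ⟨z0, hz0⟩ := (lam_eq_zero_iff _).1 h0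
    have hv : ∀ z, C.p (z, 0) ∈ (A : Set M) := fun z => by
      rw [C.vertex_eq z z0]; exact hz0
    have hstar : ∀ z (s t : unitInterval), C.p (z, s) ∈ (A : Set M) → t ≤ s →
        C.p (z, t) ∈ (A : Set M) := by
      intro z s t hs hts
      by_contra ht
      have ht0 : t ≠ 0 := fun h => ht (h ▸ hv z)
      have hst : t ≠ s := fun h => ht (h ▸ hs)
      -- a clopen set of rays which miss `A` at height `t`
      have hO : IsOpen {w : Z | C.p (w, t) ∉ (A : Set M)} := by
        have : Continuous fun w : Z => C.p (w, t) := C.hp.comp (by fun_prop)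
        exact (A.isCompact.isClosed.preimage this).isOpen_compl
      obtain ⟨U, hU, hzU, hUO⟩ := compact_exists_isClopen_in_isOpen hO ht
      obtain ⟨a, ha, b, hb, hab, haA⟩ := hsep (U ×ˢ Ici t) (Uᶜ ×ˢ univ ∪ univ ×ˢ Iic t)
        (hU.isClosed.prod isClosed_Ici)
        ((hU.compl.isClosed.prod isClosed_univ).union (isClosed_univ.prod isClosed_Iic))
        (by
          rintro ⟨w, r⟩ hw
          by_cases hwU : w ∈ U
          · rcases le_total t r with h | h
            · exact Or.inl ⟨hwU, h⟩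
            · exact Or.inr (Or.inr ⟨trivial, h⟩)
          · exact Or.inr (Or.inl ⟨hwU, trivial⟩))
        ⟨(z, s), ⟨hzU, hts⟩, hs⟩ ⟨(z, 0), Or.inr ⟨trivial, show (0 : unitInterval) ≤ t from t.2.1⟩, hv z⟩
      have hat : t ≤ a.2 := ha.2
      rcases (C.hker a b).1 hab with rfl | ⟨h1, h2⟩
      · rcases hb with hb | hb
        · exact hb.1 ha.1
        · have hbt : a.2 ≤ t := hb.2
          have : a.2 = t := le_antisymm hbt hat
          have h3 := hUO ha.1
          apply h3
          rw [← this]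
          exact haA
      · rw [h1] at hat
        exact ht0 (le_antisymm hat t.2.1)
    rw [ret, R, if_pos h0]
    apply SetLike.coe_injective
    ext x
    rw [hull, C.mem_shr]
    constructor
    · rintro ⟨a, ha, c, rfl⟩
      refine hstar a.1 a.2 _ ha ?_
      have h1 := a.2.2.1
      have h2 := a.2.2.2
      have h3 := c.2.1
      have h4 := c.2.2
      have e1 : 1 * (c : ℝ) * (a.2 : ℝ) ≤ a.2 := by nlinarith
      have e0 : 0 ≤ 1 * (c : ℝ) * (a.2 : ℝ) := by positivity
      show ((cl _ : unitInterval) : ℝ) ≤ a.2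
      rw [cl_val e0 (e1.trans h2)]
      exact e1
    · intro hx
      obtain ⟨a, rfl⟩ := C.hsurj x
      refine ⟨a, hx, 1, ?_⟩
      simp [cl_coe]
  · -- the vertex does not belong to `A`
    have hv : ∀ z, C.p (z, 0) ∉ (A : Set M) := fun z h =>
      h0 ((lam_eq_zero_iff _).2 ⟨z, h⟩)
    have hpos : 0 < lam (C.pre A) := lt_of_le_of_ne (lam_nonneg _) (Ne.symm h0)
    have hinj : ∀ a b, C.p a ∈ (A : Set M) → C.p a = C.p b → a = b := by
      intro a b ha hab
      rcases (C.hker a b).1 hab with h | ⟨h1, h2⟩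
      · exact h
      · exfalso
        apply hv a.1
        rw [← h1]; exact ha
    -- `A` lies on one ray
    have hray : ∀ a b, C.p a ∈ (A : Set M) → C.p b ∈ (A : Set M) → a.1 = b.1 := by
      intro a b ha hb
      by_contra hne
      obtain ⟨U, hU, haU, hbU⟩ := compact_exists_isClopen_in_isOpen
        (isOpen_compl_singleton (x := b.1)) (x := a.1) hne
      obtain ⟨c, hc, d, hd, hcd, hcA⟩ := hsep (U ×ˢ univ) (Uᶜ ×ˢ univ)
        (hU.isClosed.prod isClosed_univ) (hU.compl.isClosed.prod isClosed_univ)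
        (by
          intro w _
          by_cases hw : w.1 ∈ U
          · exact Or.inl ⟨hw, trivial⟩
          · exact Or.inr ⟨hw, trivial⟩)
        ⟨a, ⟨haU, trivial⟩, ha⟩ ⟨b, ⟨fun h => hbU h rfl, trivial⟩, hb⟩
      have := hinj c d hcA hcd
      subst this
      exact hd.1 hc.1
    have hlow : ∀ a ∈ (C.pre A : Set (Z × unitInterval)), a.1 = C.low (C.pre A) := by
      intro a ha
      obtain ⟨⟨s, hs⟩, -⟩ := C.low_spec (C.pre A)
      exact hray a (C.low (C.pre A), s) ha hs
    have hdd : C.dd (C.pre A) = 0 := by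
      obtain ⟨q, hq, hqe⟩ := mx_mem C.cont_gg (C.pre A ×ˢ C.pre A)
      have hq' : q.1 ∈ (C.pre A : Set (Z × unitInterval)) ∧
        q.2 ∈ (C.pre A : Set (Z × unitInterval)) := hq
      rw [dd, ← hqe, gg, hray _ _ hq'.1 hq'.2]
      simp
    have huu : C.uu (C.pre A) = 0 := by rw [uu, hdd, zero_div]
    rw [ret, R, if_neg h0, if_pos (by rw [huu]; exact zero_le_one), F1, huu, sub_zero, mul_one]
    apply SetLike.coe_injective
    ext x
    rw [C.mem_arc' hpos.le (lam_le_mu _) (mu_le_one _)]
    constructor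
    · rintro ⟨s, hs1, hs2, rfl⟩
      by_contra hs
      obtain ⟨a, ha, hae⟩ := mn_mem cont_snd (C.pre A)
      obtain ⟨b, hb, hbe⟩ := mx_mem cont_snd (C.pre A)
      replace hae : (a.2 : ℝ) = lam (C.pre A) := hae
      replace hbe : (b.2 : ℝ) = mu (C.pre A) := hbe
      obtain ⟨c, hc, d, hd, hcd, hcA⟩ := hsep (univ ×ˢ Iic s) (univ ×ˢ Ici s)
        (isClosed_univ.prod isClosed_Iic) (isClosed_univ.prod isClosed_Ici)
        (by
          intro w _
          rcases le_total w.2 s with h | h
          · exact Or.inl ⟨trivial, h⟩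
          · exact Or.inr ⟨trivial, h⟩)
        ⟨a, ⟨trivial, show (a.2 : ℝ) ≤ s by rw [hae]; exact hs1⟩, ha⟩
        ⟨b, ⟨trivial, show (s : ℝ) ≤ b.2 by rw [hbe]; exact hs2⟩, hb⟩
      have := hinj c d hcA hcd
      subst this
      have hcs : c.2 = s := le_antisymm hc.2 hd.2
      apply hs
      rw [← hlow c hcA, ← hcs]
      exact hcA
    · intro hx
      obtain ⟨a, rfl⟩ := C.hsurj x
      refine ⟨a.2, lam_le (A := C.pre A) hx, le_mu (A := C.pre A) hx, ?_⟩
      rw [← hlow a hx]

end ConeData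

end Pool.Agent.H545R3.Retr
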