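import Pool.Agent.H545R3.Retr2

/-! # Facts on cones needed for the final statement -/

set_option autoImplicit false
set_option linter.unusedSectionVars false
set_option linter.unusedVariables false

open Set Topology Filter TopologicalSpace

namespace Pool.Agent.H545R3.Retr

/-- A compact totally disconnected metrizable space embeds in the line. -/
theorem exists_injection (Z : Type*) [TopologicalSpace Z] [CompactSpace Z] [T2Space Z]
    [SecondCountableTopology Z] [TotallyDisconnectedSpace Z] :
    ∃ e : Z → ℝ, Continuous e ∧ Function.Injective e := by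
  classical
  have hc : Countable (Clopens Z) := Clopens.countable_iff_secondCountable.2 inferInstance
  obtain ⟨f, hf⟩ := exists_surjective_nat (Clopens Z)
  let g : Z → ℕ → Bool := fun z n => decide (z ∈ f n)
  refine ⟨fun z => Cardinal.cantorFunction (1 / 3) (g z), ?_, ?_⟩
  · unfold Cardinal.cantorFunction
    refine continuous_tsum (u := fun n => (1 / 3 : ℝ) ^ n) ?_
      (summable_geometric_of_lt_one (by norm_num) (by norm_num)) ?_
    · intro n
      have : (fun z => Cardinal.cantorFunctionAux (1 / 3) (g z) n) =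
          (f n : Set Z).indicator (fun _ => (1 / 3 : ℝ) ^ n) := by
        funext z
        by_cases hz : z ∈ f n
        · have hz' : z ∈ (f n : Set Z) := hz
          simp [Cardinal.cantorFunctionAux, g, hz]
        · have hz' : z ∉ (f n : Set Z) := hz
          simp [Cardinal.cantorFunctionAux, g, hz]
      rw [this]
      refine continuous_indicator ?_ continuous_const.continuousOn
      intro a ha
      rw [(f n).isClopen.frontier_eq] at ha
      exact absurd ha (notMem_empty a)
    · intro n z
      unfold Cardinal.cantorFunctionAux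
      cases g z n <;> simp
  · intro x y hxy
    have h := Cardinal.cantorFunction_injective (by norm_num) (by norm_num) hxy
    by_contra hne
    obtain ⟨U, hU, hxU, hyU⟩ := exists_isClopen_of_totally_separated hne
    obtain ⟨n, hn⟩ := hf ⟨U, hU⟩
    have h1 := congrFun h n
    simp only [g, hn, decide_eq_decide] at h1
    exact hyU (h1.1 hxU)

variable {Z M : Type*} [TopologicalSpace Z] [CompactSpace Z] [TopologicalSpace M] [T2Space M]

namespace ConeData

variable (C : ConeData Z M)

include C

theorem compactSpace : CompactSpace M := by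
  have : IsCompact (range C.p) := isCompact_range C.hp
  rw [C.hsurj.range_eq] at this
  exact ⟨this⟩

theorem connectedSpace [Nonempty Z] : ConnectedSpace M := by
  obtain ⟨z0⟩ := ‹Nonempty Z›
  have : IsPreconnected (univ : Set M) := by
    apply isPreconnected_of_forall (C.p (z0, 0))
    intro y _
    obtain ⟨⟨z, s⟩, rfl⟩ := C.hsurj y
    refine ⟨(fun t => C.p (z, t)) '' univ, subset_univ _, ⟨0, trivial, C.vertex_eq _ _⟩,
      ⟨s, trivial, rfl⟩, ?_⟩
    exact isPreconnected_univ.image _ (C.hp.comp (by fun_prop)).continuousOn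
  exact { isPreconnected_univ := this, toNonempty := ⟨C.p (z0, 0)⟩ }

/-- The cone over a space with a limit point all other points of which are isolated is not locally
connected. -/
theorem not_locallyConnected [T1Space Z] (z0 : Z) (h0 : (𝓝[≠] z0).NeBot)
    (h1 : ∀ z, z ≠ z0 → IsOpen ({z} : Set Z)) : ¬ LocallyConnectedSpace M := by
  intro hM
  let O : Set M := (C.p '' (univ ×ˢ Iic ⟨1 / 2, by norm_num, by norm_num⟩))ᶜ
  have hO : IsOpen O :=
    ((isClosed_univ.prod isClosed_Iic).isCompact.image C.hp).isClosed.isOpen_compl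
  have hvO : ∀ z, C.p (z, 0) ∉ O := fun z h => h ⟨(z, 0), ⟨trivial, by
    show (0 : ℝ) ≤ 1 / 2
    norm_num⟩, rfl⟩
  have h1O : ∀ z, C.p (z, 1) ∈ O := by
    rintro z ⟨⟨w, s⟩, ⟨-, hs⟩, he⟩
    have hs' : (s : ℝ) ≤ 1 / 2 := hs
    rcases (C.hker _ _).1 he with h | ⟨-, h⟩
    · have h2 : s = 1 := congrArg Prod.snd h
      rw [h2] at hs'
      norm_num at hs'
    · exact one_ne_zero h
  obtain ⟨V, hVO, hV, hxV, hVc⟩ := locallyConnectedSpace_iff_subsets_isOpen_isConnected.1 hM
    (C.p (z0, 1)) O (hO.mem_nhds (h1O z0))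
  have hpre : {w : Z | C.p (w, 1) ∈ V} ∈ 𝓝 z0 := by
    have hc : Continuous fun w : Z => C.p (w, 1) := C.hp.comp (by fun_prop)
    exact (hV.preimage hc).mem_nhds hxV
  obtain ⟨w, hw1, hw2⟩ : ∃ w, C.p (w, 1) ∈ V ∧ w ≠ z0 := by
    have := h0.nonempty_of_mem (inter_mem (mem_nhdsWithin_of_mem_nhds hpre) self_mem_nhdsWithin)
    obtain ⟨w, h1, h2⟩ := this
    exact ⟨w, h1, h2⟩
  have hF : IsClosed (C.p '' ({w} ×ˢ univ)) :=
    ((isClosed_singleton.prod isClosed_univ).isCompact.image C.hp).isClosed
  have hG : IsClosed (C.p '' (({w} : Set Z)ᶜ ×ˢ univ)) :=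
    (((h1 w hw2).isClosed_compl.prod isClosed_univ).isCompact.image C.hp).isClosed
  obtain ⟨x, hxV', ⟨a, ha, rfl⟩, ⟨b, hb, hab⟩⟩ := isPreconnected_closed_iff.1 hVc.isPreconnected _ _
    hF hG (by
      intro x _
      obtain ⟨a, rfl⟩ := C.hsurj x
      by_cases hwa : a.1 = w
      · exact Or.inl ⟨a, ⟨hwa, trivial⟩, rfl⟩
      · exact Or.inr ⟨a, ⟨hwa, trivial⟩, rfl⟩)
    ⟨_, hw1, (w, 1), ⟨rfl, trivial⟩, rfl⟩ ⟨_, hxV, (z0, 1), ⟨fun h => hw2 h.symm, trivial⟩, rfl⟩
  rcases (C.hker _ _).1 hab with rfl | ⟨-, h2⟩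
  · exact hb.1 ha.1
  · apply hvO a.1
    have := hVO hxV'
    rwa [← h2]

end ConeData

end Pool.Agent.H545R3.Retr
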